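import Pool.Agent.ZLM.Defs

/-!
# ZLM: reduction of products implies finiteness over the space of the operators `ad x`
-/

set_option autoImplicit false
set_option linter.style.haveILetI false

namespace Pool.Agent.ZLM

open Submodule Polynomial

section ring

variable {K : Type*} [Field K] {R : Type*} [Ring R] [Algebra K R]

theorem mulr {A B : Submodule K R} (h : A ≤ B) (C : Submodule K R) : A * C ≤ B * C :=
  mul_le_mul' h le_rfl

theorem mull {A B : Submodule K R} (h : A ≤ B) (C : Submodule K R) : C * A ≤ C * B :=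
  mul_le_mul' le_rfl h

/-- products of lists of letters are invariant under permutations modulo `Y` -/
theorem perm_congr {ι : Type*} (c : ι → R) (Y : Submodule K R) (l : List ι)
    (h : ∀ (l₁ : List ι) (i j : ι) (l₂ : List ι), (l₁ ++ i :: j :: l₂).Perm l →
      ((l₁ ++ i :: j :: l₂).map c).prod - ((l₁ ++ j :: i :: l₂).map c).prod ∈ Y)
    {l' : List ι} (hp : l'.Perm l) : (l'.map c).prod - (l.map c).prod ∈ Y := by
  have key : ∀ l₁ l₂ : List ι, l₁.Perm l₂ → ∀ p : List ι, (p ++ l₁).Perm l →
      ((p ++ l₁).map c).prod - ((p ++ l₂).map c).prod ∈ Y := by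
    intro l₁ l₂ h12
    induction h12 with
    | nil => intro p _; simp
    | cons x _ ih =>
      intro p hp
      have := ih (p ++ [x]) (by simpa using hp)
      simpa using this
    | swap x y l =>
      intro p hp
      exact h p y x l hp
    | trans h12 _ ih1 ih2 =>
      intro p hp
      have h1 := ih1 p hp
      have h2 := ih2 p ((h12.append_left p).symm.trans hp)
      have := Y.add_mem h1 h2
      simpa using this
  have := key l' l hp [] (by simpa using hp)
  simpa using this

/-- a long product of finitely many nilpotent letters is a combination of shorter products -/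
theorem pow_span_le {ι : Type*} [Fintype ι] (b : ι → R) (n : ℕ) (hn : ∀ i, b i ^ n = 0)
    (L : Submodule K R) (hb : ∀ i, b i ∈ L) (hc : ∀ x ∈ L, ∀ y ∈ L, x * y - y * x ∈ L) (j : ℕ)
    (hj : Fintype.card ι * n < j) : (span K (Set.range b)) ^ j ≤ L ^ (j - 1) := by
  classical
  have hprod : ∀ l : List ι, (l.map b).prod ∈ L ^ l.length := by
    intro l
    induction l with
    | nil =>
      rw [List.map_nil, List.prod_nil, List.length_nil, pow_zero]
      exact Submodule.one_le.1 le_rfl
    | cons i l ih =>
      rw [List.map_cons, List.prod_cons, List.length_cons, pow_succ']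
      exact Submodule.mul_mem_mul (hb i) ih
  rw [Submodule.span_pow, Submodule.span_le]
  intro x hx
  rw [Set.mem_pow] at hx
  obtain ⟨f, rfl⟩ := hx
  have hf : ∀ k, ∃ i, b i = (f k : R) := fun k => (f k).2
  choose g hg using hf
  have hl : (List.ofFn fun k => (f k : R)) = (List.ofFn g).map b := by
    rw [List.map_ofFn]
    congr 1
    funext k
    exact (hg k).symm
  rw [hl]
  set l := List.ofFn g with hl'
  have hlen : l.length = j := by simp [hl']
  -- a letter which appears often
  obtain ⟨i, hi⟩ : ∃ i, n ≤ l.count i := by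
    by_contra hcon
    push Not at hcon
    have h1 : ∑ i : ι, l.count i = l.length := by
      have := Multiset.sum_count_eq_card (s := (Finset.univ : Finset ι)) (m := (l : Multiset ι))
        (fun a _ => Finset.mem_univ a)
      simpa using this
    have h2 : ∑ i : ι, l.count i ≤ ∑ _i : ι, n := Finset.sum_le_sum fun i _ => (hcon i).le
    rw [h1, hlen] at h2
    simp only [Finset.sum_const, Finset.card_univ, smul_eq_mul] at h2
    omega
  obtain ⟨l', hl'⟩ := (List.replicate_sublist_iff.2 hi).exists_perm_append
  have h0 : ((List.replicate n i ++ l').map b).prod = 0 := by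
    rw [List.map_append, List.prod_append, List.map_replicate, List.prod_replicate, hn i, zero_mul]
  have h1 := perm_congr b (L ^ (j - 1)) (List.replicate n i ++ l') (fun l₁ i' j' l₂ hp => ?_) hl'
  · rwa [h0, sub_zero] at h1
  · have hlen2 : l₁.length + (l₂.length + 1 + 1) = j := by
      have h3 := hp.length_eq
      have h4 := hl'.length_eq
      rw [hlen] at h4
      rw [← h4] at h3
      simpa using h3
    have h5 : ((l₁ ++ i' :: j' :: l₂).map b).prod - ((l₁ ++ j' :: i' :: l₂).map b).prod
        = (l₁.map b).prod * ((b i' * b j' - b j' * b i') * (l₂.map b).prod) := by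
      simp only [List.map_append, List.map_cons, List.prod_append, List.prod_cons]
      noncomm_ring
    rw [h5]
    have h6 : (l₁.map b).prod * ((b i' * b j' - b j' * b i') * (l₂.map b).prod) ∈
        L ^ l₁.length * (L * L ^ l₂.length) :=
      Submodule.mul_mem_mul (hprod l₁)
        (Submodule.mul_mem_mul (hc _ (hb i') _ (hb j')) (hprod l₂))
    have h7 : L ^ l₁.length * (L * L ^ l₂.length) = L ^ (j - 1) := by
      rw [← pow_succ', ← pow_add]
      congr 1
      omega
    rwa [h7] at h6

/-- the ungraded form of the reduction -/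
theorem fin_pow (L S Z : Submodule K R) (hSL : S ≤ L) (hLL : L * L ≤ S * L ⊔ L ⊔ Z)
    (hLZ : L * Z ≤ Z) (hZL : Z * L ≤ Z) (R0 : ℕ) (hS : ∀ j, R0 < j → S ^ j ≤ L ^ (j - 1)) :
    ∀ k, 1 ≤ k → L ^ k ≤ (⨆ j : Fin (R0 + 1), S ^ (j : ℕ) * L) ⊔ Z := by
  have hSk : ∀ k, S ^ k ≤ L ^ k := fun k => pow_le_pow_left' hSL k
  have hZL' : ∀ k, Z * L ^ k ≤ Z := by
    intro k
    induction k with
    | zero => simp
    | succ k ih =>
      rw [pow_succ, ← mul_assoc]
      exact (mulr ih _).trans hZL
  have h1 : ∀ k, L * (S ^ k * L) ≤ S ^ (k + 1) * L ⊔ L ^ (k + 1) ⊔ Z := by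
    intro k
    induction k with
    | zero => simpa using hLL
    | succ k ih =>
      have e1 : L * (S ^ (k + 1) * L) ≤ (L * L) * (S ^ k * L) := by
        rw [pow_succ', mul_assoc, ← mul_assoc L S]
        exact mulr (mull hSL _) _
      have e2 : (L * L) * (S ^ k * L) ≤ (S * L ⊔ L ⊔ Z) * (S ^ k * L) :=
        mulr hLL _
      refine e1.trans (e2.trans ?_)
      rw [Submodule.sup_mul, Submodule.sup_mul]
      have e3 : L * (S ^ k * L) ≤ L ^ (k + 1 + 1) := by
        calc L * (S ^ k * L) ≤ L * (L ^ k * L) :=
              mull (mulr (hSk k) _) _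
          _ = L ^ (k + 1 + 1) := by rw [← pow_succ, ← pow_succ']
      refine sup_le (sup_le ?_ ?_) ?_
      · rw [mul_assoc]
        refine (mull ih _).trans ?_
        rw [Submodule.mul_sup, Submodule.mul_sup]
        refine sup_le (sup_le ?_ ?_) ?_
        · rw [← mul_assoc, ← pow_succ']
          exact le_sup_left.trans le_sup_left
        · refine (mulr hSL _).trans ?_
          rw [← pow_succ']
          exact le_sup_right.trans le_sup_left
        · exact ((mulr hSL _).trans hLZ).trans le_sup_right
      · exact e3.trans (le_sup_right.trans le_sup_left)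
      · refine le_trans ?_ le_sup_right
        calc Z * (S ^ k * L) ≤ Z * (L ^ k * L) :=
              mull (mulr (hSk k) _) _
          _ = Z * L ^ (k + 1) := by rw [← pow_succ]
          _ ≤ Z := hZL' _
  have h2 : ∀ k, 1 ≤ k → L ^ (k + 1) ≤ S ^ k * L ⊔ L ^ k ⊔ Z := by
    intro k hk
    induction k, hk using Nat.le_induction with
    | base => simpa [pow_succ] using hLL
    | succ k hk ih =>
      rw [pow_succ' L (k + 1)]
      refine (mull ih _).trans ?_
      rw [Submodule.mul_sup, Submodule.mul_sup]
      refine sup_le (sup_le (h1 k) ?_) (hLZ.trans le_sup_right)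
      rw [← pow_succ']
      exact le_sup_right.trans le_sup_left
  intro k hk
  induction k, hk using Nat.le_induction with
  | base =>
    have : L ^ 1 ≤ S ^ ((0 : Fin (R0 + 1)) : ℕ) * L := by simp
    exact (this.trans (le_iSup (fun j : Fin (R0 + 1) => S ^ (j : ℕ) * L) 0)).trans le_sup_left
  | succ k hk ih =>
    refine (h2 k hk).trans (sup_le (sup_le ?_ ih) le_sup_right)
    by_cases hkR : k ≤ R0
    · exact (le_iSup (fun j : Fin (R0 + 1) => S ^ (j : ℕ) * L) ⟨k, by omega⟩).trans le_sup_left
    · refine le_trans ?_ ih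
      calc S ^ k * L ≤ L ^ (k - 1) * L := mulr (hS k (by omega)) _
        _ = L ^ k := by rw [← pow_succ]; congr 1; omega

end ring

section graded

variable {K : Type*} [Field K] {G : Type*} [LieRing G] [LieAlgebra K G]

theorem ad_bracket (x y : G) : LieAlgebra.ad K G ⁅x, y⁆ =
    LieAlgebra.ad K G x * LieAlgebra.ad K G y - LieAlgebra.ad K G y * LieAlgebra.ad K G x := by
  ext z
  rw [LinearMap.sub_apply, Module.End.mul_apply, Module.End.mul_apply, LieAlgebra.ad_apply,
    LieAlgebra.ad_apply, LieAlgebra.ad_apply, LieAlgebra.ad_apply, LieAlgebra.ad_apply, lie_lie]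

/-- the homogeneous components are finite dimensional -/
theorem Gr.finite {V : ℕ → Submodule K G} (hV : Gr V) : ∀ i, Module.Finite K (V i) := by
  intro i
  induction i with
  | zero => rw [hV.zero]; infer_instance
  | succ i ih =>
    rcases Nat.eq_zero_or_pos i with rfl | hi
    · exact hV.fin
    · haveI := hV.fin
      haveI := ih
      have hfg : (Submodule.map₂ (LieModule.toEnd K G G : G →ₗ[K] Module.End K G)
          (V 1) (V i)).FG := by
        apply Submodule.FG.map₂
        · exact Module.Finite.iff_fg.1 hV.fin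
        · exact Module.Finite.iff_fg.1 ih
      have heq : V (i + 1) = Submodule.map₂ (LieModule.toEnd K G G : G →ₗ[K] Module.End K G)
          (V 1) (V i) := by
        apply le_antisymm
        · intro z hz
          refine Submodule.span_le.2 ?_ (hV.gen i hi z hz)
          rintro w ⟨x, hx, y, hy, rfl⟩
          exact Submodule.apply_mem_map₂ _ hx hy
        · rw [Submodule.map₂_le]
          intro x hx y hy
          have := hV.lie hx hy
          rw [add_comm] at this
          exact this
      rw [heq]
      exact Module.Finite.iff_fg.2 hfg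

/-- operators of degree `i` are products of `i` operators of degree one -/
theorem Gr.ad_mem {V : ℕ → Submodule K G} (hV : Gr V) : ∀ i, A K (V i) ≤ (A K (V 1)) ^ i := by
  intro i
  induction i with
  | zero =>
    rw [hV.zero, A, Submodule.map_bot]
    exact bot_le
  | succ i ih =>
    rcases Nat.eq_zero_or_pos i with rfl | hi
    · simp
    · rintro _ ⟨z, hz, rfl⟩
      have := hV.gen i hi z hz
      clear hz
      induction this using Submodule.span_induction with
      | mem w hw =>
        obtain ⟨x, hx, y, hy, rfl⟩ := hw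
        have hx' : LieAlgebra.ad K G x ∈ A K (V 1) := ⟨x, hx, rfl⟩
        have hy' : LieAlgebra.ad K G y ∈ (A K (V 1)) ^ i := ih ⟨y, hy, rfl⟩
        show LieAlgebra.ad K G ⁅x, y⁆ ∈ _
        rw [ad_bracket]
        refine sub_mem ?_ ?_
        · rw [pow_succ']; exact Submodule.mul_mem_mul hx' hy'
        · rw [pow_succ]; exact Submodule.mul_mem_mul hy' hx'
      | zero => simp
      | add x y _ _ hx hy => rw [map_add]; exact add_mem hx hy
      | smul c x _ hx => rw [map_smul]; exact Submodule.smul_mem _ c hx

/-- the monomial map, linear over the field -/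
noncomputable def mon (N : ℕ) : Module.End K G →ₗ[K] (Module.End K G)[X] :=
  (Polynomial.monomial N).restrictScalars K

theorem mon_apply (N : ℕ) (a : Module.End K G) : mon N a = Polynomial.monomial N a := rfl

theorem mon_mul (i j : ℕ) (a b : Module.End K G) : mon i a * mon j b = mon (i + j) (a * b) := by
  rw [mon_apply, mon_apply, mon_apply, Polynomial.monomial_mul_monomial]

/-- the graded space of the operators `ad x` -/
noncomputable def LL (V : ℕ → Submodule K G) : Submodule K (Module.End K G)[X] :=
  span K {f | ∃ (i : ℕ) (x : G), x ∈ V i ∧ f = mon i (LieAlgebra.ad K G x)}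

/-- polynomials with coefficients in `Z V t` -/
def ZZ (V : ℕ → Submodule K G) (t : ℕ) : Submodule K (Module.End K G)[X] where
  carrier := {f | ∀ i, f.coeff i ∈ Z V t}
  zero_mem' := fun i => by rw [Polynomial.coeff_zero]; exact (Z V t).zero_mem
  add_mem' := fun {a b} ha hb i => by
    rw [Polynomial.coeff_add]; exact (Z V t).add_mem (ha i) (hb i)
  smul_mem' := fun c a ha i => by
    rw [Polynomial.coeff_smul]; exact (Z V t).smul_mem c (ha i)

theorem coeff_LL {V : ℕ → Submodule K G} {f : (Module.End K G)[X]} (hf : f ∈ LL V) (i : ℕ) :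
    f.coeff i ∈ A K (V i) := by
  induction hf using Submodule.span_induction with
  | mem w hw =>
    obtain ⟨j, x, hx, rfl⟩ := hw
    rw [mon_apply, Polynomial.coeff_monomial]
    split_ifs with h
    · subst h; exact ⟨x, hx, rfl⟩
    · exact zero_mem _
  | zero => simp
  | add x y _ _ hx hy => rw [Polynomial.coeff_add]; exact add_mem hx hy
  | smul c x _ hx => rw [Polynomial.coeff_smul]; exact Submodule.smul_mem _ c hx

theorem comm_LL {V : ℕ → Submodule K G} (hV : Gr V) : ∀ x ∈ LL V, ∀ y ∈ LL V,
    x * y - y * x ∈ LL V := by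
  intro x hx y hy
  induction hx using Submodule.span_induction with
  | mem w hw =>
    obtain ⟨i, x, hx, rfl⟩ := hw
    induction hy using Submodule.span_induction with
    | mem w hw =>
      obtain ⟨j, y, hy, rfl⟩ := hw
      refine Submodule.subset_span ⟨i + j, ⁅x, y⁆, hV.lie hx hy, ?_⟩
      rw [mon_mul, mon_mul, add_comm j i, ← map_sub, ad_bracket]
    | zero => simp
    | add u v _ _ hu hv =>
      have e : mon i (LieAlgebra.ad K G x) * (u + v) - (u + v) * mon i (LieAlgebra.ad K G x) =
        (mon i (LieAlgebra.ad K G x) * u - u * mon i (LieAlgebra.ad K G x)) +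
        (mon i (LieAlgebra.ad K G x) * v - v * mon i (LieAlgebra.ad K G x)) := by noncomm_ring
      rw [e]; exact add_mem hu hv
    | smul c u _ hu =>
      rw [mul_smul_comm, smul_mul_assoc, ← smul_sub]; exact Submodule.smul_mem _ c hu
  | zero => simp
  | add u v _ _ hu hv =>
    have e : (u + v) * y - y * (u + v) = (u * y - y * u) + (v * y - y * v) := by noncomm_ring
    rw [e]; exact add_mem hu hv
  | smul c u _ hu =>
    rw [mul_smul_comm, smul_mul_assoc, ← smul_sub]; exact Submodule.smul_mem _ c hu

theorem LL_mul_ZZ {V : ℕ → Submodule K G} (t : ℕ) (B : Submodule K (Module.End K G)[X]) :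
    B * ZZ V t ≤ ZZ V t := by
  rw [Submodule.mul_le]
  intro f _ z hz N
  rw [Polynomial.coeff_mul]
  refine Submodule.sum_mem _ fun p _ => ?_
  intro m hm v hv
  rw [Module.End.mul_apply, hz p.2 m hm v hv, map_zero]

theorem ZZ_mul_LL {V : ℕ → Submodule K G} (hV : Gr V) (t : ℕ) : ZZ V t * LL V ≤ ZZ V t := by
  rw [Submodule.mul_le]
  intro z hz f hf N
  rw [Polynomial.coeff_mul]
  refine Submodule.sum_mem _ fun p _ => ?_
  intro m hm v hv
  obtain ⟨x, hx, hx'⟩ := coeff_LL hf p.2
  rw [Module.End.mul_apply, ← hx']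
  exact hz p.1 (p.2 + m) (by omega) _ (hV.lie hx hv)

theorem pow_A_le {V : ℕ → Submodule K G} : ∀ N, ∀ a ∈ (A K (V 1)) ^ N, mon N a ∈ (LL V) ^ N := by
  intro N
  induction N with
  | zero =>
    intro a ha
    rw [pow_zero] at ha ⊢
    obtain ⟨c, rfl⟩ := Submodule.mem_one.1 ha
    rw [Submodule.mem_one]
    exact ⟨c, by rw [mon_apply]; rfl⟩
  | succ N ih =>
    intro a ha
    rw [pow_succ] at ha ⊢
    induction ha using Submodule.mul_induction_on' with
    | mem_mul_mem m hm n hn =>
      obtain ⟨x, hx, rfl⟩ := hn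
      rw [← mon_mul]
      exact Submodule.mul_mem_mul (ih m hm) (Submodule.subset_span ⟨1, x, hx, rfl⟩)
    | add x _ y _ hx hy => rw [map_add]; exact add_mem hx hy

open Pointwise in
theorem finOver_of_red {V : ℕ → Submodule K G} {M : Set G} {n : ℕ} (hV : Gr V)
    (hM : NilSet V M n) (h : Red V) : ∃ t, FinOver V t := by
  classical
  obtain ⟨t, D, hD⟩ := h
  refine ⟨t, ?_⟩
  -- finite sets of letters
  have hT : ∀ s, ∃ T : Finset G, (T : Set G) ⊆ M ∩ V s ∧ span K (T : Set G) = V s := by
    intro s
    have hs : span K (M ∩ V s) = V s :=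
      le_antisymm (Submodule.span_le.2 Set.inter_subset_right) (hM.spn s)
    have hfg : (span K (M ∩ V s)).FG := by
      rw [hs]; exact Module.Finite.iff_fg.1 (hV.finite s)
    obtain ⟨T, hT1, hT2⟩ := (Submodule.fg_span_iff_fg_span_finset_subset _).1 hfg
    exact ⟨T, hT1, by rw [← hT2, hs]⟩
  choose T hT1 hT2 using hT
  let ι := Σ s : Fin (D + 1), (T s)
  let b : ι → (Module.End K G)[X] := fun i => mon (i.1 : ℕ) (LieAlgebra.ad K G (i.2 : G))
  let S : Submodule K (Module.End K G)[X] := span K (Set.range b)
  have hb : ∀ i, b i ∈ LL V := fun i =>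
    Submodule.subset_span ⟨i.1, i.2, (hT1 _ i.2.2).2, rfl⟩
  have hbn : ∀ i, b i ^ n = 0 := by
    intro i
    have : (LieAlgebra.ad K G (i.2 : G)) ^ n = 0 := hM.nil _ (hT1 _ i.2.2).1
    show (Polynomial.monomial (i.1 : ℕ) (LieAlgebra.ad K G (i.2 : G))) ^ n = 0
    rw [Polynomial.monomial_pow, this, Polynomial.monomial_zero_right]
  have hSL : S ≤ LL V := Submodule.span_le.2 (by rintro _ ⟨i, rfl⟩; exact hb i)
  -- letters of small degree
  have hSmem : ∀ s, s ≤ D → ∀ x ∈ V s, mon s (LieAlgebra.ad K G x) ∈ S := by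
    intro s hs x hx
    rw [← hT2 s] at hx
    induction hx using Submodule.span_induction with
    | mem w hw => exact Submodule.subset_span ⟨⟨⟨s, by omega⟩, ⟨w, hw⟩⟩, rfl⟩
    | zero => simp
    | add x y _ _ hx hy => rw [map_add, map_add]; exact add_mem hx hy
    | smul c x _ hx => rw [map_smul, map_smul]; exact Submodule.smul_mem _ c hx
  have hmem : ∀ i, ∀ x ∈ V i, ∀ j, ∀ y ∈ V j,
      mon (i + j) (LieAlgebra.ad K G x * LieAlgebra.ad K G y) ∈ S * LL V ⊔ LL V ⊔ ZZ V t := by
    intro i
    induction i using Nat.strong_induction_on with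
    | _ i ih =>
      intro x hx j y hy
      by_cases hi : i ≤ D
      · rw [← mon_mul]
        refine Submodule.mem_sup_left (Submodule.mem_sup_left
          (Submodule.mul_mem_mul (hSmem i hi x hx) (Submodule.subset_span ⟨j, y, hy, rfl⟩)))
      · obtain ⟨τ, rfl⟩ : ∃ τ, i = τ + 1 := ⟨i - 1, by omega⟩
        have h1 := hD τ (by omega) x hx j y hy
        have h2 : Qd V τ (τ + 1 + j) ⊔ A K (V (τ + 1 + j)) ⊔ Z V t ≤
            (S * LL V ⊔ LL V ⊔ ZZ V t).comap (mon (τ + 1 + j)) := by
          refine sup_le (sup_le ?_ ?_) ?_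
          · rw [Qd, Submodule.span_le]
            rintro _ ⟨s, j', σ, l, hs, hsj, hσ, hl, rfl⟩
            have := ih s (by omega) σ hσ j' l hl
            rw [hsj] at this
            exact this
          · rintro _ ⟨z, hz, rfl⟩
            exact Submodule.mem_sup_left (Submodule.mem_sup_right
              (Submodule.subset_span ⟨τ + 1 + j, z, hz, rfl⟩))
          · intro z hz
            refine Submodule.mem_sup_right ?_
            intro m
            rw [mon_apply, Polynomial.coeff_monomial]
            split_ifs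
            · exact hz
            · exact zero_mem _
        exact h2 h1
  have hLL : LL V * LL V ≤ S * LL V ⊔ LL V ⊔ ZZ V t := by
    conv_lhs => rw [LL, Submodule.span_mul_span]
    rw [Submodule.span_le]
    rintro _ ⟨_, ⟨i, x, hx, rfl⟩, _, ⟨j, y, hy, rfl⟩, rfl⟩
    show mon i _ * mon j _ ∈ _
    rw [mon_mul]
    exact hmem i x hx j y hy
  have main := fin_pow (LL V) S (ZZ V t) hSL hLL (LL_mul_ZZ t _) (ZZ_mul_LL hV t)
    (Fintype.card ι * n) (fun j hj => pow_span_le b n hbn (LL V) hb (comm_LL hV) j hj)
  -- the finite family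
  let R0 := Fintype.card ι * n
  let β := Σ j : Fin (R0 + 1), (Fin j → ι)
  let op : β → Module.End K G := fun p =>
    (List.ofFn fun k => LieAlgebra.ad K G ((p.2 k).2 : G)).prod
  let dg : β → ℕ := fun p => (List.ofFn fun k => ((p.2 k).1 : ℕ)).sum
  have hP : ∀ (j : ℕ) (l : Fin j → ι), (List.ofFn fun k => b (l k)).prod =
      mon ((List.ofFn fun k => ((l k).1 : ℕ)).sum)
        ((List.ofFn fun k => LieAlgebra.ad K G ((l k).2 : G)).prod) := by
    intro j
    induction j with
    | zero => intro l; simp [mon_apply]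
    | succ j ih =>
      intro l
      rw [List.ofFn_succ, List.ofFn_succ, List.ofFn_succ, List.prod_cons, List.prod_cons,
        List.sum_cons, ih fun k => l k.succ, ← mon_mul]
  have hop : ∀ (j : ℕ) (l : Fin j → ι), (List.ofFn fun k => LieAlgebra.ad K G ((l k).2 : G)).prod ∈
      (A K (V 1)) ^ ((List.ofFn fun k => ((l k).1 : ℕ)).sum) := by
    intro j
    induction j with
    | zero =>
      intro l
      simp only [List.ofFn_zero, List.prod_nil, List.sum_nil, pow_zero]
      exact Submodule.one_le.1 le_rfl
    | succ j ih =>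
      intro l
      rw [List.ofFn_succ, List.ofFn_succ, List.prod_cons, List.sum_cons, pow_add]
      exact Submodule.mul_mem_mul (hV.ad_mem _ ⟨_, (hT1 _ (l 0).2.2).2, rfl⟩) (ih fun k => l k.succ)
  let C : Submodule K (Module.End K G)[X] :=
    { carrier := {x | ∃ f : β → (Module.End K G)[X], (∀ p, f p ∈ LL V) ∧
        x - ∑ p, mon (dg p) (op p) * f p ∈ ZZ V t}
      zero_mem' := ⟨0, fun _ => zero_mem _, by simp⟩
      add_mem' := by
        rintro x y ⟨f, hf, hf'⟩ ⟨g, hg, hg'⟩
        refine ⟨f + g, fun p => add_mem (hf p) (hg p), ?_⟩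
        have e : x + y - ∑ p, mon (dg p) (op p) * (f + g) p =
            (x - ∑ p, mon (dg p) (op p) * f p) + (y - ∑ p, mon (dg p) (op p) * g p) := by
          simp only [Pi.add_apply, mul_add, Finset.sum_add_distrib]
          abel
        rw [e]; exact add_mem hf' hg'
      smul_mem' := by
        rintro c x ⟨f, hf, hf'⟩
        refine ⟨c • f, fun p => Submodule.smul_mem _ c (hf p), ?_⟩
        have e : c • x - ∑ p, mon (dg p) (op p) * (c • f) p =
            c • (x - ∑ p, mon (dg p) (op p) * f p) := by
          simp only [Pi.smul_apply, mul_smul_comm, smul_sub, Finset.smul_sum]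
        rw [e]; exact Submodule.smul_mem _ c hf' }
  have hC : (⨆ j : Fin (R0 + 1), S ^ (j : ℕ) * LL V) ⊔ ZZ V t ≤ C := by
    refine sup_le (iSup_le fun j => ?_) ?_
    · rw [Submodule.mul_le]
      intro x hx y hy
      have hx' : x ∈ span K ((Set.range b) ^ (j : ℕ)) := by
        rw [← Submodule.span_pow]; exact hx
      clear hx
      induction hx' using Submodule.span_induction with
      | mem w hw =>
        rw [Set.mem_pow] at hw
        obtain ⟨f, rfl⟩ := hw
        have hf : ∀ k, ∃ i, b i = (f k : (Module.End K G)[X]) := fun k => (f k).2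
        choose g hg using hf
        have e1 : (List.ofFn fun k => (f k : (Module.End K G)[X])).prod =
            mon (dg ⟨j, g⟩) (op ⟨j, g⟩) := by
          rw [← hP j g]
          congr 2
          funext k
          exact (hg k).symm
        refine ⟨Pi.single ⟨j, g⟩ y, fun p => ?_, ?_⟩
        · by_cases hp : p = ⟨j, g⟩
          · subst hp; rw [Pi.single_eq_same]; exact hy
          · rw [Pi.single_eq_of_ne hp]; exact zero_mem _
        · rw [Finset.sum_eq_single (⟨j, g⟩ : β), Pi.single_eq_same, e1, sub_self]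
          · exact zero_mem _
          · intro p _ hp
            rw [Pi.single_eq_of_ne hp, mul_zero]
          · intro hp; exact absurd (Finset.mem_univ _) hp
      | zero => rw [zero_mul]; exact zero_mem _
      | add x y _ _ hx hy => rw [add_mul]; exact add_mem hx hy
      | smul c x _ hx => rw [smul_mul_assoc]; exact Submodule.smul_mem _ c hx
    · intro z hz
      exact ⟨0, fun _ => zero_mem _, by simpa using hz⟩
  let e := Fintype.equivFin β
  refine ⟨Fintype.card β, fun j => op (e.symm j), fun j => dg (e.symm j),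
    (∑ p, dg p) + 1, fun j => hop _ _, ?_⟩
  intro N hN a ha
  have h1 := main N (by omega) (pow_A_le N a ha)
  obtain ⟨f, hf, hf'⟩ := hC h1
  have hdg : ∀ p, dg p ≤ N := fun p =>
    (Finset.single_le_sum (fun i _ => Nat.zero_le (dg i)) (Finset.mem_univ p)).trans (by omega)
  have hl : ∀ p, ∃ l ∈ V (N - dg p), LieAlgebra.ad K G l = (f p).coeff (N - dg p) := fun p => by
    obtain ⟨l, hl, hl'⟩ := coeff_LL (hf p) (N - dg p)
    exact ⟨l, hl, hl'⟩
  choose l hl hl' using hl
  refine ⟨fun j => l (e.symm j), fun j => ⟨N - dg (e.symm j),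
    Nat.add_sub_cancel' (hdg (e.symm j)), hl _⟩, ?_⟩
  intro m hm v hv
  have h2 := hf' N m hm v hv
  rw [Polynomial.coeff_sub, Polynomial.finsetSum_coeff, mon_apply,
    Polynomial.coeff_monomial, if_pos rfl, LinearMap.sub_apply, LinearMap.sum_apply,
    sub_eq_zero] at h2
  rw [h2]
  show _ = ∑ j, (op (e.symm j)) ⁅l (e.symm j), v⁆
  rw [Equiv.sum_comp e.symm (fun p => (op p) ⁅l p, v⁆)]
  refine Finset.sum_congr rfl fun p _ => ?_
  have h3 : (mon (dg p) (op p) * f p).coeff N = op p * (f p).coeff (N - dg p) := by
    have h4 : N = (N - dg p) + dg p := by have := hdg p; omega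
    rw [mon_apply]
    conv_lhs => rw [h4]
    rw [Polynomial.coeff_monomial_mul]
  rw [h3, ← hl' p, Module.End.mul_apply, LieAlgebra.ad_apply]

end graded

universe u v

theorem fin_over {K : Type u} [Field K] {G : Type v} [LieRing G] [LieAlgebra K G]
    {V : ℕ → Submodule K G} (hV : JustInf V) (M : Set G) (n : ℕ) (hM : NilSet V M n)
    (hR : Red V) : ∃ t, FinOver V t :=
  finOver_of_red hV.toGr hM hR

end Pool.Agent.ZLM
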