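import Pool.Agent.ZLM.Defs

set_option autoImplicit false

namespace Pool.Agent.ZLM

open Submodule

universe u v

/-
PROOF. m = 0: V 0 = ⊥. Induction for m >= 1: V 1 is finite dimensional (hV.fin). V (m+1) is contained in the span of the image of the bilinear map V 1 × V m → G: e.g. V (m+1) ≤ Submodule.map₂ (LieModule.toEnd or the bilinear bracket as a LinearMap K G (K G)) (V 1) (V m), finite dimensional by Submodule.FG.map₂.
-/
theorem bas_fin {K : Type u} [Field K] {G : Type v} [LieRing G] [LieAlgebra K G]
    {V : ℕ → Submodule K G} (hV : Gr V) (m : ℕ) :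
    Module.Finite K (V m) := by
  rcases Nat.eq_zero_or_pos m with rfl | hm
  · rw [hV.zero]; infer_instance
  · induction m, hm using Nat.le_induction with
    | base => exact hV.fin
    | succ m hm ih =>
      have h1 : (V 1).FG := Module.Finite.iff_fg.mp hV.fin
      have h2 : (V m).FG := Module.Finite.iff_fg.mp ih
      have h3 : (Submodule.map₂ (LieAlgebra.ad K G : G →ₗ[K] Module.End K G) (V 1) (V m)).FG :=
        Submodule.FG.map₂ _ h1 h2
      have h4 : Module.Finite K
          (Submodule.map₂ (LieAlgebra.ad K G : G →ₗ[K] Module.End K G) (V 1) (V m)) :=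
        Module.Finite.iff_fg.mpr h3
      have h5 : V (m + 1) ≤
          Submodule.map₂ (LieAlgebra.ad K G : G →ₗ[K] Module.End K G) (V 1) (V m) := by
        intro z hz
        refine (span_le.mpr ?_) (hV.gen m hm z hz)
        rintro _ ⟨x, hx, y, hy, rfl⟩
        exact Submodule.apply_mem_map₂ (LieAlgebra.ad K G : G →ₗ[K] Module.End K G) hx hy
      exact Submodule.finiteDimensional_of_le h5

end Pool.Agent.ZLM
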