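import Pool.Agent.ZLM.Defs

set_option autoImplicit false

namespace Pool.Agent.ZLM

open Submodule

universe u v

/-
A family stable under the elements of degree one is a graded ideal.
PROOF. j = 0: V 0 = ⊥. j >= 1: induction on j (Nat.le_induction), for all i, x, y. j + 1: by hV.gen x is in the span of [a, b], a in V 1, b in V j; [[a, b], y] = [a, [b, y]] - [b, [a, y]] (lie_lie); [b, y] in I (i + j), [a, y] in I (i + 1). Alternatively use bas_pow: ad x in A (V 1) ^ j and induct on j there.
-/
theorem bas_ideal {K : Type u} [Field K] {G : Type v} [LieRing G] [LieAlgebra K G]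
    {V : ℕ → Submodule K G} (hV : Gr V) (I : ℕ → Submodule K G)
    (hI : ∀ i, I i ≤ V i) (hc : ∀ i, ∀ x ∈ V 1, ∀ y ∈ I i, ⁅x, y⁆ ∈ I (i + 1)) (i j : ℕ)
    (x y : G) (hx : x ∈ V j) (hy : y ∈ I i) : ⁅x, y⁆ ∈ I (i + j) := by
  rcases Nat.eq_zero_or_pos j with rfl | hj
  · rw [hV.zero, mem_bot] at hx
    rw [hx, zero_lie]
    exact zero_mem _
  · induction j, hj using Nat.le_induction generalizing i x y with
    | base => exact hc i x hx y hy
    | succ j hj ih =>
      refine span_induction (p := fun x _ => ⁅x, y⁆ ∈ I (i + (j + 1))) ?_ ?_ ?_ ?_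
        (hV.gen j hj x hx)
      · rintro _ ⟨a, ha, b, hb, rfl⟩
        rw [lie_lie]
        refine sub_mem ?_ ?_
        · have h1 := hc (i + j) a ha _ (ih i b y hb hy)
          exact h1
        · have h1 := ih (i + 1) b _ hb (hc i a ha y hy)
          have h2 : i + 1 + j = i + (j + 1) := by omega
          rwa [h2] at h1
      · rw [zero_lie]; exact zero_mem _
      · intro a b _ _ ha hb
        rw [add_lie]; exact add_mem ha hb
      · intro c a _ ha
        rw [smul_lie]; exact smul_mem _ _ ha

end Pool.Agent.ZLM
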