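import Pool.Agent.ZLM.Defs

set_option autoImplicit false

namespace Pool.Agent.ZLM

open Submodule

universe u v

/-
Shifted form of the property of being just infinite.
PROOF. Put N' i = N (i - q) if q <= i and ⊥ if i < q. Then N' i <= V i, N' is stable under V 1 (if i < q then N' i = ⊥ and [x, 0] = 0; if q <= i then i + 1 - q = (i - q) + 1), N' (m + q) = N m is nonzero for some m. By hV.just there is i >= 1 with N' i = V i; V i is not ⊥ (hV.ne) so q <= i. Then N' j = V j for all j >= i by induction: V (j+1) is in the span of the [x, y] with x in V 1, y in V j = N' j (hV.gen, j >= 1), so in N' (j+1). Take m₀ = i - q.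
-/
theorem bas_just {K : Type u} [Field K] {G : Type v} [LieRing G] [LieAlgebra K G]
    {V : ℕ → Submodule K G} (hV : JustInf V) (q : ℕ)
    (N : ℕ → Submodule K G) (hN : ∀ m, N m ≤ V (m + q))
    (hc : ∀ m, ∀ x ∈ V 1, ∀ y ∈ N m, ⁅x, y⁆ ∈ N (m + 1)) (hne : ∃ m, N m ≠ ⊥) :
    ∃ m₀, ∀ m, m₀ ≤ m → N m = V (m + q) := by
  set N' : ℕ → Submodule K G := fun i => if q ≤ i then N (i - q) else ⊥ with hN'
  have e1 : ∀ i, q ≤ i → N' i = N (i - q) := fun i hi => if_pos hi
  have e2 : ∀ i, ¬ q ≤ i → N' i = ⊥ := fun i hi => if_neg hi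
  have hle : ∀ i, N' i ≤ V i := by
    intro i
    by_cases hi : q ≤ i
    · rw [e1 i hi]
      have h := hN (i - q)
      rwa [Nat.sub_add_cancel hi] at h
    · rw [e2 i hi]; exact bot_le
  have hc' : ∀ i, ∀ x ∈ V 1, ∀ y ∈ N' i, ⁅x, y⁆ ∈ N' (i + 1) := by
    intro i x hx y hy
    by_cases hi : q ≤ i
    · rw [e1 i hi] at hy
      rw [e1 (i + 1) (by omega)]
      have h := hc (i - q) x hx y hy
      have h' : i - q + 1 = i + 1 - q := by omega
      rwa [h'] at h
    · rw [e2 i hi, mem_bot] at hy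
      rw [hy, lie_zero]
      exact zero_mem _
  obtain ⟨m, hm⟩ := hne
  have hne' : ∃ i, N' i ≠ ⊥ := by
    refine ⟨m + q, ?_⟩
    rw [e1 (m + q) (by omega), Nat.add_sub_cancel]
    exact hm
  obtain ⟨i, hi1, hi⟩ := hV.just N' hle hc' hne'
  have hqi : q ≤ i := by
    by_contra hlt
    rw [e2 i hlt] at hi
    exact hV.ne i hi1 hi.symm
  have hall : ∀ j, i ≤ j → N' j = V j := by
    intro j hj
    induction j, hj using Nat.le_induction with
    | base => exact hi
    | succ j hj ih =>
      refine le_antisymm (hle _) ?_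
      intro z hz
      refine (span_le.mpr ?_) (hV.gen j (by omega) z hz)
      rintro _ ⟨x, hx, y, hy, rfl⟩
      rw [← ih] at hy
      exact hc' j x hx y hy
  refine ⟨i - q, fun k hk => ?_⟩
  have h := hall (k + q) (by omega)
  rwa [e1 (k + q) (by omega), Nat.add_sub_cancel] at h

end Pool.Agent.ZLM
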