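import Pool.Agent.ZLM.Defs

set_option autoImplicit false

namespace Pool.Agent.ZLM

open Submodule

universe u v

/-
Elements of A (V 1) ^ N raise the degree by N.
PROOF. Induction on N: N = 0: pow_zero, Submodule.mem_one: a = algebraMap c, a v = c • v. N + 1: pow_succ', Submodule.mul_induction_on: a = ad x * b, b in A (V 1) ^ N: b v in V (m + N), [x, b v] in V (1 + (m + N)) by hV.lie.
-/
theorem bas_map {K : Type u} [Field K] {G : Type v} [LieRing G] [LieAlgebra K G]
    {V : ℕ → Submodule K G} (hV : Gr V) (N m : ℕ) (a : Module.End K G)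
    (ha : a ∈ (A K (V 1)) ^ N) (v : G) (hv : v ∈ V m) : a v ∈ V (m + N) := by
  induction N generalizing a with
  | zero =>
    rw [pow_zero, Submodule.mem_one] at ha
    obtain ⟨c, rfl⟩ := ha
    rw [Module.algebraMap_end_apply, add_zero]
    exact smul_mem _ _ hv
  | succ N ih =>
    rw [pow_succ'] at ha
    refine Submodule.mul_induction_on ha ?_ ?_
    · rintro _ ⟨x, hx, rfl⟩ b hb
      have h1 := ih b hb
      have h2 := hV.lie hx h1
      have h3 : 1 + (m + N) = m + (N + 1) := by omega
      rw [h3] at h2
      exact h2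
    · intro b c hb hc
      rw [LinearMap.add_apply]
      exact add_mem hb hc

end Pool.Agent.ZLM
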