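import Pool.Agent.ZLM.Defs

set_option autoImplicit false

namespace Pool.Agent.ZLM

open Submodule

universe u v

/-
The operators ad x, x of degree i, are sums of products of i operators ad y, y of degree one.
PROOF. Induction on i >= 1 (Nat.le_induction). i = 1: pow_one. i + 1: by hV.gen an element z of V (i+1) is in the span of the [x, y], x in V 1, y in V i; ad [x, y] = ad x * ad y - ad y * ad x (LieHom.map_lie / LieRing.of_associative_ring_bracket), with ad x in A (V 1), ad y in A (V 1) ^ i by induction; use pow_succ, pow_succ' and Submodule.mul_mem_mul, Submodule.span_induction (or Submodule.map_span_le).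
-/
theorem bas_pow {K : Type u} [Field K] {G : Type v} [LieRing G] [LieAlgebra K G]
    {V : ℕ → Submodule K G} (hV : Gr V) (i : ℕ) (hi : 1 ≤ i) :
    A K (V i) ≤ (A K (V 1)) ^ i := by
  induction i, hi using Nat.le_induction with
  | base => rw [pow_one]
  | succ i hi ih =>
    rintro _ ⟨z, hz, rfl⟩
    have hz' := hV.gen i hi z hz
    refine span_induction (p := fun z _ => (LieAlgebra.ad K G : G →ₗ[K] Module.End K G) z ∈
      (A K (V 1)) ^ (i + 1)) ?_ ?_ ?_ ?_ hz'
    · rintro _ ⟨x, hx, y, hy, rfl⟩
      have hx' : LieAlgebra.ad K G x ∈ A K (V 1) := ⟨x, hx, rfl⟩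
      have hy' : LieAlgebra.ad K G y ∈ (A K (V 1)) ^ i := ih ⟨y, hy, rfl⟩
      have he : LieAlgebra.ad K G ⁅x, y⁆ =
          LieAlgebra.ad K G x * LieAlgebra.ad K G y - LieAlgebra.ad K G y * LieAlgebra.ad K G x := by
        ext z
        exact lie_lie x y z
      change LieAlgebra.ad K G ⁅x, y⁆ ∈ _
      rw [he]
      refine sub_mem ?_ ?_
      · rw [pow_succ']; exact mul_mem_mul hx' hy'
      · rw [pow_succ]; exact mul_mem_mul hy' hx'
    · rw [map_zero]; exact zero_mem _
    · intro a b _ _ ha hb
      rw [map_add]; exact add_mem ha hb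
    · intro c a _ ha
      rw [map_smul]; exact smul_mem _ _ ha

end Pool.Agent.ZLM
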