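import Pool.Agent.ZLM.FO

set_option autoImplicit false

namespace Pool.Agent.ZLM

open Submodule

universe u v

/-- Long words in finitely many nilpotent elements can be reduced modulo commutators. -/
theorem sort_nil {K : Type u} [Field K] {R : Type v} [Ring R] [Algebra K R] (s n k : ℕ)
    (T : Fin s → R) (hT : ∀ j, T j ^ n = 0) (X : Submodule K R)
    (hX : ∀ (p q : List (Fin s)) (a b : Fin s), p.length + q.length + 2 = k →
      (p.map T).prod * (T a * T b - T b * T a) * (q.map T).prod ∈ X)
    (hk : s * n < k) (w : List (Fin s)) (hw : w.length = k) : (w.map T).prod ∈ X := by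
  obtain ⟨i, hi⟩ : ∃ i, n ≤ w.count i := by
    by_contra hcon
    push Not at hcon
    have h1 : ∑ i : Fin s, w.count i = w.length := by
      have := Multiset.sum_count_eq_card (s := (Finset.univ : Finset (Fin s)))
        (m := (w : Multiset (Fin s))) (fun a _ => Finset.mem_univ a)
      simpa using this
    have h2 : ∑ i : Fin s, w.count i ≤ ∑ _i : Fin s, n := Finset.sum_le_sum fun i _ => (hcon i).le
    rw [h1, hw] at h2
    simp only [Finset.sum_const, Finset.card_univ, smul_eq_mul, Fintype.card_fin] at h2
    omega
  obtain ⟨l', hl'⟩ := (List.replicate_sublist_iff.2 hi).exists_perm_append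
  have h0 : ((List.replicate n i ++ l').map T).prod = 0 := by
    rw [List.map_append, List.prod_append, List.map_replicate, List.prod_replicate, hT i, zero_mul]
  have h1 := perm_congr T X (List.replicate n i ++ l') (fun l₁ i' j' l₂ hp => ?_) hl'
  · rwa [h0, sub_zero] at h1
  · have hlen2 : l₁.length + l₂.length + 2 = k := by
      have h3 := hp.length_eq
      have h4 := hl'.length_eq
      rw [hw] at h4
      rw [← h4] at h3
      simp only [List.length_append, List.length_cons] at h3
      omega
    have h5 : ((l₁ ++ i' :: j' :: l₂).map T).prod - ((l₁ ++ j' :: i' :: l₂).map T).prod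
        = (l₁.map T).prod * (T i' * T j' - T j' * T i') * (l₂.map T).prod := by
      simp only [List.map_append, List.map_cons, List.prod_append, List.prod_cons]
      noncomm_ring
    rw [h5]
    exact hX l₁ l₂ i' j' hlen2

end Pool.Agent.ZLM
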