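import Pool.Agent.ZLM.Defs
import Pool.Agent.ZLM.M_bas_fin
import Pool.Agent.ZLM.M_bas_ideal
import Pool.Agent.ZLM.M_bas_just
import Pool.Agent.ZLM.M_bas_map
import Pool.Agent.ZLM.M_bas_pow
import Pool.Agent.ZLM.M_sort_nil

set_option autoImplicit false

namespace Pool.Agent.ZLM

open Submodule

universe u v



/-- the span of the `ad q * b`, `q ∈ I`, of degree `N` -/
def alpha1_J {K : Type u} [Field K] {G : Type v} [LieRing G] [LieAlgebra K G] (V I : ℕ → Submodule K G) (N : ℕ) :
    Submodule K (Module.End K G) :=
  span K {a | ∃ (i j : ℕ) (q : G) (b : Module.End K G), i + j = N ∧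
      q ∈ I i ∧ b ∈ (A K (V 1)) ^ j ∧ a = LieAlgebra.ad K G q * b}

theorem alpha1_ad_mem {K : Type u} [Field K] {G : Type v} [LieRing G] [LieAlgebra K G]
    {V : ℕ → Submodule K G} (hV : Gr V) {c : ℕ} {x : G} (hx : x ∈ V c) : LieAlgebra.ad K G x ∈ (A K (V 1)) ^ c := by
  rcases Nat.eq_zero_or_pos c with rfl | hc
  · rw [hV.zero, Submodule.mem_bot] at hx
    rw [hx, map_zero]
    exact Submodule.zero_mem _
  · exact bas_pow hV c hc (Submodule.mem_map_of_mem hx)

theorem alpha1_ad_lie {K : Type u} [Field K] {G : Type v} [LieRing G] [LieAlgebra K G] (x y : G) :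
    LieAlgebra.ad K G ⁅x, y⁆ = LieAlgebra.ad K G x * LieAlgebra.ad K G y - LieAlgebra.ad K G y * LieAlgebra.ad K G x := by
  ext z
  simp only [LieAlgebra.ad_apply, LinearMap.sub_apply, Module.End.mul_apply, lie_lie]

theorem alpha1_left {K : Type u} [Field K] {G : Type v} [LieRing G] [LieAlgebra K G]
    {V : ℕ → Submodule K G} (hV : Gr V) (I : ℕ → Submodule K G) (hI : ∀ i, I i ≤ V i)
    (hc : ∀ i, ∀ x ∈ V 1, ∀ y ∈ I i, ⁅x, y⁆ ∈ I (i + 1)) {c N : ℕ} {x : G} (hx : x ∈ V c) {a : Module.End K G}
    (ha : a ∈ alpha1_J V I N) : LieAlgebra.ad K G x * a ∈ alpha1_J V I (N + c) := by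
  refine Submodule.span_induction (p := fun a _ => LieAlgebra.ad K G x * a ∈ alpha1_J V I (N + c)) ?_ ?_ ?_ ?_ ha
  · rintro a ⟨i, j, q, b, hij, hq, hb, rfl⟩
    have h1 : LieAlgebra.ad K G x * (LieAlgebra.ad K G q * b) =
        LieAlgebra.ad K G q * (LieAlgebra.ad K G x * b) + LieAlgebra.ad K G ⁅x, q⁆ * b := by
      rw [alpha1_ad_lie]
      noncomm_ring
    rw [h1]
    refine Submodule.add_mem _ (Submodule.subset_span ⟨i, c + j, q, _, by omega, hq, ?_, rfl⟩)
      (Submodule.subset_span ⟨i + c, j, _, b, by omega, ?_, hb, rfl⟩)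
    · rw [pow_add]
      exact Submodule.mul_mem_mul (alpha1_ad_mem hV hx) hb
    · exact bas_ideal hV I hI hc i c x q hx hq
  · rw [mul_zero]
    exact Submodule.zero_mem _
  · intro a b _ _ h1 h2
    rw [mul_add]
    exact Submodule.add_mem _ h1 h2
  · intro r a _ h1
    rw [mul_smul_comm]
    exact Submodule.smul_mem _ _ h1

theorem alpha1_word {K : Type u} [Field K] {G : Type v} [LieRing G] [LieAlgebra K G]
    {V : ℕ → Submodule K G} (hV : Gr V) {s : ℕ} {l : Fin s → G} {g : Fin s → ℕ} (hl : ∀ j, l j ∈ V (g j))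
    (w : List (Fin s)) : (w.map fun j => LieAlgebra.ad K G (l j)).prod ∈ (A K (V 1)) ^ (w.map g).sum := by
  induction w with
  | nil =>
    simp only [List.map_nil, List.prod_nil, List.sum_nil, pow_zero]
    exact Submodule.one_le.1 le_rfl
  | cons j w ih =>
    simp only [List.map_cons, List.prod_cons, List.sum_cons, pow_add]
    exact Submodule.mul_mem_mul (alpha1_ad_mem hV (hl j)) ih

theorem alpha1_left_word {K : Type u} [Field K] {G : Type v} [LieRing G] [LieAlgebra K G]
    {V : ℕ → Submodule K G} (hV : Gr V) (I : ℕ → Submodule K G) (hI : ∀ i, I i ≤ V i)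
    (hc : ∀ i, ∀ x ∈ V 1, ∀ y ∈ I i, ⁅x, y⁆ ∈ I (i + 1)) {s : ℕ} {l : Fin s → G} {g : Fin s → ℕ} (hl : ∀ j, l j ∈ V (g j))
    (w : List (Fin s)) {N : ℕ} {a : Module.End K G} (ha : a ∈ alpha1_J V I N) :
    (w.map fun j => LieAlgebra.ad K G (l j)).prod * a ∈ alpha1_J V I ((w.map g).sum + N) := by
  induction w with
  | nil =>
    simp only [List.map_nil, List.prod_nil, List.sum_nil, zero_add, one_mul]
    exact ha
  | cons j w ih =>
    simp only [List.map_cons, List.prod_cons, List.sum_cons, mul_assoc]
    have h1 := alpha1_left hV I hI hc (hl j) ih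
    have h2 : (w.map g).sum + N + g j = g j + (w.map g).sum + N := by omega
    rwa [h2] at h1

/-- the finite generating system -/
theorem alpha1_gens {K : Type u} [Field K] {G : Type v} [LieRing G] [LieAlgebra K G]
    {V : ℕ → Submodule K G} (hV : Gr V) (M : Set G) (n : ℕ) (hM : NilSet V M n)
    (I : ℕ → Submodule K G) {n₀ : ℕ} (hn : ∀ m, n₀ ≤ m → I m = V m) :
    ∃ (s : ℕ) (l : Fin s → G) (g : Fin s → ℕ), (∀ j, l j ∈ M) ∧ (∀ j, l j ∈ V (g j)) ∧ (∀ j, g j < n₀) ∧
      ∀ i, V i ≤ I i ⊔ span K {x | ∃ j, g j = i ∧ x = l j} := by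
  classical
  have h1 : ∀ i, ∃ F : Finset G, (F : Set G) ⊆ M ∩ V i ∧ V i ≤ span K F := by
    intro i
    have h2 : span K (M ∩ V i) = V i := le_antisymm (Submodule.span_le.2 fun x hx => hx.2) (hM.spn i)
    have h3 : (V i).FG := Module.Finite.iff_fg.1 (bas_fin hV i)
    rw [← h2, Submodule.fg_span_iff_fg_span_finset_subset] at h3
    obtain ⟨F, hF, h4⟩ := h3
    refine ⟨F, hF, ?_⟩
    rw [← h4, h2]
  choose F hF hF' using h1
  let ι : Type v := Σ i : Fin n₀, {m : G // m ∈ F i}
  obtain ⟨e⟩ : Nonempty (Fin (Fintype.card ι) ≃ ι) := ⟨(Fintype.equivFin ι).symm⟩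
  refine ⟨Fintype.card ι, fun j => (e j).2.1, fun j => (e j).1, fun j => (hF _ (e j).2.2).1, fun j => (hF _ (e j).2.2).2,
    fun j => (e j).1.2, fun i => ?_⟩
  by_cases hi : n₀ ≤ i
  · exact (hn i hi).ge.trans le_sup_left
  · refine (hF' i).trans (le_trans (Submodule.span_le.2 fun x hx => Submodule.subset_span ?_) le_sup_right)
    refine ⟨e.symm ⟨⟨i, not_le.1 hi⟩, ⟨x, hx⟩⟩, ?_, ?_⟩
    · show ((e (e.symm _)).1 : ℕ) = i
      rw [Equiv.apply_symm_apply]
    · show x = ((e (e.symm _)).2 : G)
      rw [Equiv.apply_symm_apply]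

/-- the submodule of the polynomials with coefficients in `Y` -/
def alpha1_X {K : Type u} [Field K] {R : Type v} [Ring R] [Algebra K R] (Y : ℕ → Submodule K R) :
    Submodule K (Polynomial R) where
  carrier := {p | ∀ N, p.coeff N ∈ Y N}
  zero_mem' := fun N => by
    rw [Polynomial.coeff_zero]
    exact Submodule.zero_mem _
  add_mem' := fun {a b} ha hb N => by
    rw [Polynomial.coeff_add]
    exact Submodule.add_mem _ (ha N) (hb N)
  smul_mem' := fun c a ha N => by
    rw [Polynomial.coeff_smul]
    exact Submodule.smul_mem _ _ (ha N)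

theorem alpha1_mono {R : Type v} [Ring R] {s : ℕ} (T : Fin s → R) (g : Fin s → ℕ) (w : List (Fin s)) :
    (w.map fun j => Polynomial.monomial (g j) (T j)).prod = Polynomial.monomial (w.map g).sum (w.map T).prod := by
  induction w with
  | nil =>
    simp
  | cons j w ih =>
    rw [List.map_cons, List.prod_cons, ih, Polynomial.monomial_mul_monomial, List.map_cons, List.sum_cons,
      List.map_cons, List.prod_cons]

/-- sorting with the degrees -/
theorem alpha1_sort {K : Type u} [Field K] {R : Type v} [Ring R] [Algebra K R] (s n k : ℕ)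
    (T : Fin s → R) (g : Fin s → ℕ) (hT : ∀ j, T j ^ n = 0) (Y : ℕ → Submodule K R)
    (hY : ∀ (p q : List (Fin s)) (a b : Fin s), p.length + q.length + 2 = k →
      (p.map T).prod * (T a * T b - T b * T a) * (q.map T).prod ∈ Y ((p.map g).sum + (g a + g b) + (q.map g).sum))
    (hk : s * n < k) (w : List (Fin s)) (hw : w.length = k) : (w.map T).prod ∈ Y (w.map g).sum := by
  have h1 := sort_nil (K := K) (R := Polynomial R) s n k (fun j => Polynomial.monomial (g j) (T j)) (fun j => by
    rw [Polynomial.monomial_pow, hT, Polynomial.monomial_zero_right]) (alpha1_X Y) (fun p q a b hpq => by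
    intro N
    rw [alpha1_mono, alpha1_mono, Polynomial.monomial_mul_monomial, Polynomial.monomial_mul_monomial, add_comm (g b) (g a),
      ← map_sub, Polynomial.monomial_mul_monomial, Polynomial.monomial_mul_monomial, Polynomial.coeff_monomial]
    split_ifs with h
    · rw [← h]
      exact hY p q a b hpq
    · exact Submodule.zero_mem _) hk w hw
  have h2 := h1 (w.map g).sum
  rwa [alpha1_mono, Polynomial.coeff_monomial, if_pos rfl] at h2

/-
The right ideal generated by ad I is cofinite.
PROOF. Write J N for the right hand span with e replaced by N. (0) By bas_just (q = 0) there is n₀ with I i = V i for i >= n₀. For every i < n₀ the finite dimensional space V i (bas_fin) is spanned by a finite subset of M ∩ V i (hM.spn). So there are s, l : Fin s → G, g : Fin s → ℕ with l j in M ∩ V (g j), l j ≠ 0 (so g j >= 1), g j < n₀, and V i ≤ I i ⊔ span {l j | g j = i} for ALL i. (1) J is two sided: for x in V c and a in J N: ad x * a in J (N + c): ad x * ad q * b = ad q * (ad x * b) + ad [x, q] * b, ad x in A (V 1) ^ c (bas_pow;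 c = 0 is trivial) and [x, q] in I (i + c) (bas_ideal). For b' in A (V 1) ^ c: a * b' in J (N + c). Also ad q in J i for q in I i. (2) For a word w : List (Fin s) let T j = ad (l j), T w its product, g w the sum of the degrees. Let D N = J N ⊔ span {T w | g w = N}. Then A (V 1) ^ N ≤ D N: induction on N: (ad x) * (J N) in J (N+1) by (1); x = q + combination of the l j with g j = 1, q in I 1, and ad q * T w is in J (N+1) since T w in A (V 1) ^ N (bas_pow). (3) Fix N. Every word w of length k with g w = N satisfies T w in J N ⊔ span {T w' | g w' = N, w'.length <= s * n}: strong induction on k. If k <= s n clear. If k > s n apply sort_nil with X = J N ⊔ span{T w' | g w' = N, length < k} (to include the degree condition, apply it to the words which are permutations of w, or let X contain all operators T u for words u of length k with g u ≠ N ... simplest: repeat the argument (permute w into replicate n j ++ w' by adjacent transpositions; each transposition keeps g) or replace l by finitely many and use X = {a | the statement} together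 with X' = span of all T u (T a T b - T b T a) T v with g = N): the commutator ad l_a ad l_b - ad l_b ad l_a = ad [l_a, l_b] with [l_a, l_b] in V (g a + g b) ≤ I ⊔ span {l j}, so T p * ad [l_a, l_b] * T q is in J N ⊔ span {T w' | g w' = N, w'.length = k - 1}. (4) For e > s * n * n₀ there is no word with length <= s n and g w = e. So A (V 1) ^ e ≤ J e.
Note for (3): you may first prove a version of sort_nil for a fixed word w: if all T p (T a T b - T b T a) T q with p ++ [a, b] ++ q a permutation of w are in X, and w.length > s n, then T w in X (same proof). You may put that lemma in front (private).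
-/
theorem alpha1 {K : Type u} [Field K] {G : Type v} [LieRing G] [LieAlgebra K G]
    {V : ℕ → Submodule K G} (hV : JustInf V) (M : Set G) (n : ℕ) (hM : NilSet V M n)
    (I : ℕ → Submodule K G) (hI : ∀ i, I i ≤ V i)
    (hc : ∀ i, ∀ x ∈ V 1, ∀ y ∈ I i, ⁅x, y⁆ ∈ I (i + 1)) (hne : ∃ i, I i ≠ ⊥) :
    ∃ e, (A K (V 1)) ^ e ≤ span K {a | ∃ (i j : ℕ) (q : G) (b : Module.End K G), i + j = e ∧
      q ∈ I i ∧ b ∈ (A K (V 1)) ^ j ∧ a = LieAlgebra.ad K G q * b} := by
  have hG : Gr V := hV.toGr
  obtain ⟨n₀, hn₀⟩ := bas_just hV 0 I hI hc hne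
  obtain ⟨s, l, g, hlM, hl, hg, hgen⟩ := alpha1_gens hG M n hM I hn₀
  set T : Fin s → Module.End K G := fun j => LieAlgebra.ad K G (l j) with hT
  have hTw := fun w => alpha1_word hG hl w
  have hleft := fun (w : List (Fin s)) (N : ℕ) (a : Module.End K G) (ha : a ∈ alpha1_J V I N) =>
    alpha1_left_word hG I hI hc hl w ha
  rw [← hT] at hTw hleft
  -- the product of an element of the ideal and a word
  have hJ : ∀ (c : ℕ) (q : G) (_ : q ∈ I c) (w : List (Fin s)),
      LieAlgebra.ad K G q * (w.map T).prod ∈ alpha1_J V I (c + (w.map g).sum) := fun c q hq w =>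
    Submodule.subset_span ⟨c, (w.map g).sum, q, _, rfl, hq, hTw w, rfl⟩
  -- step 2
  have h2 : ∀ N, (A K (V 1)) ^ N ≤ alpha1_J V I N ⊔ span K {a | ∃ w : List (Fin s), (w.map g).sum = N ∧ a = (w.map T).prod} := by
    intro N
    induction N with
    | zero =>
      rw [pow_zero, Submodule.one_le]
      exact Submodule.mem_sup_right (Submodule.subset_span ⟨[], rfl, rfl⟩)
    | succ N ih =>
      rw [pow_succ', Submodule.mul_le]
      intro a ha b hb
      obtain ⟨x, hx, rfl⟩ := ha
      have hb' := ih hb
      obtain ⟨b₁, hb₁, b₂, hb₂, rfl⟩ := Submodule.mem_sup.1 hb'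
      rw [mul_add]
      refine Submodule.add_mem _ (Submodule.mem_sup_left (alpha1_left hG I hI hc hx hb₁)) ?_
      refine Submodule.span_induction (p := fun b _ => (LieAlgebra.ad K G : G →ₗ[K] Module.End K G) x * b ∈
        alpha1_J V I (N + 1) ⊔ span K {a | ∃ w : List (Fin s), (w.map g).sum = N + 1 ∧ a = (w.map T).prod}) ?_ ?_ ?_ ?_ hb₂
      · rintro b ⟨w, hw, rfl⟩
        obtain ⟨q, hq, y, hy, hxy⟩ := Submodule.mem_sup.1 (hgen 1 hx)
        rw [← hxy, map_add, add_mul]
        refine Submodule.add_mem _ (Submodule.mem_sup_left ?_) ?_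
        · have h3 := hJ 1 q hq w
          rw [hw, add_comm] at h3
          exact h3
        · refine Submodule.span_induction (p := fun y _ => (LieAlgebra.ad K G : G →ₗ[K] Module.End K G) y * (w.map T).prod ∈
            alpha1_J V I (N + 1) ⊔ span K {a | ∃ w : List (Fin s), (w.map g).sum = N + 1 ∧ a = (w.map T).prod}) ?_ ?_ ?_ ?_ hy
          · rintro y ⟨j, hj, rfl⟩
            refine Submodule.mem_sup_right (Submodule.subset_span ⟨j :: w, ?_, ?_⟩)
            · rw [List.map_cons, List.sum_cons, hj, hw, add_comm]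
            · rw [List.map_cons, List.prod_cons]
              rfl
          · rw [map_zero, zero_mul]
            exact Submodule.zero_mem _
          · intro y y' _ _ h3 h4
            rw [map_add, add_mul]
            exact Submodule.add_mem _ h3 h4
          · intro r y _ h3
            rw [map_smul, smul_mul_assoc]
            exact Submodule.smul_mem _ _ h3
      · rw [mul_zero]
        exact Submodule.zero_mem _
      · intro y y' _ _ h3 h4
        rw [mul_add]
        exact Submodule.add_mem _ h3 h4
      · intro r y _ h3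
        rw [mul_smul_comm]
        exact Submodule.smul_mem _ _ h3
  -- step 3
  let Y : ℕ → Submodule K (Module.End K G) := fun N => alpha1_J V I N ⊔
    span K {a | ∃ w : List (Fin s), (w.map g).sum = N ∧ w.length ≤ s * n ∧ a = (w.map T).prod}
  have h3 : ∀ (k : ℕ) (w : List (Fin s)), w.length = k → (w.map T).prod ∈ Y (w.map g).sum := by
    intro k
    induction k using Nat.strong_induction_on with
    | _ k ih =>
      intro w hw
      by_cases hk : s * n < k
      · refine alpha1_sort s n k T g (fun j => hM.nil _ (hlM j)) Y ?_ hk w hw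
        intro p q a b hpq
        have h4 : T a * T b - T b * T a = LieAlgebra.ad K G ⁅l a, l b⁆ := by
          exact (alpha1_ad_lie _ _).symm
        rw [h4]
        obtain ⟨u, hu, y, hy, huy⟩ := Submodule.mem_sup.1 (hgen (g a + g b) (hG.lie (hl a) (hl b)))
        rw [← huy, map_add, mul_add, add_mul]
        refine Submodule.add_mem _ (Submodule.mem_sup_left ?_) ?_
        · have h5 := hleft p _ _ (hJ _ u hu q)
          rw [← mul_assoc, ← add_assoc] at h5
          exact h5
        · have h5 : ∀ y ∈ span K {x | ∃ j, g j = g a + g b ∧ x = l j},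
              (p.map T).prod * (LieAlgebra.ad K G : G →ₗ[K] Module.End K G) y * (q.map T).prod ∈
                Y ((p.map g).sum + (g a + g b) + (q.map g).sum) := by
            intro y hy
            refine Submodule.span_induction (p := fun y _ => (p.map T).prod * (LieAlgebra.ad K G : G →ₗ[K] Module.End K G) y *
              (q.map T).prod ∈ Y ((p.map g).sum + (g a + g b) + (q.map g).sum)) ?_ ?_ ?_ ?_ hy
            · rintro y ⟨j, hj, rfl⟩
              have h6 := ih (p ++ j :: q).length (by simp; omega) (p ++ j :: q) rfl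
              simp only [List.map_append, List.prod_append, List.map_cons, List.prod_cons, List.sum_append, List.sum_cons, hj] at h6
              rw [← mul_assoc, ← add_assoc] at h6
              exact h6
            · rw [map_zero, mul_zero, zero_mul]
              exact Submodule.zero_mem _
            · intro y y' _ _ h3 h4
              rw [map_add, mul_add, add_mul]
              exact Submodule.add_mem _ h3 h4
            · intro r y _ h3
              rw [map_smul, mul_smul_comm, smul_mul_assoc]
              exact Submodule.smul_mem _ _ h3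
          exact h5 y hy
      · exact Submodule.mem_sup_right (Submodule.subset_span ⟨w, rfl, by omega, rfl⟩)
  -- step 4
  refine ⟨s * n * n₀ + 1, (h2 _).trans (sup_le le_rfl (Submodule.span_le.2 ?_))⟩
  rintro a ⟨w, hw, rfl⟩
  have h4 := h3 _ w rfl
  rw [hw] at h4
  have h5 : {a | ∃ w : List (Fin s), (w.map g).sum = s * n * n₀ + 1 ∧ w.length ≤ s * n ∧ a = (w.map T).prod} = ∅ := by
    rw [Set.eq_empty_iff_forall_notMem]
    rintro a ⟨w, hw, hlen, -⟩
    have h6 : (w.map g).sum ≤ w.length * n₀ := by
      have h7 := List.sum_le_card_nsmul (w.map g) n₀ (by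
        intro x hx
        obtain ⟨j, -, rfl⟩ := List.mem_map.1 hx
        exact (hg j).le)
      rwa [List.length_map, smul_eq_mul] at h7
    have h7 : w.length * n₀ ≤ s * n * n₀ := Nat.mul_le_mul_right _ hlen
    omega
  have h6 : Y (s * n * n₀ + 1) = alpha1_J V I (s * n * n₀ + 1) := by
    show alpha1_J V I (s * n * n₀ + 1) ⊔ span K _ = _
    rw [h5, Submodule.span_empty, sup_bot_eq]
  rw [h6] at h4
  exact h4

end Pool.Agent.ZLM
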