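import Pool.Agent.ZLM.Defs

set_option autoImplicit false

namespace Pool.Agent.ZLM

open Submodule

universe u v

/-
PROOF. Induction on N. N = 0: z = 1 z. N + 1: by hV.gen (m + N >= 1) z is in the span of [x, y], x in V 1, y in V (m + N); by induction y is in the span of the a v; [x, a v] = (ad x * a) v and ad x * a in A (V 1) ^ (N + 1) (pow_succ').
-/
theorem bas_span {K : Type u} [Field K] {G : Type v} [LieRing G] [LieAlgebra K G]
    {V : ℕ → Submodule K G} (hV : Gr V) (N m : ℕ) (hm : 1 ≤ m) (z : G)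
    (hz : z ∈ V (m + N)) : z ∈ span K {w | ∃ a ∈ (A K (V 1)) ^ N, ∃ v ∈ V m, w = a v} := by
  induction N generalizing z with
  | zero =>
    refine subset_span ⟨1, ?_, z, hz, rfl⟩
    rw [pow_zero]
    exact Submodule.one_le.mp le_rfl
  | succ N ih =>
    have hz' := hV.gen (m + N) (by omega) z hz
    refine (span_le.mpr ?_) hz'
    rintro _ ⟨x, hx, y, hy, rfl⟩
    have hy' := ih y hy
    refine span_induction (p := fun y _ => ⁅x, y⁆ ∈
      span K {w | ∃ a ∈ (A K (V 1)) ^ (N + 1), ∃ v ∈ V m, w = a v}) ?_ ?_ ?_ ?_ hy'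
    · rintro _ ⟨a, ha, v, hv, rfl⟩
      refine subset_span ⟨LieAlgebra.ad K G x * a, ?_, v, hv, rfl⟩
      rw [pow_succ']
      exact mul_mem_mul ⟨x, hx, rfl⟩ ha
    · rw [lie_zero]; exact zero_mem _
    · intro a b _ _ ha hb
      rw [lie_add]; exact add_mem ha hb
    · intro c a _ ha
      rw [lie_smul]; exact smul_mem _ _ ha

end Pool.Agent.ZLM
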