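import Pool.Agent.ZLM.Defs
import Pool.Agent.ZLM.M_alpha1
import Pool.Agent.ZLM.M_bas_map
import Pool.Agent.ZLM.M_bas_span

set_option autoImplicit false

namespace Pool.Agent.ZLM

open Submodule

universe u v



/-
PROOF. Take e from alpha1. Let m > e, m = 1 + e + c. By bas_span (with V 1 and N = e + c) z is in the span of the a v, a in A (V 1) ^ (e + c) = A (V 1) ^ e * A (V 1) ^ c (pow_add), v in V 1; by Submodule.mul_induction_on a is a sum of a₁ * a₂, and a₂ v in V (1 + c) (bas_map). a₁ is in the span of the ad q * b with q in I i, b in A (V 1) ^ j, i + j = e: (ad q * b) (a₂ v) = [q, b (a₂ v)] with b (a₂ v) in V (1 + c + j) (bas_map), i + (1 + c + j) = m, i <= e.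
-/
theorem alpha {K : Type u} [Field K] {G : Type v} [LieRing G] [LieAlgebra K G]
    {V : ℕ → Submodule K G} (hV : JustInf V) (M : Set G) (n : ℕ) (hM : NilSet V M n)
    (I : ℕ → Submodule K G) (hI : ∀ i, I i ≤ V i)
    (hc : ∀ i, ∀ x ∈ V 1, ∀ y ∈ I i, ⁅x, y⁆ ∈ I (i + 1)) (hne : ∃ i, I i ≠ ⊥) :
    ∃ e, ∀ m, e < m → ∀ z ∈ V m, z ∈ span K {w | ∃ (i j : ℕ) (q y : G), i ≤ e ∧ i + j = m ∧
      q ∈ I i ∧ y ∈ V j ∧ w = ⁅q, y⁆} := by
  obtain ⟨e, he⟩ := alpha1 hV M n hM I hI hc hne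
  refine ⟨e, fun m hm z hz => ?_⟩
  obtain ⟨c, rfl⟩ : ∃ c, m = 1 + (e + c) := ⟨m - 1 - e, by omega⟩
  have h1 := bas_span hV.toGr (e + c) 1 le_rfl z hz
  refine (Submodule.span_le.2 ?_) h1
  rintro _ ⟨a, ha, v, hv, rfl⟩
  rw [pow_add] at ha
  simp only [SetLike.mem_coe]
  induction ha using Submodule.mul_induction_on' with
  | mem_mul_mem a₁ ha₁ a₂ ha₂ =>
    have h2 : a₂ v ∈ V (1 + c) := bas_map hV.toGr c 1 a₂ ha₂ v hv
    rw [Module.End.mul_apply]
    have h3 := he ha₁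
    clear ha₁
    induction h3 using Submodule.span_induction with
    | mem x hx =>
      obtain ⟨i, j, q, b, hij, hq, hb, rfl⟩ := hx
      have h4 := bas_map hV.toGr j (1 + c) b hb _ h2
      refine Submodule.subset_span ⟨i, 1 + c + j, q, b (a₂ v), by omega, by omega, hq, h4, ?_⟩
      rw [Module.End.mul_apply, LieAlgebra.ad_apply]
    | zero => rw [LinearMap.zero_apply]; exact Submodule.zero_mem _
    | add x y _ _ hx hy => rw [LinearMap.add_apply]; exact Submodule.add_mem _ hx hy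
    | smul c x _ hx => rw [LinearMap.smul_apply]; exact Submodule.smul_mem _ _ hx
  | add x _ y _ hx hy => rw [LinearMap.add_apply]; exact Submodule.add_mem _ hx hy

end Pool.Agent.ZLM
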