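import Pool.Agent.ZLM.Defs
import Pool.Agent.ZLM.M_alpha

set_option autoImplicit false

namespace Pool.Agent.ZLM

open Submodule

universe u v



/-
PROOF. dimOp is the finrank of a finite dimensional space (image of the span of finitely many words), so it is enough to find an element of Op outside EvO. ∅: the function fun x => word K x [] = 1; if it were in EvO V with t then for x = 0 (Deep: 0 in V m) and z ≠ 0 in V (t + 1) (hV.ne) z = 0. {i}: fun x => ad (x i) = word K x [i]. Suppose it is in EvO V with t: then [y, z] = 0 for all y in V m, z in V m', m, m' > t. Let I i = V i for i > t and ⊥ for i <= t: a nonzero graded ideal. alpha gives e with: for m > e, V m is in the span of the [q, y], q in I i, i <= e, y in V (m - i). For m > e + t: i > t (or q = 0) and m - i > t, so [q, y] = 0; V m = ⊥, against hV.ne.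
-/
theorem cn_a1 {K : Type u} [Field K] {G : Type v} [LieRing G] [LieAlgebra K G]
    {V : ℕ → Submodule K G} (hV : JustInf V) (M : Set G) (n : ℕ) (hM : NilSet V M n) :
    1 ≤ dimOp V ∅ ∧ ∀ i, 1 ≤ dimOp V {i} := by
  -- a space of operators spanned by one word which is not eventually zero
  have key : ∀ (S : Finset ℕ) (l₀ : List ℕ), l₀.Nodup → l₀.toFinset = S →
      (∀ l : List ℕ, l.Nodup → l.toFinset = S → l = l₀) →
      (fun x : ℕ → G => word K x l₀) ∉ EvO V → 1 ≤ dimOp V S := by
    intro S l₀ h1 h2 h3 h4
    have hOp : Op K G S = span K {fun x : ℕ → G => word K x l₀} := by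
      unfold Op
      congr 1
      ext f
      constructor
      · rintro ⟨l, hl1, hl2, hl3⟩
        rw [h3 l hl1 hl2] at hl3
        exact hl3
      · intro hf
        exact ⟨l₀, h1, h2, hf⟩
    have hne : (EvO V).mkQ (fun x : ℕ → G => word K x l₀) ≠ 0 := by
      intro h0
      rw [Submodule.mkQ_apply, Submodule.Quotient.mk_eq_zero] at h0
      exact h4 h0
    unfold dimOp
    rw [hOp, Submodule.map_span, Set.image_singleton, finrank_span_singleton hne]
  refine ⟨key ∅ [] List.nodup_nil rfl (fun l _ hl => List.toFinset_eq_empty_iff l |>.1 hl) ?_,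
    fun i => key {i} [i] (List.nodup_singleton i) rfl ?_ ?_⟩
  · rintro ⟨t, ht⟩
    have h1 := ht (fun _ => 0) (fun _ => ⟨t + 1, Nat.lt_succ_self t, Submodule.zero_mem _⟩)
    apply hV.ne (t + 1) (by omega)
    rw [Submodule.eq_bot_iff]
    intro v hv
    exact h1 (t + 1) (Nat.lt_succ_self t) v hv
  · intro l hl1 hl2
    have h1 : l.length = 1 := by
      rw [← List.toFinset_card_of_nodup hl1, hl2, Finset.card_singleton]
    obtain ⟨j, rfl⟩ := List.length_eq_one_iff.1 h1
    have h2 : j ∈ ([j] : List ℕ).toFinset := by simp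
    rw [hl2, Finset.mem_singleton] at h2
    rw [h2]
  · rintro ⟨t, ht⟩
    have hcomm : ∀ m, t < m → ∀ y ∈ V m, ∀ m', t < m' → ∀ z ∈ V m', ⁅y, z⁆ = 0 := by
      intro m hm y hy m' hm' z hz
      have h1 := ht (fun _ => y) (fun _ => ⟨m, hm, hy⟩) m' hm' z hz
      simpa [word] using h1
    obtain ⟨e, he⟩ := alpha hV M n hM (fun i => if t < i then V i else ⊥)
      (fun i => by
        show (if t < i then V i else ⊥) ≤ V i
        by_cases h : t < i
        · rw [if_pos h]
        · rw [if_neg h]
          exact bot_le)
      (fun i x hx y hy => by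
        show ⁅x, y⁆ ∈ (if t < i + 1 then V (i + 1) else ⊥)
        have hy' : y ∈ (if t < i then V i else ⊥) := hy
        by_cases h : t < i
        · rw [if_pos h] at hy'
          rw [if_pos (by omega)]
          have := hV.lie hx hy'
          rwa [Nat.add_comm 1 i] at this
        · rw [if_neg h, Submodule.mem_bot] at hy'
          rw [hy', lie_zero]
          exact Submodule.zero_mem _)
      ⟨t + 1, by
        show (if t < t + 1 then V (t + 1) else ⊥) ≠ ⊥
        rw [if_pos (Nat.lt_succ_self t)]
        exact hV.ne (t + 1) (by omega)⟩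
    apply hV.ne (e + t + 1) (by omega)
    rw [Submodule.eq_bot_iff]
    intro z hz
    have h1 := he (e + t + 1) (by omega) z hz
    rw [← Submodule.mem_bot K]
    refine Submodule.span_le.2 ?_ h1
    rintro w ⟨i, j, q, y, hi, hij, hq, hy, rfl⟩
    show ⁅q, y⁆ ∈ (⊥ : Submodule K G)
    rw [Submodule.mem_bot]
    have hq' : q ∈ (if t < i then V i else ⊥) := hq
    by_cases h : t < i
    · rw [if_pos h] at hq'
      exact hcomm i h q hq' j (by omega) y hy
    · rw [if_neg h, Submodule.mem_bot] at hq'
      rw [hq', zero_lie]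

end Pool.Agent.ZLM
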