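import Pool.Agent.ZLM.Defs

set_option autoImplicit false

namespace Pool.Agent.ZLM

open Submodule

universe u v

/-
PROOF. Submodule.span_induction on hf (the conclusion for the given x is closed under 0, sums and scalars). Generator: f = fun x => word K x l (x i), (i :: l).Nodup, (i :: l).toFinset = S. Show for every list l: word K x l (x i) in V ((l.map d).sum + d i) by induction on l if all letters a of l satisfy x a in V (d a) (hV.lie; word K x (a :: l) = ad (x a) * word K x l). The sum over S is ((i :: l).map d).sum by List.sum_toFinset (nodup).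
-/
theorem law_hom {K : Type u} [Field K] {G : Type v} [LieRing G] [LieAlgebra K G]
    {V : ℕ → Submodule K G} (hV : Gr V) (S : Finset ℕ) (f : (ℕ → G) → G)
    (hf : f ∈ Law K G S) (x : ℕ → G) (d : ℕ → ℕ) (hx : ∀ i ∈ S, x i ∈ V (d i)) :
    f x ∈ V (∑ i ∈ S, d i) := by
  refine Submodule.span_induction (p := fun f _ => f x ∈ V (∑ i ∈ S, d i)) ?_ ?_ ?_ ?_ hf
  · rintro f ⟨i, l, hn, hS, rfl⟩
    have key : ∀ l : List ℕ, (∀ a ∈ l, x a ∈ V (d a)) → x i ∈ V (d i) →
        word K x l (x i) ∈ V ((l.map d).sum + d i) := by
      intro l
      induction l with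
      | nil =>
        intro _ hi
        simpa [word] using hi
      | cons a l ih =>
        intro ha hi
        have h1 := ih (fun b hb => ha b (List.mem_cons_of_mem _ hb)) hi
        have h2 := hV.lie (ha a List.mem_cons_self) h1
        have h3 : word K x (a :: l) (x i) = ⁅x a, word K x l (x i)⁆ := by
          unfold word
          rw [List.map_cons, List.prod_cons, Module.End.mul_apply, LieAlgebra.ad_apply]
        rw [h3, List.map_cons, List.sum_cons, add_assoc]
        exact h2
    have hall : ∀ a ∈ i :: l, x a ∈ V (d a) := fun a ha => hx a (by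
      rw [← hS]; exact List.mem_toFinset.2 ha)
    have h1 := key l (fun a ha => hall a (List.mem_cons_of_mem _ ha)) (hall i List.mem_cons_self)
    have h2 : ∑ j ∈ S, d j = (l.map d).sum + d i := by
      rw [← hS, List.sum_toFinset d hn, List.map_cons, List.sum_cons, add_comm]
    rw [h2]
    exact h1
  · exact zero_mem _
  · intro a b _ _ ha hb
    exact add_mem ha hb
  · intro c a _ ha
    exact Submodule.smul_mem _ _ ha

end Pool.Agent.ZLM
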