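import Pool.Agent.ZLM.Defs
import Pool.Agent.ZLM.M_law_hom

set_option autoImplicit false

namespace Pool.Agent.ZLM

open Submodule

universe u v



private theorem cn_sel_mk {K : Type u} [Field K] {G : Type v} [LieRing G] [LieAlgebra K G]
    {V : ℕ → Submodule K G} {ι κ : Type} [Fintype ι] [Fintype κ] (S A₀ : Finset ℕ)
    (P Q : ι → (ℕ → G) → G) (F F' : κ → (ℕ → G) → G) (B B' : κ → Finset ℕ) (h : (ℕ → G) → G) (t : ℕ)
    (h1 : A₀ ⊆ S) (h2 : ∀ k, P k ∈ Law K G A₀) (h3 : ∀ k, Q k ∈ Law K G (S \ A₀))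
    (h4 : ∀ c : ι → K, c ≠ 0 → ∑ k, c k • P k ∉ EvL V) (h5 : ∃ k, Q k ∉ EvL V)
    (h6 : ∀ j, F j ∈ Law K G (B j) ∧ F' j ∈ Law K G (B' j) ∧ B j ∪ B' j = S ∧ Disjoint (B j) (B' j) ∧
      ¬ A₀ ⊆ B j ∧ ¬ A₀ ⊆ B' j)
    (h7 : ∀ (x : ℕ → G) (d : ℕ → ℕ), (∀ i, x i ∈ V (d i)) → h x ∈ V (∑ i ∈ S, d i))
    (h8 : ∀ x, Deep V t x → ∀ m, t < m → ∀ z ∈ V m,
      ∑ k, ⁅P k x, ⁅Q k x, z⁆⁆ + ∑ j, ⁅F j x, ⁅F' j x, z⁆⁆ + ⁅h x, z⁆ = 0) : G2 V := by
  let e := Fintype.equivFin ι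
  let f := Fintype.equivFin κ
  refine ⟨S, A₀, _, fun k => P (e.symm k), fun k => Q (e.symm k), _, fun j => F (f.symm j),
    fun j => F' (f.symm j), fun j => B (f.symm j), fun j => B' (f.symm j), h, t, h1,
    fun k => h2 _, fun k => h3 _, ?_, ?_, fun j => h6 _, h7, ?_⟩
  · intro c hc hmem
    refine h4 (fun i => c (e i)) ?_ ?_
    · intro h0
      apply hc
      funext k
      have := congrFun h0 (e.symm k)
      simpa using this
    · have : ∑ k, c k • P (e.symm k) = ∑ i, c (e i) • P i := by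
        rw [← Equiv.sum_comp e]
        simp
      rw [this] at hmem
      exact hmem
  · obtain ⟨k, hk⟩ := h5
    exact ⟨e k, by simpa using hk⟩
  · intro x hx m hm z hz
    have := h8 x hx m hm z hz
    rw [← Equiv.sum_comp e.symm, ← Equiv.sum_comp f.symm (fun j => ⁅F j x, ⁅F' j x, z⁆⁆)] at this
    exact this

private theorem cn_sel_ind {K : Type u} [Field K] {G : Type v} [LieRing G] [LieAlgebra K G]
    {V : ℕ → Submodule K G} {P : Finset ℕ → ℕ → (ℕ → G) → G} {r : Finset ℕ → ℕ}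
    (hind : ∀ (I : Finset ℕ) (c : ℕ → K), ∑ a ∈ Finset.range (r I), c a • P I a ∈ EvL V →
      ∀ a, a < r I → c a = 0) (I : Finset ℕ) (c : Fin (r I) → K) (hc : c ≠ 0) :
    ∑ k : Fin (r I), c k • P I k ∉ EvL V := by
  intro h
  apply hc
  have h1 := hind I (fun a => if h : a < r I then c ⟨a, h⟩ else 0) (by
    rw [Finset.sum_range]
    convert h using 2 with k
    rw [dif_pos k.2])
  funext k
  have h2 := h1 k k.2
  rw [dif_pos k.2] at h2
  exact h2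

theorem cn_sel {K : Type u} [Field K] {G : Type v} [LieRing G] [LieAlgebra K G]
    {V : ℕ → Submodule K G} (hV : Gr V) (P : Finset ℕ → ℕ → (ℕ → G) → G)
    (r : Finset ℕ → ℕ) (hP : ∀ I a, a < r I → P I a ∈ Law K G I)
    (hind : ∀ (I : Finset ℕ) (c : ℕ → K), ∑ a ∈ Finset.range (r I), c a • P I a ∈ EvL V →
      ∀ a, a < r I → c a = 0)
    (S : Finset ℕ) (m : ℕ) (hm : m ∈ S) (c : Finset ℕ → ℕ → ℕ → K)
    (hrel : ∑ I ∈ (S.erase m).powerset, ∑ a ∈ Finset.range (r I), ∑ b ∈ Finset.range (r (S \ I)),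
      c I a b • (fun x : ℕ → G => LieAlgebra.ad K G (P I a x) * LieAlgebra.ad K G (P (S \ I) b x))
        ∈ EvO V)
    (hc : ∃ I ∈ (S.erase m).powerset, ∃ a, a < r I ∧ ∃ b, b < r (S \ I) ∧ c I a b ≠ 0) : G2 V := by
  classical
  obtain ⟨t, ht⟩ := hrel
  -- the terms of the relation
  obtain ⟨E, hE⟩ : ∃ E : Finset ℕ → (ℕ → G) → G → G, E = fun I x z =>
      ∑ a ∈ Finset.range (r I), ∑ b ∈ Finset.range (r (S \ I)), c I a b • ⁅P I a x, ⁅P (S \ I) b x, z⁆⁆ :=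
    ⟨_, rfl⟩
  have hsum : ∀ x, Deep V t x → ∀ k, t < k → ∀ z ∈ V k, ∑ I ∈ (S.erase m).powerset, E I x z = 0 := by
    intro x hx k hk z hz
    have h1 := ht x hx k hk z hz
    rw [hE]
    simp only [Finset.sum_apply, Pi.smul_apply, LinearMap.sum_apply, LinearMap.smul_apply, Module.End.mul_apply,
      LieAlgebra.ad_apply] at h1
    exact h1
  obtain ⟨X, hX⟩ : ∃ X : Finset (Finset ℕ), X = (S.erase m).powerset.filter fun I =>
      ∃ a, a < r I ∧ ∃ b, b < r (S \ I) ∧ c I a b ≠ 0 := ⟨_, rfl⟩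
  have hXne : X.Nonempty := by
    obtain ⟨I, hI, h⟩ := hc
    exact ⟨I, by rw [hX]; exact Finset.mem_filter.2 ⟨hI, h⟩⟩
  obtain ⟨I₁, hI₁, hmax⟩ := Finset.exists_max_image X (fun I => max I.card (S \ I).card) hXne
  have hXsub : ∀ I ∈ X, I ⊆ S ∧ m ∉ I := by
    intro I hI
    rw [hX] at hI
    have h1 := Finset.mem_powerset.1 (Finset.mem_filter.1 hI).1
    exact ⟨h1.trans (Finset.erase_subset _ _), fun h => Finset.notMem_erase m S (h1 h)⟩
  obtain ⟨hI₁S, hmI₁⟩ := hXsub I₁ hI₁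
  obtain ⟨a₀, ha₀, b₀, hb₀, hab⟩ : ∃ a, a < r I₁ ∧ ∃ b, b < r (S \ I₁) ∧ c I₁ a b ≠ 0 := by
    rw [hX] at hI₁
    exact (Finset.mem_filter.1 hI₁).2
  have hsum' : ∀ x, Deep V t x → ∀ k, t < k → ∀ z ∈ V k, E I₁ x z + ∑ I ∈ X.erase I₁, E I x z = 0 := by
    intro x hx k hk z hz
    rw [Finset.add_sum_erase X (fun I => E I x z) hI₁, ← hsum x hx k hk z hz, hX]
    refine Finset.sum_filter_of_ne fun I hI hne => ?_
    by_contra hcon
    apply hne
    rw [hE]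
    refine Finset.sum_eq_zero fun a ha => Finset.sum_eq_zero fun b hb => ?_
    have h1 : c I a b = 0 := by
      by_contra h2
      exact hcon ⟨a, Finset.mem_range.1 ha, b, Finset.mem_range.1 hb, h2⟩
    rw [h1, zero_smul]
  -- the other terms
  have hoth : ∀ x z, ∑ j : (I : {I // I ∈ X.erase I₁}) × (Fin (r I.1) × Fin (r (S \ I.1))),
      ⁅(c j.1.1 j.2.1 j.2.2 • P j.1.1 j.2.1 : (ℕ → G) → G) x, ⁅P (S \ j.1.1) j.2.2 x, z⁆⁆ =
        ∑ I ∈ X.erase I₁, E I x z := by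
    intro x z
    rw [Fintype.sum_sigma, ← Finset.sum_coe_sort (X.erase I₁)]
    refine Finset.sum_congr rfl fun I _ => ?_
    rw [Fintype.sum_prod_type, hE]
    simp only [Finset.sum_range, Pi.smul_apply, smul_lie]
  have hF : ∀ j : (I : {I // I ∈ X.erase I₁}) × (Fin (r I.1) × Fin (r (S \ I.1))),
      c j.1.1 j.2.1 j.2.2 • P j.1.1 j.2.1 ∈ Law K G j.1.1 ∧ P (S \ j.1.1) j.2.2 ∈ Law K G (S \ j.1.1) ∧
      j.1.1 ∪ (S \ j.1.1) = S ∧ Disjoint j.1.1 (S \ j.1.1) := by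
    intro j
    obtain ⟨h1, -⟩ := hXsub j.1.1 (Finset.mem_of_mem_erase j.1.2)
    exact ⟨Submodule.smul_mem _ _ (hP _ _ j.2.1.2), hP _ _ j.2.2.2, Finset.union_sdiff_of_subset h1,
      Finset.disjoint_sdiff⟩
  have hcrd : ∀ I ∈ X.erase I₁, I.card ≤ max I₁.card (S \ I₁).card ∧ (S \ I).card ≤ max I₁.card (S \ I₁).card := by
    intro I hI
    have h1 := hmax I (Finset.mem_of_mem_erase hI)
    exact ⟨(le_max_left _ _).trans h1, (le_max_right _ _).trans h1⟩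
  by_cases hcase : (S \ I₁).card ≤ I₁.card
  · -- the larger part is `I₁`
    refine cn_sel_mk S I₁ (fun a : Fin (r I₁) => P I₁ a)
      (fun a : Fin (r I₁) => ∑ b ∈ Finset.range (r (S \ I₁)), c I₁ a b • P (S \ I₁) b)
      (fun j : (I : {I // I ∈ X.erase I₁}) × (Fin (r I.1) × Fin (r (S \ I.1))) => c j.1.1 j.2.1 j.2.2 • P j.1.1 j.2.1)
      (fun j => P (S \ j.1.1) j.2.2) (fun j => j.1.1) (fun j => S \ j.1.1) 0 t hI₁S (fun k => hP _ _ k.2)
      ?_ (cn_sel_ind hind I₁) ⟨⟨a₀, ha₀⟩, fun h => hab (hind (S \ I₁) (fun b => c I₁ a₀ b) h b₀ hb₀)⟩ ?_ ?_ ?_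
    · intro k
      exact Submodule.sum_mem _ fun b hb => Submodule.smul_mem _ _ (hP _ _ (Finset.mem_range.1 hb))
    · intro j
      obtain ⟨h1, h2, h3, h4⟩ := hF j
      obtain ⟨h5, h6⟩ := hcrd j.1.1 j.1.2
      rw [max_eq_left hcase] at h5 h6
      refine ⟨h1, h2, h3, h4, fun h => ?_, fun h => ?_⟩
      · exact Finset.ne_of_mem_erase j.1.2 (Finset.eq_of_subset_of_card_le h h5).symm
      · have h7 := Finset.eq_of_subset_of_card_le h h6
        apply hmI₁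
        rw [h7]
        exact Finset.mem_sdiff.2 ⟨hm, (hXsub j.1.1 (Finset.mem_of_mem_erase j.1.2)).2⟩
    · intro x d _
      exact Submodule.zero_mem _
    · intro x hx k hk z hz
      rw [hoth x z, Pi.zero_apply, zero_lie, add_zero, ← hsum' x hx k hk z hz, hE]
      congr 1
      simp only [Finset.sum_range, Finset.sum_apply, Pi.smul_apply, sum_lie, lie_sum, smul_lie, lie_smul]
  · -- the larger part is `S \ I₁`
    have hcase' := (not_le.1 hcase).le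
    have hSS : S \ (S \ I₁) = I₁ := Finset.sdiff_sdiff_eq_self hI₁S
    refine cn_sel_mk S (S \ I₁) (fun b : Fin (r (S \ I₁)) => P (S \ I₁) b)
      (fun b : Fin (r (S \ I₁)) => ∑ a ∈ Finset.range (r I₁), c I₁ a b • P I₁ a)
      (fun j : (I : {I // I ∈ X.erase I₁}) × (Fin (r I.1) × Fin (r (S \ I.1))) => c j.1.1 j.2.1 j.2.2 • P j.1.1 j.2.1)
      (fun j => P (S \ j.1.1) j.2.2) (fun j => j.1.1) (fun j => S \ j.1.1)
      (fun x => ∑ a ∈ Finset.range (r I₁), ∑ b ∈ Finset.range (r (S \ I₁)), c I₁ a b • ⁅P I₁ a x, P (S \ I₁) b x⁆)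
      t Finset.sdiff_subset (fun k => hP _ _ k.2)
      ?_ (cn_sel_ind hind (S \ I₁)) ⟨⟨b₀, hb₀⟩, fun h => hab (hind I₁ (fun a => c I₁ a b₀) h a₀ ha₀)⟩ ?_ ?_ ?_
    · intro k
      rw [hSS]
      exact Submodule.sum_mem _ fun b hb => Submodule.smul_mem _ _ (hP _ _ (Finset.mem_range.1 hb))
    · intro j
      obtain ⟨h1, h2, h3, h4⟩ := hF j
      obtain ⟨h5, h6⟩ := hcrd j.1.1 j.1.2
      obtain ⟨h8, h9⟩ := hXsub j.1.1 (Finset.mem_of_mem_erase j.1.2)
      rw [max_eq_right hcase'] at h5 h6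
      refine ⟨h1, h2, h3, h4, fun h => ?_, fun h => ?_⟩
      · exact h9 (h (Finset.mem_sdiff.2 ⟨hm, hmI₁⟩))
      · have h7 := Finset.eq_of_subset_of_card_le h h6
        apply Finset.ne_of_mem_erase j.1.2
        have h10 := hSS
        rw [h7, Finset.sdiff_sdiff_eq_self h8] at h10
        exact h10
    · intro x d hx
      refine Submodule.sum_mem _ fun a ha => Submodule.sum_mem _ fun b hb => Submodule.smul_mem _ _ ?_
      have h1 := law_hom hV I₁ (P I₁ a) (hP _ _ (Finset.mem_range.1 ha)) x d fun i _ => hx i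
      have h2 := law_hom hV (S \ I₁) (P (S \ I₁) b) (hP _ _ (Finset.mem_range.1 hb)) x d fun i _ => hx i
      have h3 := hV.lie h1 h2
      rwa [add_comm, Finset.sum_sdiff hI₁S] at h3
    · intro x hx k hk z hz
      rw [hoth x z, ← hsum' x hx k hk z hz, hE, add_right_comm]
      congr 1
      simp only [Finset.sum_range, Finset.sum_apply, Pi.smul_apply, sum_lie, lie_sum, smul_lie, lie_smul]
      rw [Finset.sum_comm, ← Finset.sum_add_distrib]
      refine Finset.sum_congr rfl fun a _ => ?_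
      rw [← Finset.sum_add_distrib]
      refine Finset.sum_congr rfl fun b _ => ?_
      rw [← smul_add, leibniz_lie (P I₁ a x), add_comm]

end Pool.Agent.ZLM
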