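import Pool.Agent.ZLM.Defs

set_option autoImplicit false

namespace Pool.Agent.ZLM

open Submodule

universe u v

/-
PROOF. span_induction for f and for g (or Submodule.mul_mem_mul and span_mul_span for the pointwise product); generators: word x l * word x l' = word x (l ++ l'), l ++ l' is Nodup by disjointness, toFinset_append.
-/
theorem op_mul {K : Type u} [Field K] {G : Type v} [LieRing G] [LieAlgebra K G] (S T : Finset ℕ) (hST : Disjoint S T)
    (f g : (ℕ → G) → Module.End K G) (hf : f ∈ Op K G S) (hg : g ∈ Op K G T) :
    (fun x => f x * g x) ∈ Op K G (S ∪ T) := by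
  refine Submodule.span_induction (p := fun f _ => (fun x => f x * g x) ∈ Op K G (S ∪ T))
    ?_ ?_ ?_ ?_ hf
  · rintro f ⟨l, hn, hS, rfl⟩
    refine Submodule.span_induction
      (p := fun g _ => (fun x => word K x l * g x) ∈ Op K G (S ∪ T)) ?_ ?_ ?_ ?_ hg
    · rintro g ⟨l', hn', hT, rfl⟩
      refine subset_span ⟨l ++ l', ?_, ?_, ?_⟩
      · refine List.Nodup.append hn hn' ?_
        intro a ha ha'
        exact Finset.disjoint_left.1 hST (by rw [← hS]; exact List.mem_toFinset.2 ha)
          (by rw [← hT]; exact List.mem_toFinset.2 ha')
      · rw [List.toFinset_append, hS, hT]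
      · funext x
        unfold word
        rw [List.map_append, List.prod_append]
    · have : (fun x : ℕ → G => word K x l * (0 : (ℕ → G) → Module.End K G) x) = 0 := by
        funext x
        rw [Pi.zero_apply, mul_zero]
      rw [this]
      exact zero_mem _
    · intro a b _ _ ha hb
      have : (fun x : ℕ → G => word K x l * (a + b) x) =
          (fun x => word K x l * a x) + fun x => word K x l * b x := by
        funext x
        rw [Pi.add_apply, mul_add, Pi.add_apply]
      rw [this]
      exact add_mem ha hb
    · intro c a _ ha
      have : (fun x : ℕ → G => word K x l * (c • a) x) =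
          c • (fun x => word K x l * a x) := by
        funext x
        rw [Pi.smul_apply, mul_smul_comm, Pi.smul_apply]
      rw [this]
      exact Submodule.smul_mem _ _ ha
  · have : (fun x : ℕ → G => (0 : (ℕ → G) → Module.End K G) x * g x) = 0 := by
      funext x
      rw [Pi.zero_apply, zero_mul]
    rw [this]
    exact zero_mem _
  · intro a b _ _ ha hb
    have : (fun x : ℕ → G => (a + b) x * g x) =
        (fun x => a x * g x) + fun x => b x * g x := by
      funext x
      rw [Pi.add_apply, add_mul, Pi.add_apply]
    rw [this]
    exact add_mem ha hb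
  · intro c a _ ha
    have : (fun x : ℕ → G => (c • a) x * g x) = c • (fun x => a x * g x) := by
      funext x
      rw [Pi.smul_apply, smul_mul_assoc, Pi.smul_apply]
    rw [this]
    exact Submodule.smul_mem _ _ ha

end Pool.Agent.ZLM
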