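import Pool.Agent.ZLM.Defs
import Pool.Agent.ZLM.M_op_mul

set_option autoImplicit false

namespace Pool.Agent.ZLM

open Submodule

universe u v



/-
PROOF. span_induction; generator by induction on l (for all l with (i :: l).Nodup and S = (i :: l).toFinset): l = []: ad (x i) = word x [i]. a :: l: ad [x_a, w] = ad x_a * ad w - ad w * ad x_a, ad x_a = word x [a] in Op {a}, ad w in Op (i :: l).toFinset by induction, op_mul (both orders).
-/
theorem law_ad {K : Type u} [Field K] {G : Type v} [LieRing G] [LieAlgebra K G] (S : Finset ℕ) (f : (ℕ → G) → G) (hf : f ∈ Law K G S) :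
    (fun x => LieAlgebra.ad K G (f x)) ∈ Op K G S := by
  refine Submodule.span_induction
    (p := fun f _ => (fun x => LieAlgebra.ad K G (f x)) ∈ Op K G S) ?_ ?_ ?_ ?_ hf
  · rintro f ⟨i, l, hn, hS, rfl⟩
    have key : ∀ l : List ℕ, (i :: l).Nodup →
        (fun x => LieAlgebra.ad K G (word K x l (x i))) ∈ Op K G (i :: l).toFinset := by
      intro l
      induction l with
      | nil =>
        intro _
        refine subset_span ⟨[i], List.nodup_singleton i, rfl, ?_⟩
        funext x
        unfold word
        rw [List.map_nil, List.prod_nil, List.map_cons, List.map_nil, List.prod_cons,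
          List.prod_nil, mul_one, Module.End.one_apply]
      | cons a l ih =>
        intro hnd
        have hnd' : (i :: l).Nodup := by
          rw [List.nodup_cons] at hnd ⊢
          exact ⟨fun h => hnd.1 (List.mem_cons_of_mem _ h), (List.nodup_cons.1 hnd.2).2⟩
        have hai : a ∉ (i :: l).toFinset := by
          rw [List.mem_toFinset]
          intro h
          rcases List.mem_cons.1 h with h | h
          · rw [List.nodup_cons] at hnd
            exact hnd.1 (by rw [h]; exact List.mem_cons_self)
          · exact (List.nodup_cons.1 (List.nodup_cons.1 hnd).2).1 h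
        have h1 := ih hnd'
        have h2 : (fun x : ℕ → G => word K x [a]) ∈ Op K G {a} :=
          subset_span ⟨[a], List.nodup_singleton a, rfl, rfl⟩
        have h3 := op_mul {a} (i :: l).toFinset (Finset.disjoint_singleton_left.2 hai) _ _ h2 h1
        have h4 := op_mul (i :: l).toFinset {a} (Finset.disjoint_singleton_right.2 hai) _ _ h1 h2
        have hs1 : {a} ∪ (i :: l).toFinset = (i :: a :: l).toFinset := by
          ext b
          simp only [Finset.mem_union, Finset.mem_singleton, List.mem_toFinset, List.mem_cons]
          tauto
        have hs2 : (i :: l).toFinset ∪ {a} = (i :: a :: l).toFinset := by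
          rw [Finset.union_comm, hs1]
        rw [hs1] at h3
        rw [hs2] at h4
        have h5 : (fun x : ℕ → G => LieAlgebra.ad K G (word K x (a :: l) (x i))) =
            (fun x => word K x [a] * LieAlgebra.ad K G (word K x l (x i))) -
            fun x => LieAlgebra.ad K G (word K x l (x i)) * word K x [a] := by
          funext x
          have h6 : word K x (a :: l) (x i) = ⁅x a, word K x l (x i)⁆ := by
            unfold word
            rw [List.map_cons, List.prod_cons, Module.End.mul_apply, LieAlgebra.ad_apply]
          have h7 : word K x [a] = LieAlgebra.ad K G (x a) := by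
            unfold word
            rw [List.map_cons, List.map_nil, List.prod_cons, List.prod_nil, mul_one]
          rw [Pi.sub_apply, h6, h7]
          refine LinearMap.ext fun z => ?_
          rw [LinearMap.sub_apply, Module.End.mul_apply, Module.End.mul_apply,
            LieAlgebra.ad_apply, LieAlgebra.ad_apply, LieAlgebra.ad_apply, LieAlgebra.ad_apply,
            LieAlgebra.ad_apply, lie_lie]
        rw [h5]
        exact sub_mem h3 h4
    rw [← hS]
    exact key l hn
  · have : (fun x : ℕ → G => LieAlgebra.ad K G ((0 : (ℕ → G) → G) x)) = 0 := by
      funext x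
      rw [Pi.zero_apply, map_zero]
      rfl
    rw [this]
    exact zero_mem _
  · intro a b _ _ ha hb
    have : (fun x : ℕ → G => LieAlgebra.ad K G ((a + b) x)) =
        (fun x => LieAlgebra.ad K G (a x)) + fun x => LieAlgebra.ad K G (b x) := by
      funext x
      rw [Pi.add_apply, map_add, Pi.add_apply]
    rw [this]
    exact add_mem ha hb
  · intro c a _ ha
    have : (fun x : ℕ → G => LieAlgebra.ad K G ((c • a) x)) =
        c • (fun x => LieAlgebra.ad K G (a x)) := by
      funext x
      rw [Pi.smul_apply, map_smul, Pi.smul_apply]
    rw [this]
    exact Submodule.smul_mem _ _ ha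

end Pool.Agent.ZLM
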