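import Pool.Agent.ZLM.Defs
import Pool.Agent.ZLM.M_op_congr

set_option autoImplicit false

namespace Pool.Agent.ZLM

open Submodule

universe u v



/-
PROOF. Let t be as in EvL. Let x be Deep V t, m > t, z in V m. x' = Function.update x i z is Deep V t, w x' = w x by op_congr (i is not in S) and x' i = z. So w x z = 0.
-/
theorem op_ind {K : Type u} [Field K] {G : Type v} [LieRing G] [LieAlgebra K G]
    {V : ℕ → Submodule K G} (S : Finset ℕ) (i : ℕ) (hi : i ∉ S)
    (w : (ℕ → G) → Module.End K G) (hw : w ∈ Op K G S) (h : (fun x => w x (x i)) ∈ EvL V) :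
    w ∈ EvO V := by
  obtain ⟨t, ht⟩ := h
  refine ⟨t, fun x hx m hm z hz => ?_⟩
  have hdeep : Deep V t (Function.update x i z) := by
    intro j
    by_cases hj : j = i
    · subst hj
      exact ⟨m, hm, by rw [Function.update_self]; exact hz⟩
    · obtain ⟨m', hm', h'⟩ := hx j
      exact ⟨m', hm', by rw [Function.update_of_ne hj]; exact h'⟩
  have h1 := ht _ hdeep
  have h2 : w (Function.update x i z) = w x := op_congr S w hw _ _ fun j hj => by
    rw [Function.update_of_ne]
    rintro rfl
    exact hi hj
  simp only [h2, Function.update_self] at h1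
  exact h1

end Pool.Agent.ZLM
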