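import Pool.Agent.ZLM.Defs

set_option autoImplicit false

namespace Pool.Agent.ZLM

open Submodule

universe u v

/-
PROOF. span_induction; generator: w = word x l with l.toFinset = S: i :: l is Nodup and (i :: l).toFinset = insert i S.
-/
theorem op_law {K : Type u} [Field K] {G : Type v} [LieRing G] [LieAlgebra K G] (S : Finset ℕ) (i : ℕ) (hi : i ∉ S)
    (w : (ℕ → G) → Module.End K G) (hw : w ∈ Op K G S) :
    (fun x => w x (x i)) ∈ Law K G (insert i S) := by
  induction hw using Submodule.span_induction with
  | mem f hf =>
    obtain ⟨l, hl, hlS, rfl⟩ := hf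
    refine Submodule.subset_span ⟨i, l, ?_, ?_, rfl⟩
    · rw [List.nodup_cons]
      refine ⟨fun h => hi ?_, hl⟩
      rw [← hlS, List.mem_toFinset]
      exact h
    · rw [List.toFinset_cons, hlS]
  | zero => exact Submodule.zero_mem _
  | add f g _ _ hf hg => exact Submodule.add_mem _ hf hg
  | smul c f _ hf => exact Submodule.smul_mem _ c hf

end Pool.Agent.ZLM
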