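import Pool.Agent.ZLM.Defs
import Pool.Agent.ZLM.M_cn_sel
import Pool.Agent.ZLM.M_law_ad
import Pool.Agent.ZLM.M_op_ind
import Pool.Agent.ZLM.M_op_law
import Pool.Agent.ZLM.M_op_mul

set_option autoImplicit false

namespace Pool.Agent.ZLM

open Submodule

universe u v



theorem cn_dim_finite {K : Type u} [Field K] {G : Type v} [LieRing G] [LieAlgebra K G]
    (T : Finset ℕ) : Module.Finite K (Op K G T) := by
  classical
  have hfin : {f : (ℕ → G) → Module.End K G | ∃ l : List ℕ, l.Nodup ∧ l.toFinset = T ∧
      f = fun x => word K x l}.Finite := by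
    refine Set.Finite.subset ((T.toList.permutations.toFinset.finite_toSet).image
      (fun (l : List ℕ) => (fun x : ℕ → G => word K x l))) ?_
    rintro f ⟨l, hl, hT, rfl⟩
    refine ⟨l, ?_, rfl⟩
    rw [Finset.mem_coe, List.mem_toFinset, List.mem_permutations]
    refine List.perm_of_nodup_nodup_toFinset_eq hl T.nodup_toList ?_
    rw [hT, Finset.toList_toFinset]
  exact Module.Finite.span_of_finite K hfin

theorem cn_dim_basis {K : Type u} [Field K] {G : Type v} [LieRing G] [LieAlgebra K G]
    (V : ℕ → Submodule K G) (T : Finset ℕ) :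
    ∃ w : ℕ → (ℕ → G) → Module.End K G, (∀ a, w a ∈ Op K G T) ∧
      ∀ c : ℕ → K, ∑ a ∈ Finset.range (dimOp V T), c a • w a ∈ EvO V →
        ∀ a, a < dimOp V T → c a = 0 := by
  classical
  have := cn_dim_finite (K := K) (G := G) T
  have : Module.Finite K ((Op K G T).map (EvO V).mkQ) := Module.Finite.map _ _
  let b : Module.Basis (Fin (dimOp V T)) K
    ((Op K G T).map (EvO V).mkQ) := Module.finBasis K _
  have h1 : ∀ i, ∃ w ∈ Op K G T, (EvO V).mkQ w = (b i : _ ⧸ EvO V) := fun i => (b i).2
  choose w hw hwb using h1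
  refine ⟨fun a => if h : a < dimOp V T then w ⟨a, h⟩ else 0, ?_, ?_⟩
  · intro a
    by_cases h : a < dimOp V T
    · simp only [dif_pos h]
      exact hw _
    · simp only [dif_neg h]
      exact Submodule.zero_mem _
  · intro c hc a ha
    have h2 : (∑ i : Fin (dimOp V T), c i • b i) = 0 := by
      apply Subtype.ext
      rw [← Submodule.coe_subtype, map_sum]
      have h3 := (Submodule.Quotient.mk_eq_zero (EvO V)).2 hc
      rw [← Submodule.mkQ_apply, map_sum] at h3
      have h4 : ∑ a ∈ Finset.range (dimOp V T), (EvO V).mkQ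
          (c a • (if h : a < dimOp V T then w ⟨a, h⟩ else 0)) =
          ∑ i : Fin (dimOp V T), c i • (b i : _ ⧸ EvO V) := by
        rw [Finset.sum_range]
        refine Finset.sum_congr rfl fun i _ => ?_
        rw [dif_pos i.2, map_smul]
        congr 1
        exact hwb _
      rw [h4] at h3
      simpa using h3
    have h5 := Fintype.linearIndependent_iff.1 b.linearIndependent (fun i => c i) h2 ⟨a, ha⟩
    exact h5


/-
PROOF. For every nonempty I let r I = dimOp V (I.erase (e I)) and choose w I a in Op K G (I.erase (e I)), a < r I, whose images under (EvO V).mkQ form a basis of (Op ..).map mkQ (finite dimensional: Op is spanned by finitely many words); r ∅ = 0. P I a = fun x => w I a x (x (e I)) in Law K G I (op_law, insert_erase). Independence: if sum c a • P I a is in EvL V then by op_ind (i = e I, the operator sum c a • w I a in Op (I.erase (e I))) sum c a • w I a is in EvO V, so c = 0. By law_ad and op_mul the functions f(I,a,b) = fun x => ad (P I a x) * ad (P (S \ I) b x) are in Op K G S (I ⊆ S.erase m nonempty,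 S \ I contains m). By cn_sel and hG their images in the quotient are linearly independent, as a family indexed by (I, a, b), I in (S.erase m).powerset.erase ∅, a < r I, b < r (S \ I). So their number is at most finrank ((Op K G S).map mkQ) = dimOp V S (LinearIndependent.fintype_card_le_finrank for the family in the finite dimensional submodule). (For I = ∅ the range (r ∅) is empty.)
-/
theorem cn_dim {K : Type u} [Field K] {G : Type v} [LieRing G] [LieAlgebra K G]
    {V : ℕ → Submodule K G} (hV : Gr V) (hG : ¬ G2 V) (e : Finset ℕ → ℕ)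
    (he : ∀ I : Finset ℕ, I.Nonempty → e I ∈ I) (S : Finset ℕ) (m : ℕ) (hm : m ∈ S) :
    ∑ I ∈ (S.erase m).powerset.erase ∅,
      dimOp V (I.erase (e I)) * dimOp V ((S \ I).erase (e (S \ I))) ≤ dimOp V S := by
  classical
  -- the chosen operators
  choose w hw hwind using fun I : Finset ℕ => cn_dim_basis (K := K) V (I.erase (e I))
  let r : Finset ℕ → ℕ := fun I => if I.Nonempty then dimOp V (I.erase (e I)) else 0
  have hr : ∀ I : Finset ℕ, I.Nonempty → r I = dimOp V (I.erase (e I)) := fun I hI => by
    simp only [r, if_pos hI]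
  have hr0 : r ∅ = 0 := by simp [r]
  let P : Finset ℕ → ℕ → (ℕ → G) → G := fun I a x => w I a x (x (e I))
  have hP : ∀ I a, a < r I → P I a ∈ Law K G I := by
    intro I a ha
    by_cases hI : I.Nonempty
    · have h1 := op_law (I.erase (e I)) (e I) (Finset.notMem_erase _ _) (w I a) (hw I a)
      rw [Finset.insert_erase (he I hI)] at h1
      exact h1
    · simp only [r, if_neg hI] at ha
      exact absurd ha (Nat.not_lt_zero _)
  have hind : ∀ (I : Finset ℕ) (c : ℕ → K), ∑ a ∈ Finset.range (r I), c a • P I a ∈ EvL V →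
      ∀ a, a < r I → c a = 0 := by
    intro I c hc a ha
    by_cases hI : I.Nonempty
    · rw [hr I hI] at hc ha
      refine hwind I c ?_ a ha
      refine op_ind (I.erase (e I)) (e I) (Finset.notMem_erase _ _) _
        (Submodule.sum_mem _ fun b _ => Submodule.smul_mem _ _ (hw I b)) ?_
      have h2 : (fun x : ℕ → G => (∑ a ∈ Finset.range (dimOp V (I.erase (e I))),
          c a • w I a) x (x (e I))) =
          ∑ a ∈ Finset.range (dimOp V (I.erase (e I))), c a • P I a := by
        funext x
        simp only [P, Finset.sum_apply, Pi.smul_apply, LinearMap.sum_apply, LinearMap.smul_apply]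
      rw [h2]
      exact hc
    · simp only [r, if_neg hI] at ha
      exact absurd ha (Nat.not_lt_zero _)
  -- the products
  let f : (Σ _ : Finset ℕ, ℕ × ℕ) → (ℕ → G) → Module.End K G := fun t x =>
    LieAlgebra.ad K G (P t.1 t.2.1 x) * LieAlgebra.ad K G (P (S \ t.1) t.2.2 x)
  let J : Finset (Σ _ : Finset ℕ, ℕ × ℕ) := ((S.erase m).powerset.erase ∅).sigma
    fun I => Finset.range (r I) ×ˢ Finset.range (r (S \ I))
  have hJ : ∀ t ∈ J, f t ∈ Op K G S := by
    intro t ht
    rw [Finset.mem_sigma, Finset.mem_erase, Finset.mem_powerset, Finset.mem_product,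
      Finset.mem_range, Finset.mem_range] at ht
    obtain ⟨⟨h1, h2⟩, h3, h4⟩ := ht
    have h5 := op_mul t.1 (S \ t.1) Finset.disjoint_sdiff _ _
      (law_ad _ _ (hP t.1 t.2.1 h3)) (law_ad _ _ (hP (S \ t.1) t.2.2 h4))
    rw [Finset.union_sdiff_of_subset (h2.trans (Finset.erase_subset _ _))] at h5
    exact h5
  have := cn_dim_finite (K := K) (G := G) S
  have : Module.Finite K ((Op K G S).map (EvO V).mkQ) := Module.Finite.map _ _
  let φ : J → ((Op K G S).map (EvO V).mkQ) := fun t =>
    ⟨(EvO V).mkQ (f t.1), Submodule.mem_map_of_mem (hJ t.1 t.2)⟩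
  have hφ : LinearIndependent K φ := by
    rw [Fintype.linearIndependent_iff]
    intro g hg
    let c : Finset ℕ → ℕ → ℕ → K := fun I a b =>
      if h : (⟨I, (a, b)⟩ : Σ _ : Finset ℕ, ℕ × ℕ) ∈ J then g ⟨_, h⟩ else 0
    have hgc : ∀ t : J, g t = c t.1.1 t.1.2.1 t.1.2.2 := by
      rintro ⟨⟨I, a, b⟩, ht⟩
      simp only [c]
      rw [dif_pos ht]
    have h1 : (EvO V).mkQ (∑ t ∈ J, c t.1 t.2.1 t.2.2 • f t) = 0 := by
      have h2 := congrArg (fun z : ((Op K G S).map (EvO V).mkQ) => (z : _ ⧸ EvO V)) hg
      simp only [Submodule.coe_sum, Submodule.coe_smul, Submodule.coe_zero] at h2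
      rw [← h2, map_sum, ← Finset.sum_coe_sort J]
      refine Finset.sum_congr rfl fun t _ => ?_
      rw [map_smul, hgc t]
    rw [Submodule.mkQ_apply, Submodule.Quotient.mk_eq_zero, Finset.sum_sigma] at h1
    let F : Finset ℕ → (ℕ → G) → Module.End K G := fun I => ∑ a ∈ Finset.range (r I),
        ∑ b ∈ Finset.range (r (S \ I)), c I a b • (fun x : ℕ → G =>
          LieAlgebra.ad K G (P I a x) * LieAlgebra.ad K G (P (S \ I) b x))
    have hF0 : F ∅ = 0 := by
      simp only [F, hr0, Finset.range_zero, Finset.sum_empty]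
    have h3 : ∑ I ∈ (S.erase m).powerset, F I ∈ EvO V := by
      rw [← Finset.sum_erase _ hF0]
      · have h4 : ∀ I ∈ (S.erase m).powerset.erase ∅,
            ∑ s ∈ Finset.range (r I) ×ˢ Finset.range (r (S \ I)), c I s.1 s.2 • f ⟨I, s⟩ =
            F I := by
          intro I _
          rw [Finset.sum_product]
        rw [← Finset.sum_congr rfl h4]
        exact h1
    rintro t
    by_contra hne
    refine hG (cn_sel hV P r hP hind S m hm c h3 ?_)
    have ht := t.2
    rw [Finset.mem_sigma, Finset.mem_erase, Finset.mem_product,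
      Finset.mem_range, Finset.mem_range] at ht
    exact ⟨t.1.1, ht.1.2, t.1.2.1, ht.2.1, t.1.2.2, ht.2.2, by rw [← hgc t]; exact hne⟩
  have hcard := hφ.fintype_card_le_finrank
  rw [Fintype.card_coe, Finset.card_sigma] at hcard
  refine le_trans (le_of_eq (Finset.sum_congr rfl fun I hI => ?_)) hcard
  rw [Finset.mem_erase, Finset.mem_powerset] at hI
  rw [Finset.card_product, Finset.card_range, Finset.card_range,
    hr I (Finset.nonempty_iff_ne_empty.2 hI.1), hr (S \ I) ⟨m, Finset.mem_sdiff.2 ⟨hm, fun h =>
      Finset.notMem_erase m S (hI.2 h)⟩⟩]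

end Pool.Agent.ZLM
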