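import Pool.Agent.ZLM.Defs

set_option autoImplicit false

namespace Pool.Agent.ZLM

theorem dn_succ_succ (k N : ℕ) :
    dn (k + 1) (N + 1) = ∑ i : Fin (N + 1), N.choose i * dn (k + 1) i * dn k (N - i) := by
  rw [dn]

theorem dn_bound_real (k : ℕ) : ∀ R : ℝ, 0 < R → ∃ C : ℝ, 0 ≤ C ∧ ∀ N : ℕ,
    (dn k N : ℝ) * R ^ N / N.factorial ≤ C := by
  induction k with
  | zero =>
    intro R hR
    refine ⟨1, zero_le_one, fun N => ?_⟩
    cases N with
    | zero => simp [dn]
    | succ N => simp [dn]
  | succ k ih =>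
    intro R hR
    obtain ⟨C', hC', h'⟩ := ih (2 * R) (by positivity)
    set e : ℕ → ℝ := fun N => (dn (k + 1) N : ℝ) * R ^ N / N.factorial with he
    have he0 : ∀ N, 0 ≤ e N := fun N => by rw [he]; positivity
    have hg : ∀ j, (dn k j : ℝ) * R ^ j / j.factorial ≤ C' * (1 / 2) ^ j := by
      intro j
      have h1 := h' j
      rw [mul_pow] at h1
      have h2 : (dn k j : ℝ) * R ^ j / j.factorial =
          ((dn k j : ℝ) * (2 ^ j * R ^ j) / j.factorial) * (1 / 2) ^ j := by
        rw [one_div, inv_pow]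
        field_simp
      rw [h2]
      exact mul_le_mul_of_nonneg_right h1 (by positivity)
    have hrec : ∀ N : ℕ, ((N : ℝ) + 1) * e (N + 1) =
        R * ∑ i : Fin (N + 1), e i * ((dn k (N - i) : ℝ) * R ^ (N - i) / (N - i).factorial) := by
      intro N
      rw [he]
      simp only
      rw [dn_succ_succ, Nat.factorial_succ]
      push_cast
      rw [Finset.mul_sum, Finset.sum_mul, Finset.sum_div, Finset.mul_sum]
      refine Finset.sum_congr rfl fun i _ => ?_
      have hi : (i : ℕ) ≤ N := Nat.lt_succ_iff.1 i.2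
      rw [Nat.cast_choose ℝ hi]
      have h3 : R ^ (N + 1) = R * (R ^ (i : ℕ) * R ^ (N - i)) := by
        rw [← pow_add, Nat.add_sub_cancel' hi, pow_succ]
        ring
      rw [h3]
      have h4 : (N.factorial : ℝ) ≠ 0 := by positivity
      have h5 : ((i : ℕ).factorial : ℝ) ≠ 0 := by positivity
      have h6 : ((N - i : ℕ).factorial : ℝ) ≠ 0 := by positivity
      have h7 : ((N : ℝ) + 1) ≠ 0 := by positivity
      field_simp
    obtain ⟨n0, hn0⟩ : ∃ n0 : ℕ, R * (C' * 2) ≤ n0 := exists_nat_ge _
    -- the bound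
    refine ⟨∑ i ∈ Finset.range (n0 + 1), e i, Finset.sum_nonneg fun i _ => he0 i, ?_⟩
    intro N
    induction N using Nat.strong_induction_on with
    | _ N ihN =>
      rcases Nat.lt_or_ge n0 N with hN | hN
      · obtain ⟨N, rfl⟩ : ∃ N', N = N' + 1 := ⟨N - 1, by omega⟩
        set C := ∑ i ∈ Finset.range (n0 + 1), e i with hC
        have hC0 : 0 ≤ C := Finset.sum_nonneg fun i _ => he0 i
        have h8 : ((N : ℝ) + 1) * e (N + 1) ≤ ((N : ℝ) + 1) * C := by
          rw [hrec]
          have h9 : ∑ i : Fin (N + 1),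
              e i * ((dn k (N - i) : ℝ) * R ^ (N - i) / (N - i).factorial) ≤
              ∑ i : Fin (N + 1), C * (C' * (1 / 2) ^ (N - i)) := by
            refine Finset.sum_le_sum fun i _ => ?_
            exact mul_le_mul (ihN i i.2) (hg _) (by positivity) hC0
          have h10 : ∑ i : Fin (N + 1), C * (C' * (1 / 2 : ℝ) ^ (N - i)) ≤ C * (C' * 2) := by
            rw [← Finset.mul_sum, ← Finset.mul_sum]
            refine mul_le_mul_of_nonneg_left (mul_le_mul_of_nonneg_left ?_ hC') hC0
            rw [Fin.sum_univ_eq_sum_range (fun i => (1 / 2 : ℝ) ^ (N - i)) (N + 1)]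
            have h14 := Finset.sum_range_reflect (fun i => (1 / 2 : ℝ) ^ i) (N + 1)
            rw [Nat.add_sub_cancel] at h14
            rw [h14]
            exact sum_geometric_two_le (N + 1)
          calc R * ∑ i : Fin (N + 1),
              e i * ((dn k (N - i) : ℝ) * R ^ (N - i) / (N - i).factorial)
              ≤ R * (C * (C' * 2)) := mul_le_mul_of_nonneg_left (h9.trans h10) hR.le
            _ = (R * (C' * 2)) * C := by ring
            _ ≤ ((N : ℝ) + 1) * C := by
              refine mul_le_mul_of_nonneg_right ?_ hC0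
              have h12 : (n0 : ℝ) ≤ (N : ℝ) + 1 := by exact_mod_cast hN.le
              linarith
        have h13 : (0 : ℝ) < (N : ℝ) + 1 := by positivity
        exact le_of_mul_le_mul_left h8 h13
      · exact Finset.single_le_sum (f := e) (fun i _ => he0 i)
          (Finset.mem_range.2 (Nat.lt_succ_of_le hN))

/-- the numbers `dn k N` are smaller than `N ! / R ^ N` up to a constant, for every `R` -/
theorem dn_bound (k R : ℕ) (hR : 0 < R) :
    ∃ C : ℕ, ∀ N, dn k N * R ^ N ≤ C * N.factorial := by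
  obtain ⟨C, hC, h⟩ := dn_bound_real k R (by exact_mod_cast hR)
  obtain ⟨n, hn⟩ := exists_nat_ge C
  refine ⟨n, fun N => ?_⟩
  have h1 := (h N).trans hn
  rw [div_le_iff₀ (by positivity)] at h1
  exact_mod_cast h1

end Pool.Agent.ZLM
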