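import Pool.Agent.ZLM.Defs
import Pool.Agent.ZLM.DnBound

set_option autoImplicit false

namespace Pool.Agent.ZLM

open Submodule

universe u v



private theorem cn_num2_sum (n : ℕ) : 2 * ∑ i ∈ Finset.Icc 1 n, (n + 1 - i) = n * (n + 1) := by
  induction n with
  | zero => simp
  | succ n ih =>
    rw [Finset.sum_Icc_succ_top (by omega)]
    have h : ∑ i ∈ Finset.Icc 1 n, (n + 1 + 1 - i) = ∑ i ∈ Finset.Icc 1 n, (n + 1 - i) + n := by
      have h2 : ∑ i ∈ Finset.Icc 1 n, (n + 1 + 1 - i) = ∑ i ∈ Finset.Icc 1 n, ((n + 1 - i) + 1) := by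
        refine Finset.sum_congr rfl fun i hi => ?_
        rw [Finset.mem_Icc] at hi
        omega
      rw [h2, Finset.sum_add_distrib]
      simp
    rw [h]
    have h3 : n + 1 + 1 - (n + 1) = 1 := by omega
    rw [h3]
    nlinarith [ih]

private theorem cn_num2_a (α : ℕ → ℕ) (h0 : 1 ≤ α 0) (h1 : 1 ≤ α 1)
    (h : ∀ N, 2 ≤ N → ∑ i ∈ Finset.Icc 1 (N - 1), (N - 1).choose i * α (i - 1) * α (N - 1 - i) ≤ α N) :
    ∀ N, (N + 1).factorial ≤ 4 ^ (N + 1) * α N := by
  intro N
  induction N using Nat.strong_induction_on with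
  | _ N ih =>
    rcases Nat.lt_or_ge N 3 with hN | hN
    · interval_cases N
      · simp [Nat.factorial]
        omega
      · simp [Nat.factorial]
        omega
      · have := h 2 le_rfl
        simp at this
        have h2 : 1 ≤ α 0 * α 0 := Nat.mul_le_mul h0 h0
        simp [Nat.factorial]
        omega
    · have key : ∀ i ∈ Finset.Icc 1 (N - 1), (N - 1).factorial * (N - i) ≤
          4 ^ N * ((N - 1).choose i * α (i - 1) * α (N - 1 - i)) := by
        intro i hi
        rw [Finset.mem_Icc] at hi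
        have a1 := ih (i - 1) (by omega)
        have a2 := ih (N - 1 - i) (by omega)
        have e1 : i - 1 + 1 = i := by omega
        have e2 : N - 1 - i + 1 = N - i := by omega
        rw [e1] at a1
        rw [e2] at a2
        have e3 : (N - 1).choose i * i.factorial * (N - 1 - i).factorial = (N - 1).factorial :=
          Nat.choose_mul_factorial_mul_factorial (by omega)
        have e4 : (N - i).factorial = (N - i) * (N - 1 - i).factorial := by
          rw [← e2, Nat.factorial_succ]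
        have e5 : 4 ^ N = 4 ^ i * 4 ^ (N - i) := by
          rw [← pow_add]
          congr 1
          omega
        calc (N - 1).factorial * (N - i) = (N - 1).choose i * (i.factorial * (N - i).factorial) := by
              rw [← e3, e4]
              ring
          _ ≤ (N - 1).choose i * ((4 ^ i * α (i - 1)) * (4 ^ (N - i) * α (N - 1 - i))) :=
              Nat.mul_le_mul_left _ (Nat.mul_le_mul a1 a2)
          _ = _ := by
              rw [e5]
              ring
      have h3 := Finset.sum_le_sum key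
      rw [← Finset.mul_sum, ← Finset.mul_sum] at h3
      have h4 := h3.trans (Nat.mul_le_mul_left (4 ^ N) (h N (by omega)))
      have h5 := cn_num2_sum (N - 1)
      have e6 : N - 1 + 1 = N := by omega
      rw [e6] at h5
      obtain ⟨m, rfl⟩ : ∃ m, N = m + 3 := ⟨N - 3, by omega⟩
      have e7 : m + 3 - 1 = m + 2 := by omega
      rw [e7] at h4 h5
      obtain ⟨S, hS⟩ : ∃ S, S = ∑ i ∈ Finset.Icc 1 (m + 2), (m + 3 - i) := ⟨_, rfl⟩
      rw [← hS] at h4 h5
      have e8 : (m + 3 + 1).factorial = (m + 4) * ((m + 3) * (m + 2).factorial) := by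
        rw [Nat.factorial_succ, Nat.factorial_succ]
      rw [e8, pow_succ]
      have hf : 0 < (m + 2).factorial := Nat.factorial_pos _
      calc (m + 4) * ((m + 3) * (m + 2).factorial) ≤ 2 * ((m + 2) * (m + 3)) * (m + 2).factorial := by
            nlinarith [Nat.mul_le_mul_right ((m + 2).factorial * (m + 3)) (by omega : m + 4 ≤ 2 * (m + 2))]
        _ = 4 * ((m + 2).factorial * S) := by
            rw [← h5]
            ring
        _ ≤ 4 * (4 ^ (m + 3) * α (m + 3)) := Nat.mul_le_mul_left _ h4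
        _ = _ := by ring

/-
PROOF. (a) (N + 1)! <= 4^(N+1) * α N for all N, by strong induction. N = 0, 1: h0, h1. N = 2: h gives α 2 >= α 0 * α 0 >= 1 and 3! <= 64. N >= 3: for 1 <= i <= N - 1: i! <= 4^i α (i-1) and (N-i)! <= 4^(N-i) α (N-1-i), so 4^N α N >= sum_i choose (N-1) i * i! * (N-i)! = sum_i (N-1)! * (N-i) = (N-1)! * N (N-1)/2 = N! (N-1)/2, and 4 * N! (N-1)/2 = N! (2N - 2) >= N! (N+1). (choose (N-1) i * i! * (N-1-i)! = (N-1)!, (N-i)! = (N-i) (N-1-i)!.)
(b) dn_bound with R = 4: dn k N * 4^N <= C * N!. So (N+1)! <= 4 * 4^N * α N <= 4 * C * N!, i.e. N + 1 <= 4 C for all N: contradiction for N = 4 C.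
-/
theorem cn_num2 (α : ℕ → ℕ) (h0 : 1 ≤ α 0) (h1 : 1 ≤ α 1)
    (h : ∀ N, 2 ≤ N → ∑ i ∈ Finset.Icc 1 (N - 1), (N - 1).choose i * α (i - 1) * α (N - 1 - i) ≤ α N)
    (k : ℕ) (hk : ∀ N, α N ≤ dn k N) : False := by
  obtain ⟨C, hC⟩ := dn_bound k 4 (by omega)
  have h2 := cn_num2_a α h0 h1 h (4 * C)
  have h3 := hC (4 * C)
  have h4 : (4 * C + 1).factorial ≤ 4 * C * (4 * C).factorial := by
    calc (4 * C + 1).factorial ≤ 4 ^ (4 * C + 1) * α (4 * C) := h2
      _ ≤ 4 ^ (4 * C + 1) * dn k (4 * C) := Nat.mul_le_mul_left _ (hk _)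
      _ = 4 * (dn k (4 * C) * 4 ^ (4 * C)) := by ring
      _ ≤ 4 * (C * (4 * C).factorial) := Nat.mul_le_mul_left _ h3
      _ = _ := by ring
  rw [Nat.factorial_succ] at h4
  have h5 := Nat.le_of_mul_le_mul_right h4 (Nat.factorial_pos _)
  omega

end Pool.Agent.ZLM
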