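import Pool.Agent.ZLM.Defs

set_option autoImplicit false

namespace Pool.Agent.ZLM

open Submodule

universe u v

private theorem cn_card_left {k : ℕ} {u w : List ℕ} (h : Ch k u) : Ch k (u ++ w) := by
  obtain ⟨p, q, m, t, h1, h2, h3⟩ := h
  exact ⟨p, q ++ w, m, t, by rw [h1, List.append_assoc], h2, h3⟩

private theorem cn_card_right {k m : ℕ} {u v : List ℕ} (hm : ∀ a ∈ v, a < m) (h : Ch k v) :
    Ch (k + 1) (u ++ m :: v) := by
  obtain ⟨p, q, ms, t, h1, h2, h3⟩ := h
  have hmem : ∀ i, ms i ∈ v := by
    intro i
    rw [h1]
    simp only [List.mem_append, List.mem_flatten, List.mem_ofFn]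
    left; right
    exact ⟨ms i :: t i, ⟨i, rfl⟩, List.mem_cons_self⟩
  refine ⟨u, q, Fin.cons m ms, Fin.cons p t, ?_, ?_, ?_⟩
  · rw [List.ofFn_succ]
    simp only [Fin.cons_zero, Fin.cons_succ, List.flatten_cons]
    rw [h1]
    simp
  · intro i
    refine Fin.cases ?_ (fun i => ?_) i
    · intro a ha
      rw [Fin.cons_zero] at ha ⊢
      apply hm
      rw [h1]
      simp [ha]
    · rw [Fin.cons_succ, Fin.cons_succ]
      exact h2 i
  · intro i j
    refine Fin.cases ?_ (fun i => ?_) i
    · refine Fin.cases (fun h => absurd h (lt_irrefl _)) (fun j _ => ?_) j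
      rw [Fin.cons_zero, Fin.cons_succ]
      exact hm _ (hmem j)
    · refine Fin.cases (fun h => absurd h (by simp)) (fun j h => ?_) j
      rw [Fin.cons_succ, Fin.cons_succ]
      exact h3 i j (Fin.succ_lt_succ_iff.1 h)

theorem cn_card (k : ℕ) (S : Finset ℕ) : ∃ T : Finset (List ℕ), T.card ≤ dn k S.card ∧
    ∀ l : List ℕ, l.Nodup → l.toFinset = S → ¬ Ch (k + 1) l → l ∈ T := by
  classical
  have hempty : ∀ k : ℕ, ∃ T : Finset (List ℕ), T.card ≤ dn k (∅ : Finset ℕ).card ∧
      ∀ l : List ℕ, l.Nodup → l.toFinset = ∅ → ¬ Ch (k + 1) l → l ∈ T := by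
    intro k
    refine ⟨{[]}, ?_, fun l _ h _ => ?_⟩
    · rw [Finset.card_empty, Finset.card_singleton, dn]
    · rw [List.toFinset_eq_empty_iff] at h
      rw [h, Finset.mem_singleton]
  induction k generalizing S with
  | zero =>
    rcases S.eq_empty_or_nonempty with rfl | hS
    · exact hempty 0
    · refine ⟨∅, by simp, fun l _ h h1 => ?_⟩
      exfalso
      cases l with
      | nil =>
        rw [List.toFinset_nil] at h
        exact hS.ne_empty h.symm
      | cons a l =>
        apply h1
        refine ⟨[], l, fun _ => a, fun _ => [], ?_, ?_, ?_⟩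
        · simp
        · intro i a ha
          simp at ha
        · intro i j hij
          exact absurd hij (by have := i.2; have := j.2; simp [Fin.lt_def])
  | succ k ih =>
    obtain ⟨N, hN⟩ : ∃ N, N = S.card := ⟨_, rfl⟩
    induction N using Nat.strong_induction_on generalizing S with
    | _ N ihN =>
      rcases S.eq_empty_or_nonempty with rfl | hS
      · exact hempty (k + 1)
      · obtain ⟨m, hm⟩ : ∃ m, m = S.max' hS := ⟨_, rfl⟩
        have hmS : m ∈ S := by rw [hm]; exact S.max'_mem hS
        have hlt : ∀ a ∈ S.erase m, a < m := by
          intro a ha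
          obtain ⟨h1, h2⟩ := Finset.mem_erase.1 ha
          refine lt_of_le_of_ne ?_ h1
          rw [hm]
          exact S.le_max' a h2
        have hcard : (S.erase m).card + 1 = S.card := Finset.card_erase_add_one hmS
        have h1 : ∀ I ∈ (S.erase m).powerset, ∃ T : Finset (List ℕ), T.card ≤ dn (k + 1) I.card ∧
            ∀ l : List ℕ, l.Nodup → l.toFinset = I → ¬ Ch (k + 1 + 1) l → l ∈ T := by
          intro I hI
          have h2 := Finset.card_le_card (Finset.mem_powerset.1 hI)
          exact ihN I.card (by omega) I rfl
        choose! T1 hT1 hT1' using h1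
        choose T0 hT0 hT0' using ih
        refine ⟨(S.erase m).powerset.biUnion fun I => (T1 I ×ˢ T0 ((S.erase m) \ I)).image
          fun p => p.1 ++ m :: p.2, ?_, ?_⟩
        · refine Finset.card_biUnion_le.trans ?_
          have h2 : ∀ I ∈ (S.erase m).powerset, ((T1 I ×ˢ T0 ((S.erase m) \ I)).image
              fun p => p.1 ++ m :: p.2).card ≤ dn (k + 1) I.card * dn k ((S.erase m).card - I.card) := by
            intro I hI
            refine Finset.card_image_le.trans ?_
            rw [Finset.card_product]
            refine Nat.mul_le_mul (hT1 I hI) ?_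
            have h3 := hT0 ((S.erase m) \ I)
            rwa [Finset.card_sdiff_of_subset (Finset.mem_powerset.1 hI)] at h3
          refine (Finset.sum_le_sum h2).trans (le_of_eq ?_)
          rw [Finset.sum_powerset_apply_card (fun i => dn (k + 1) i * dn k ((S.erase m).card - i)), ← hcard, dn,
            Finset.sum_range]
          refine Finset.sum_congr rfl fun i _ => ?_
          rw [smul_eq_mul, mul_assoc]
        · intro l hl hlS hch
          have hml : m ∈ l := by
            rw [← List.mem_toFinset, hlS]
            exact hmS
          obtain ⟨u, v, rfl⟩ := List.append_of_mem hml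
          rw [List.nodup_append] at hl
          obtain ⟨hu, hv, huv⟩ := hl
          rw [List.nodup_cons] at hv
          obtain ⟨hmv, hv⟩ := hv
          have hmu : m ∉ u := fun h => huv m h m List.mem_cons_self rfl
          have hU : S.erase m = u.toFinset ∪ v.toFinset := by
            rw [← hlS]
            ext a
            simp only [Finset.mem_erase, List.mem_toFinset, List.mem_append, List.mem_cons, Finset.mem_union]
            constructor
            · rintro ⟨h1, h2 | h2 | h2⟩
              · exact Or.inl h2
              · exact absurd h2 h1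
              · exact Or.inr h2
            · rintro (h2 | h2)
              · exact ⟨fun h => hmu (h ▸ h2), Or.inl h2⟩
              · exact ⟨fun h => hmv (h ▸ h2), Or.inr (Or.inr h2)⟩
          have hI : u.toFinset ∈ (S.erase m).powerset := by
            rw [Finset.mem_powerset, hU]
            exact Finset.subset_union_left
          have hJ : v.toFinset = (S.erase m) \ u.toFinset := by
            rw [hU]
            ext a
            simp only [Finset.mem_sdiff, Finset.mem_union, List.mem_toFinset]
            constructor
            · intro h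
              exact ⟨Or.inr h, fun h' => huv a h' a (List.mem_cons_of_mem _ h) rfl⟩
            · rintro ⟨h1 | h1, h2⟩
              · exact absurd h1 h2
              · exact h1
          rw [Finset.mem_biUnion]
          refine ⟨u.toFinset, hI, ?_⟩
          rw [Finset.mem_image]
          refine ⟨(u, v), Finset.mem_product.2 ⟨?_, ?_⟩, rfl⟩
          · exact hT1' _ hI u hu rfl fun h => hch (cn_card_left h)
          · refine hT0' _ v hv hJ fun h => hch (cn_card_right ?_ h)
            intro a ha
            apply hlt
            rw [hU]
            exact Finset.mem_union_right _ (List.mem_toFinset.2 ha)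

end Pool.Agent.ZLM
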