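import Pool.Agent.ZLM.Defs

set_option autoImplicit false

namespace Pool.Agent.ZLM

open Submodule

universe u v

theorem cn_br_app {K : Type u} [Field K] {G : Type v} [LieRing G] [LieAlgebra K G] (x : ℕ → G)
    (l l' : List ℕ) : word K x (l ++ l') = word K x l * word K x l' := by
  unfold word
  rw [List.map_append, List.prod_append]

theorem cn_br_cons {K : Type u} [Field K] {G : Type v} [LieRing G] [LieAlgebra K G] (x : ℕ → G)
    (c : ℕ) (l : List ℕ) : word K x (c :: l) = LieAlgebra.ad K G (x c) * word K x l := by
  unfold word
  rw [List.map_cons, List.prod_cons]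

theorem cn_br_one {K : Type u} [Field K] {G : Type v} [LieRing G] [LieAlgebra K G] (x : ℕ → G)
    (c : ℕ) : word K x [c] = LieAlgebra.ad K G (x c) := by
  unfold word
  rw [List.map_singleton, List.prod_singleton]

/--
The left normed bracket [...[[x_m, x_{t1}], x_{t2}], ...] has leading word m t1 t2 ....
-/
theorem cn_br {K : Type u} [Field K] {G : Type v} [LieRing G] [LieAlgebra K G] (m : ℕ) (t : List ℕ)
    (ht : ∀ a ∈ t, a < m) : ∃ b : (ℕ → G) → G,
      (fun x : ℕ → G => LieAlgebra.ad K G (b x) - word K x (m :: t)) ∈
        span K {f | ∃ (a : ℕ) (l' : List ℕ), a < m ∧ (a :: l').Perm (m :: t) ∧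
          f = fun x => word K x (a :: l')} := by
  induction t using List.reverseRecOn with
  | nil =>
    refine ⟨fun x => x m, ?_⟩
    have h : (fun x : ℕ → G => LieAlgebra.ad K G (x m) - word K x [m]) = 0 := by
      funext x
      rw [cn_br_one, sub_self]
      rfl
    rw [h]
    exact zero_mem _
  | append_singleton t c ih =>
    obtain ⟨b, hb⟩ := ih fun a ha => ht a (List.mem_append_left _ ha)
    have hc : c < m := ht c (List.mem_append_right _ (List.mem_singleton_self c))
    refine ⟨fun x => ⁅b x, x c⁆, ?_⟩
    set e : (ℕ → G) → Module.End K G :=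
      fun x => LieAlgebra.ad K G (b x) - word K x (m :: t) with he
    have h1 : (fun x : ℕ → G => LieAlgebra.ad K G ⁅b x, x c⁆ - word K x (m :: (t ++ [c]))) =
        (fun x => e x * LieAlgebra.ad K G (x c)) - (fun x => word K x (c :: m :: t)) -
          (fun x => LieAlgebra.ad K G (x c) * e x) := by
      funext x
      simp only [Pi.sub_apply, he]
      have h2 : LieAlgebra.ad K G ⁅b x, x c⁆ =
          LieAlgebra.ad K G (b x) * LieAlgebra.ad K G (x c) -
            LieAlgebra.ad K G (x c) * LieAlgebra.ad K G (b x) := by
        ext z
        simp only [LieAlgebra.ad_apply, LinearMap.sub_apply, Module.End.mul_apply]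
        exact lie_lie _ _ _
      rw [h2, ← List.cons_append, cn_br_app, cn_br_one, cn_br_cons x c]
      noncomm_ring
    rw [h1]
    set T : Submodule K ((ℕ → G) → Module.End K G) :=
      span K {f | ∃ (a : ℕ) (l' : List ℕ), a < m ∧ (a :: l').Perm (m :: (t ++ [c])) ∧
        f = fun x => word K x (a :: l')} with hT
    have hperm : ∀ l : List ℕ, l.Perm (m :: t) → (c :: l).Perm (m :: (t ++ [c])) := by
      intro l hl
      rw [← List.cons_append]
      exact (List.Perm.cons c hl).trans (List.perm_append_singleton c (m :: t)).symm
    refine sub_mem (sub_mem ?_ ?_) ?_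
    · -- multiplication from the right
      refine span_induction (p := fun f _ => (fun x => f x * LieAlgebra.ad K G (x c)) ∈ T)
        ?_ ?_ ?_ ?_ hb
      · rintro f ⟨a, l', ha, hl, rfl⟩
        refine subset_span ⟨a, l' ++ [c], ha, ?_, ?_⟩
        · rw [← List.cons_append, ← List.cons_append]
          exact hl.append_right [c]
        · funext x
          rw [← List.cons_append, cn_br_app x (a :: l') [c], cn_br_one]
      · have h0 : (fun x : ℕ → G => (0 : (ℕ → G) → Module.End K G) x * LieAlgebra.ad K G (x c)) =
            0 := by
          funext x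
          simp
        rw [h0]
        exact zero_mem _
      · intro f g _ _ hf hg
        have h0 : (fun x : ℕ → G => (f + g) x * LieAlgebra.ad K G (x c)) =
            (fun x => f x * LieAlgebra.ad K G (x c)) + (fun x => g x * LieAlgebra.ad K G (x c)) := by
          funext x
          simp only [Pi.add_apply, add_mul]
        rw [h0]
        exact add_mem hf hg
      · intro r f _ hf
        have h0 : (fun x : ℕ → G => (r • f) x * LieAlgebra.ad K G (x c)) =
            r • (fun x => f x * LieAlgebra.ad K G (x c)) := by
          funext x
          simp only [Pi.smul_apply, smul_mul_assoc]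
        rw [h0]
        exact smul_mem _ r hf
    · exact subset_span ⟨c, m :: t, hc, hperm _ (List.Perm.refl _), rfl⟩
    · refine span_induction (p := fun f _ => (fun x => LieAlgebra.ad K G (x c) * f x) ∈ T)
        ?_ ?_ ?_ ?_ hb
      · rintro f ⟨a, l', ha, hl, rfl⟩
        refine subset_span ⟨c, a :: l', hc, hperm _ hl, ?_⟩
        funext x
        rw [cn_br_cons x c]
      · have h0 : (fun x : ℕ → G => LieAlgebra.ad K G (x c) * (0 : (ℕ → G) → Module.End K G) x) =
            0 := by
          funext x
          simp
        rw [h0]
        exact zero_mem _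
      · intro f g _ _ hf hg
        have h0 : (fun x : ℕ → G => LieAlgebra.ad K G (x c) * (f + g) x) =
            (fun x => LieAlgebra.ad K G (x c) * f x) + (fun x => LieAlgebra.ad K G (x c) * g x) := by
          funext x
          simp only [Pi.add_apply, mul_add]
        rw [h0]
        exact add_mem hf hg
      · intro r f _ hf
        have h0 : (fun x : ℕ → G => LieAlgebra.ad K G (x c) * (r • f) x) =
            r • (fun x => LieAlgebra.ad K G (x c) * f x) := by
          funext x
          simp only [Pi.smul_apply, mul_smul_comm]
        rw [h0]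
        exact smul_mem _ r hf

end Pool.Agent.ZLM
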