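import Pool.Agent.ZLM.Defs
import Pool.Agent.ZLM.M_cn_br

set_option autoImplicit false

namespace Pool.Agent.ZLM

open Submodule

universe u v



theorem cn_red_word {K : Type u} [Field K] {G : Type v} [LieRing G] [LieAlgebra K G]
    (l l' : List ℕ) : (fun x : ℕ → G => word K x (l ++ l')) =
      (fun x : ℕ → G => word K x l) * (fun x : ℕ → G => word K x l') := by
  funext x
  show word K x (l ++ l') = word K x l * word K x l'
  unfold word
  rw [List.map_append, List.prod_append]

theorem cn_red_app : ∀ (w F : List ℕ), w.length = F.length → w < F → ∀ q q' : List ℕ,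
    w ++ q < F ++ q'
  | [], [], _, h, _, _ => absurd h (lt_irrefl _)
  | [], _ :: _, h, _, _, _ => by simp at h
  | _ :: _, [], h, _, _, _ => by simp at h
  | a :: w, b :: F, h, h1, q, q' => by
    rw [List.cons_append, List.cons_append, List.cons_lt_cons_iff]
    rcases List.cons_lt_cons_iff.1 h1 with h2 | ⟨h2, h3⟩
    · exact Or.inl h2
    · exact Or.inr ⟨h2, cn_red_app w F (by simpa using h) h3 q q'⟩

theorem cn_red_pre (p : List ℕ) {w F : List ℕ} (h : w < F) : p ++ w < p ++ F := by
  induction p with
  | nil => exact h
  | cons a p ih => exact List.cons_lt_cons_iff.2 (Or.inr ⟨rfl, ih⟩)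

theorem cn_red_perm {n : ℕ} (m : Fin n → ℕ) (t : Fin n → List ℕ)
    (hm : ∀ i j, i < j → m j < m i) :
    ∀ (J' J : List (Fin n)), J.Perm J' → J'.Pairwise (· < ·) → J ≠ J' →
      (J.map fun i => m i :: t i).flatten < (J'.map fun i => m i :: t i).flatten
  | [], J, h, _, hne => absurd (List.perm_nil.1 h) hne
  | a' :: s', [], h, _, _ => by simp at h
  | a' :: s', a :: s, h, hs, hne => by
    rw [List.map_cons, List.map_cons, List.flatten_cons, List.flatten_cons]
    by_cases ha : a = a'
    · subst ha
      have h1 : s.Perm s' := h.cons_inv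
      exact cn_red_pre _ (cn_red_perm m t hm s' s h1 (List.pairwise_cons.1 hs).2
        (fun e => hne (by rw [e])))
    · have h1 : a ∈ a' :: s' := h.subset List.mem_cons_self
      have h2 : a ∈ s' := by
        rcases List.mem_cons.1 h1 with h | h
        · exact absurd h ha
        · exact h
      have h3 := hm _ _ ((List.pairwise_cons.1 hs).1 a h2)
      exact List.cons_lt_cons_iff.2 (Or.inl h3)

theorem cn_red_mul {K : Type u} [Field K] {G : Type v} [LieRing G] [LieAlgebra K G]
    {S T U : Set ((ℕ → G) → Module.End K G)} (h : ∀ s ∈ S, ∀ t ∈ T, s * t ∈ U)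
    {a b : (ℕ → G) → Module.End K G} (ha : a ∈ span K S) (hb : b ∈ span K T) :
    a * b ∈ span K U := by
  have h1 := Submodule.mul_mem_mul ha hb
  rw [Submodule.span_mul_span] at h1
  refine Submodule.span_mono ?_ h1
  rintro _ ⟨s, hs, t, ht, rfl⟩
  exact h s hs t ht

theorem cn_red_prod {K : Type u} [Field K] {G : Type v} [LieRing G] [LieAlgebra K G] {n : ℕ}
    (m : Fin n → ℕ) (t : Fin n → List ℕ) (B : Fin n → (ℕ → G) → Module.End K G)
    (hB : ∀ i, B i - (fun x : ℕ → G => word K x (m i :: t i)) ∈
      span K {f | ∃ (a : ℕ) (l' : List ℕ), a < m i ∧ (a :: l').Perm (m i :: t i) ∧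
        f = fun x => word K x (a :: l')}) (J : List (Fin n)) :
    (J.map B).prod - (fun x : ℕ → G => word K x (J.map fun i => m i :: t i).flatten) ∈
      span K {f | ∃ w : List ℕ, w.Perm (J.map fun i => m i :: t i).flatten ∧
        w < (J.map fun i => m i :: t i).flatten ∧ f = fun x : ℕ → G => word K x w} := by
  induction J with
  | nil =>
    have e : (List.map B []).prod - (fun x : ℕ → G =>
        word K x (List.map (fun i => m i :: t i) []).flatten) = 0 := by
      funext x
      show (1 : Module.End K G) - word K x [] = 0
      unfold word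
      rw [List.map_nil, List.prod_nil, sub_self]
    rw [e]
    exact zero_mem _
  | cons j J ih =>
    rw [List.map_cons, List.map_cons, List.prod_cons, List.flatten_cons]
    generalize (J.map fun i => m i :: t i).flatten = F at ih
    generalize (J.map B).prod = P at ih
    have e : B j * P - (fun x : ℕ → G => word K x ((m j :: t j) ++ F)) =
        (fun x : ℕ → G => word K x (m j :: t j)) * (P - (fun x : ℕ → G => word K x F)) +
        (B j - (fun x : ℕ → G => word K x (m j :: t j))) *
          ((P - (fun x : ℕ → G => word K x F)) + (fun x : ℕ → G => word K x F)) := by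
      rw [cn_red_word]
      noncomm_ring
    rw [e]
    refine add_mem ?_ ?_
    · refine cn_red_mul (S := {fun x : ℕ → G => word K x (m j :: t j)}) ?_
        (subset_span rfl) ih
      rintro _ rfl _ ⟨w, hw1, hw2, rfl⟩
      exact ⟨(m j :: t j) ++ w, List.Perm.append_left _ hw1, cn_red_pre _ hw2,
        (cn_red_word _ _).symm⟩
    · refine cn_red_mul (T := {f | ∃ w : List ℕ, w.Perm F ∧ f = fun x : ℕ → G => word K x w}) ?_
        (hB j) (add_mem (Submodule.span_mono ?_ ih) (subset_span ⟨F, List.Perm.refl _, rfl⟩))
      · rintro _ ⟨a, l', ha, hl, rfl⟩ _ ⟨w, hw1, rfl⟩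
        exact ⟨(a :: l') ++ w, List.Perm.append hl hw1,
          List.cons_lt_cons_iff.2 (Or.inl ha), (cn_red_word _ _).symm⟩
      · rintro _ ⟨w, hw1, hw2, rfl⟩
        exact ⟨w, hw1, rfl⟩


/-
A word with a chain of length n is a combination of lexicographically smaller words (< on lists is the lexicographic order).
PROOF. l = p ++ (l_0 ++ ... ++ l_{n-1}) ++ q, l_i = m i :: t i, m 0 > m 1 > ... . Let b_i be as in cn_br for (m i, t i). By hS for the elements b_i x: sum over σ of word x p * (product over i of ad (b_{σ i} x)) * word x q = 0. Replace each ad (b_j x) by word x l_j + e_j x, where e_j is in the span of the words u with u.Perm l_j beginning with a letter < m j. Expanding, every term is a combination of words p ++ (u_{σ 0} ++ ... ++ u_{σ (n-1)}) ++ q with u_j.Perm l_j and (u_j = l_j or head of u_j < m j). Claim: such a word is l if σ = 1 and all u_j = l_j, and otherwise it is < l. Proof of the claim: if σ ≠ 1 or some u_j ≠ l_j, let i be the first index with σ i ≠ i or u_i ≠ l_i. Before i the words agree. At i: if σ i ≠ i then σ i > i (the smaller ones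 are used), head u_{σ i} <= m (σ i) < m i; if σ i = i and u_i ≠ l_i then head u_i < m i. So at the same position the letter is smaller. (The identity term word x l occurs exactly once, for σ = 1.) So word x l = - (the rest). It is convenient to prove by induction on n a lemma: for lists U = [u_0, ..., u_{n-1}] and L = [l_0, ...]: the product of the ad (b_{σ i} x) over i equals (if σ = 1 then word of flatten L else 0) + an element of the span of the words w.Perm (flatten L), w < flatten L; and List lexicographic order is compatible with p ++ _ and _ ++ q for words of equal length.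
-/
theorem cn_red {K : Type u} [Field K] {G : Type v} [LieRing G] [LieAlgebra K G] (n : ℕ)
    (hn : 1 ≤ n) (hS : SymId K G n) (l : List ℕ) (hc : Ch n l) :
    (fun x : ℕ → G => word K x l) ∈
      span K {f | ∃ l' : List ℕ, l'.Perm l ∧ l' < l ∧ f = fun x => word K x l'} := by
  classical
  obtain ⟨p, q, m, t, hl, ht, hm⟩ := hc
  have hb : ∀ i, ∃ b : (ℕ → G) → G,
      (fun x : ℕ → G => LieAlgebra.ad K G (b x) - word K x (m i :: t i)) ∈
        span K {f | ∃ (a : ℕ) (l' : List ℕ), a < m i ∧ (a :: l').Perm (m i :: t i) ∧
          f = fun x => word K x (a :: l')} := fun i => cn_br (m i) (t i) (ht i)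
  choose b hb using hb
  have hmap : ∀ σ : Equiv.Perm (Fin n), ((List.ofFn σ).map fun i => m i :: t i) =
      List.ofFn fun i => m (σ i) :: t (σ i) := by
    intro σ
    rw [List.map_ofFn]
    rfl
  have hid : ((List.ofFn (id : Fin n → Fin n)).map fun i => m i :: t i) =
      List.ofFn fun i => m i :: t i := by
    rw [List.map_ofFn]
    rfl
  obtain ⟨T, hT⟩ : ∃ T : Submodule K ((ℕ → G) → Module.End K G), T = span K
    {f | ∃ l' : List ℕ, l'.Perm l ∧ l' < l ∧ f = fun x : ℕ → G => word K x l'} := ⟨_, rfl⟩
  rw [← hT]
  obtain ⟨F, hF⟩ : ∃ F : List ℕ, F = (List.ofFn fun i => m i :: t i).flatten := ⟨_, rfl⟩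
  rw [← hF] at hl
  -- words with a smaller middle part
  have hin : ∀ w : List ℕ, w.Perm F → w < F →
      (fun x : ℕ → G => word K x p) * (fun x : ℕ → G => word K x w) *
        (fun x : ℕ → G => word K x q) ∈ T := by
    intro w hw1 hw2
    rw [← cn_red_word, ← cn_red_word, hT, hl]
    refine subset_span ⟨p ++ w ++ q, ?_, ?_, rfl⟩
    · exact List.Perm.append_right _ (List.Perm.append_left _ hw1)
    · rw [List.append_assoc, List.append_assoc]
      exact cn_red_pre _ (cn_red_app w F hw1.length_eq hw2 q q)
  have hσ : ∀ σ : Equiv.Perm (Fin n),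
      (fun x : ℕ → G => word K x p) *
        ((List.ofFn σ).map fun i => (fun x : ℕ → G => LieAlgebra.ad K G (b i x))).prod *
        (fun x : ℕ → G => word K x q) -
        (if σ = 1 then (fun x : ℕ → G => word K x l) else 0) ∈ T := by
    intro σ
    have hperm : (List.ofFn σ).Perm (List.ofFn (id : Fin n → Fin n)) :=
      Equiv.Perm.ofFn_comp_perm σ id
    have hpermF : ((List.ofFn σ).map fun i => m i :: t i).flatten.Perm F := by
      rw [hF, ← hid]
      exact (hperm.map _).flatten
    have hprod := cn_red_prod m t (fun i => (fun x : ℕ → G => LieAlgebra.ad K G (b i x))) hb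
      (List.ofFn σ)
    generalize ((List.ofFn σ).map fun i => (fun x : ℕ → G => LieAlgebra.ad K G (b i x))).prod = P
      at hprod
    have hle : ∀ f ∈ span K {f | ∃ w : List ℕ,
        w.Perm ((List.ofFn σ).map fun i => m i :: t i).flatten ∧
        w < ((List.ofFn σ).map fun i => m i :: t i).flatten ∧ f = fun x : ℕ → G => word K x w},
        ((List.ofFn σ).map fun i => m i :: t i).flatten = F ∨
          ((List.ofFn σ).map fun i => m i :: t i).flatten < F →
        (fun x : ℕ → G => word K x p) * f * (fun x : ℕ → G => word K x q) ∈ T := by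
      intro f hf hle
      induction hf using Submodule.span_induction with
      | mem f hf =>
        obtain ⟨w, hw1, hw2, rfl⟩ := hf
        refine hin w (hw1.trans hpermF) ?_
        rcases hle with h | h
        · rw [h] at hw2
          exact hw2
        · exact hw2.trans h
      | zero => rw [mul_zero, zero_mul]; exact zero_mem _
      | add f g _ _ hf hg => rw [mul_add, add_mul]; exact add_mem hf hg
      | smul c f _ hf =>
        rw [mul_smul_comm, smul_mul_assoc]
        exact T.smul_mem c hf
    by_cases h1 : σ = 1
    · subst h1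
      rw [if_pos rfl]
      have hFe : ((List.ofFn (1 : Equiv.Perm (Fin n))).map fun i => m i :: t i).flatten = F := by
        rw [hF, ← hid]
        rfl
      have h2 := hle _ hprod (Or.inl hFe)
      rw [hFe, mul_sub, sub_mul, ← cn_red_word, ← cn_red_word, ← hl] at h2
      exact h2
    · rw [if_neg h1, sub_zero]
      have hlt : ((List.ofFn σ).map fun i => m i :: t i).flatten < F := by
        rw [hF, ← hid]
        refine cn_red_perm m t hm _ _ hperm ?_ ?_
        · rw [List.pairwise_ofFn]
          exact fun i j h => h
        · intro h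
          apply h1
          have h2 := List.ofFn_injective h
          exact Equiv.ext fun i => congrFun h2 i
      have h2 := hle _ hprod (Or.inr hlt)
      have h3 := hin _ hpermF hlt
      rw [mul_sub, sub_mul] at h2
      have h4 := add_mem h2 h3
      rwa [sub_add_cancel] at h4
  have hsum := Submodule.sum_mem T fun σ (_ : σ ∈ (Finset.univ : Finset (Equiv.Perm (Fin n)))) =>
    hσ σ
  rw [Finset.sum_sub_distrib, Finset.sum_ite_eq' Finset.univ (1 : Equiv.Perm (Fin n)),
    if_pos (Finset.mem_univ _), ← Finset.sum_mul, ← Finset.mul_sum] at hsum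
  have hzero : ∑ σ : Equiv.Perm (Fin n),
      ((List.ofFn σ).map fun i => (fun x : ℕ → G => LieAlgebra.ad K G (b i x))).prod = 0 := by
    funext x
    rw [Finset.sum_apply]
    refine Eq.trans ?_ (hS fun i => b i x)
    refine Finset.sum_congr rfl fun σ _ => ?_
    have h1 : ∀ J : List (Fin n), (J.map fun i =>
        (fun x : ℕ → G => LieAlgebra.ad K G (b i x))).prod x =
        (J.map fun i => LieAlgebra.ad K G (b i x)).prod := by
      intro J
      induction J with
      | nil => rfl
      | cons a J ih =>
        rw [List.map_cons, List.map_cons, List.prod_cons, List.prod_cons, Pi.mul_apply, ih]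
    rw [h1, List.map_ofFn]
    rfl
  rw [hzero, mul_zero, zero_mul, zero_sub] at hsum
  exact (Submodule.neg_mem_iff T).1 hsum

end Pool.Agent.ZLM
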