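import Pool.Agent.ZLM.Defs
import Pool.Agent.ZLM.M_cn_red

set_option autoImplicit false

namespace Pool.Agent.ZLM

open Submodule

universe u v



/-
PROOF. It is enough that every word l with l.Nodup, l.toFinset = S is in the right hand side. The set of these lists is finite (permutations of S.sort or of one of them) and linearly ordered by <; well-founded induction on l with respect to < on this finite set (e.g. Finite.wellFounded / Set.Finite.wellFoundedOn, or induct on the number of smaller permutations). If not Ch n l: in the set. If Ch n l: cn_red and induction (a permutation of l is Nodup with the same toFinset).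
-/
theorem cn_span {K : Type u} [Field K] {G : Type v} [LieRing G] [LieAlgebra K G] (n : ℕ)
    (hn : 1 ≤ n) (hS : SymId K G n) (S : Finset ℕ) :
    Op K G S ≤ span K {f | ∃ l : List ℕ, l.Nodup ∧ l.toFinset = S ∧ ¬ Ch n l ∧
      f = fun x => word K x l} := by
  classical
  have hfin : {l : List ℕ | l.Nodup ∧ l.toFinset = S}.Finite := by
    refine (S.toList.permutations.toFinset.finite_toSet).subset ?_
    rintro l ⟨hl, hlS⟩
    rw [Finset.mem_coe, List.mem_toFinset, List.mem_permutations]
    refine List.perm_of_nodup_nodup_toFinset_eq hl S.nodup_toList ?_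
    rw [hlS, Finset.toList_toFinset]
  have hwf : {l : List ℕ | l.Nodup ∧ l.toFinset = S}.WellFoundedOn (· < ·) := hfin.wellFoundedOn
  refine span_le.2 ?_
  rintro f ⟨l, hl, hlS, rfl⟩
  have hmem : l ∈ {l : List ℕ | l.Nodup ∧ l.toFinset = S} := ⟨hl, hlS⟩
  refine hwf.induction (P := fun l => (fun x : ℕ → G => word K x l) ∈
    span K {f | ∃ l : List ℕ, l.Nodup ∧ l.toFinset = S ∧ ¬ Ch n l ∧ f = fun x => word K x l})
    hmem ?_
  rintro l₁ ⟨hl₁, hlS₁⟩ ih
  by_cases hc : Ch n l₁
  · refine (span_le.2 ?_ : span K {f | ∃ l' : List ℕ, l'.Perm l₁ ∧ l' < l₁ ∧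
      f = fun x : ℕ → G => word K x l'} ≤ _) (cn_red n hn hS l₁ hc)
    rintro f ⟨l', hp, hlt, rfl⟩
    refine ih l' ⟨hp.nodup_iff.2 hl₁, ?_⟩ hlt
    rw [← hlS₁]
    exact List.toFinset_eq_of_perm _ _ hp
  · exact subset_span ⟨l₁, hl₁, hlS₁, hc, rfl⟩

end Pool.Agent.ZLM
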