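import Pool.Agent.ZLM.Defs
import Pool.Agent.ZLM.M_cn_card
import Pool.Agent.ZLM.M_cn_span

set_option autoImplicit false

namespace Pool.Agent.ZLM

open Submodule

universe u v



/-
PROOF. By cn_span (n = k + 1) and cn_card, (Op K G S).map (EvO V).mkQ is contained in the span of the image of the finite set T (or of the subset of the l in T with the three properties), so its finrank is at most T.card <= dn k S.card (finrank_span_finset_le_card, Submodule.finrank_mono with finite dimensionality of the span of a finite set).
-/
theorem cn_up {K : Type u} [Field K] {G : Type v} [LieRing G] [LieAlgebra K G]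
    {V : ℕ → Submodule K G} (k : ℕ) (hS : SymId K G (k + 1)) (S : Finset ℕ) :
    dimOp V S ≤ dn k S.card := by
  classical
  obtain ⟨T, hT, hT'⟩ := cn_card k S
  have h1 := cn_span (K := K) (G := G) (k + 1) (by omega) hS S
  set W : Finset (((ℕ → G) → Module.End K G) ⧸ (EvO V)) :=
    T.image (fun l => (EvO V).mkQ (fun x => word K x l)) with hW
  have h2 : (Op K G S).map (EvO V).mkQ ≤ span K (W : Set (((ℕ → G) → Module.End K G) ⧸ (EvO V))) := by
    refine (Submodule.map_mono h1).trans ?_
    rw [Submodule.map_span]
    refine Submodule.span_le.2 ?_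
    rintro _ ⟨f, ⟨l, h3, h4, h5, rfl⟩, rfl⟩
    refine Submodule.subset_span ?_
    rw [hW, Finset.coe_image]
    exact ⟨l, hT' l h3 h4 h5, rfl⟩
  have h3 : Module.finrank K (span K (W : Set (((ℕ → G) → Module.End K G) ⧸ (EvO V)))) ≤ W.card :=
    finrank_span_finset_le_card W
  have h4 : W.card ≤ T.card := Finset.card_image_le
  have : FiniteDimensional K (span K (W : Set (((ℕ → G) → Module.End K G) ⧸ (EvO V)))) :=
    FiniteDimensional.span_finset K W
  have h5 := Submodule.finrank_mono h2
  unfold dimOp
  omega

end Pool.Agent.ZLM
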