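import Pool.Agent.ZLM.Defs
import Pool.Agent.ZLM.M_cn_a1
import Pool.Agent.ZLM.M_cn_dim
import Pool.Agent.ZLM.M_cn_num2
import Pool.Agent.ZLM.M_cn_up

set_option autoImplicit false

namespace Pool.Agent.ZLM

open Submodule

universe u v



/-- the least dimension for a given number of letters -/
noncomputable def cn_main_al {K : Type u} [Field K] {G : Type v} [LieRing G] [LieAlgebra K G]
    (V : ℕ → Submodule K G) (N : ℕ) : ℕ :=
  sInf {d | ∃ S : Finset ℕ, S.card = N ∧ dimOp V S = d}

theorem cn_main_le {K : Type u} [Field K] {G : Type v} [LieRing G] [LieAlgebra K G]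
    (V : ℕ → Submodule K G) (S : Finset ℕ) {N : ℕ} (h : S.card = N) :
    cn_main_al V N ≤ dimOp V S :=
  Nat.sInf_le ⟨S, h, rfl⟩

theorem cn_main_ex {K : Type u} [Field K] {G : Type v} [LieRing G] [LieAlgebra K G]
    (V : ℕ → Submodule K G) (N : ℕ) : ∃ S : Finset ℕ, S.card = N ∧ dimOp V S = cn_main_al V N :=
  Nat.sInf_mem (s := {d | ∃ S : Finset ℕ, S.card = N ∧ dimOp V S = d})
    ⟨_, Finset.range N, Finset.card_range N, rfl⟩

theorem cn_main_sum (T : Finset ℕ) (f : ℕ → ℕ) :
    ∑ I ∈ T.powerset.erase ∅, f I.card =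
      ∑ i ∈ Finset.Icc 1 T.card, (T.card).choose i * f i := by
  classical
  have h1 := Finset.sum_powerset_apply_card f (x := T)
  have h2 := Finset.add_sum_erase T.powerset (fun I => f I.card) (Finset.empty_mem_powerset T)
  have h3 := Finset.add_sum_erase (Finset.range (T.card + 1))
    (fun i => (T.card).choose i • f i) (a := 0) (Finset.mem_range.2 (Nat.succ_pos _))
  have h4 : (Finset.range (T.card + 1)).erase 0 = Finset.Icc 1 T.card := by
    ext i
    rw [Finset.mem_erase, Finset.mem_range, Finset.mem_Icc]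
    omega
  rw [h4] at h3
  simp only [smul_eq_mul, Nat.choose_zero_right, one_mul, Finset.card_empty] at h1 h2 h3
  omega

/--
PROOF. Suppose not. α N = the least dimension over the letter sets with N elements. cn_dim and the
sum over the subsets by cardinality give the recursion of cn_num2, and cn_up the upper bound.
-/
theorem cn_main {K : Type u} [Field K] {G : Type v} [LieRing G] [LieAlgebra K G]
    {V : ℕ → Submodule K G} (hV : JustInf V) (M : Set G) (n : ℕ) (hM : NilSet V M n)
    (k : ℕ) (hS : SymId K G (k + 1)) : G2 V := by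
  classical
  by_contra hG
  obtain ⟨ha0, ha1⟩ := cn_a1 hV M n hM
  refine cn_num2 (cn_main_al V) ?_ ?_ ?_ k ?_
  · obtain ⟨S, h1, h2⟩ := cn_main_ex V 0
    rw [Finset.card_eq_zero] at h1
    rw [← h2, h1]
    exact ha0
  · obtain ⟨S, h1, h2⟩ := cn_main_ex V 1
    rw [Finset.card_eq_one] at h1
    obtain ⟨a, rfl⟩ := h1
    rw [← h2]
    exact ha1 a
  · intro N hN
    obtain ⟨S, h1, h2⟩ := cn_main_ex V N
    obtain ⟨m, hm⟩ : S.Nonempty := by
      rw [← Finset.card_pos]; omega
    set e : Finset ℕ → ℕ := fun I => if h : I.Nonempty then h.choose else 0 with he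
    have he' : ∀ I : Finset ℕ, I.Nonempty → e I ∈ I := by
      intro I hI
      simp only [he, dif_pos hI]
      exact hI.choose_spec
    have h3 := cn_dim hV.toGr hG e he' S m hm
    rw [h2] at h3
    refine le_trans ?_ h3
    have hT : (S.erase m).card = N - 1 := by rw [Finset.card_erase_of_mem hm, h1]
    have h4 := cn_main_sum (S.erase m) (fun i => cn_main_al V (i - 1) * cn_main_al V (N - 1 - i))
    rw [hT] at h4
    have h5 : ∑ i ∈ Finset.Icc 1 (N - 1),
        (N - 1).choose i * cn_main_al V (i - 1) * cn_main_al V (N - 1 - i) =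
        ∑ i ∈ Finset.Icc 1 (N - 1),
        (N - 1).choose i * (cn_main_al V (i - 1) * cn_main_al V (N - 1 - i)) :=
      Finset.sum_congr rfl fun i _ => mul_assoc _ _ _
    rw [h5, ← h4]
    refine Finset.sum_le_sum fun I hI => ?_
    rw [Finset.mem_erase, Finset.mem_powerset] at hI
    obtain ⟨hI0, hIS⟩ := hI
    have hI1 : I.Nonempty := Finset.nonempty_iff_ne_empty.2 hI0
    have hIS' : I ⊆ S := hIS.trans (Finset.erase_subset _ _)
    have hmI : m ∉ I := fun h => (Finset.mem_erase.1 (hIS h)).1 rfl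
    have hJ : (S \ I).Nonempty := ⟨m, Finset.mem_sdiff.2 ⟨hm, hmI⟩⟩
    refine Nat.mul_le_mul (cn_main_le V _ ?_) (cn_main_le V _ ?_)
    · rw [Finset.card_erase_of_mem (he' I hI1)]
    · rw [Finset.card_erase_of_mem (he' _ hJ), Finset.card_sdiff_of_subset hIS', h1]
      omega
  · intro N
    obtain ⟨S, h1, h2⟩ := cn_main_ex V N
    rw [← h2, ← h1]
    exact cn_up k hS S

end Pool.Agent.ZLM
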