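import Pool.Agent.ZLM.GB

set_option autoImplicit false

namespace Pool.Agent.ZLM

open Submodule

universe u v

theorem lem_s' {K : Type u} [Field K] {G : Type v} [LieRing G] [LieAlgebra K G]
    {V : ℕ → Submodule K G} [IsAlgClosed K] (hV : JustInf V) (s : ℕ)
    (N : ℕ → Submodule K (Fin s → G)) (hN : ∀ m, ∀ f ∈ N m, ∀ i, f i ∈ V m)
    (hc : ∀ m, ∀ x ∈ V 1, ∀ f ∈ N m, (fun i => ⁅x, f i⁆) ∈ N (m + 1))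
    (hf : ∀ c : Fin s → K, c ≠ 0 → ∀ m₀, ∃ m, m₀ ≤ m ∧ ∃ f ∈ N m, ∑ i, c i • f i ≠ 0) :
    ∃ m₀, ∀ m, m₀ ≤ m → ∀ f : Fin s → G, (∀ i, f i ∈ V m) → f ∈ N m := by
  refine lem_s0 hV s N hN hc fun c hc0 ⟨m₀, h⟩ => ?_
  obtain ⟨m, hm, f, hf1, hf2⟩ := hf c hc0 m₀
  exact hf2 (h m hm f hf1)

end Pool.Agent.ZLM
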