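import Pool.Agent.ZLM.Defs

set_option autoImplicit false

namespace Pool.Agent.ZLM

open Submodule

universe u v

/-
PROOF. Let X = sum ad P ad Q + sum ad F ad F' + ad h; X is in Z V t. The operator in the claim is X * ad y - ad y * X (as ad [a, y] = ad a * ad y - ad y * ad a; for each product: PQ y - y PQ = P (Q y - y Q) + (P y - y P) Q; finite sums). For v in V m, m > t: [y, v] in V (M + m), M + m > t: X [y, v] = 0, and X v = 0. So the value is 0.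
-/
theorem gr1 {K : Type u} [Field K] {G : Type v} [LieRing G] [LieAlgebra K G]
    {V : ℕ → Submodule K G} (hV : Gr V) (t : ℕ) (s r : ℕ) (P Q : Fin s → G) (F F' : Fin r → G)
    (h y : G) (M : ℕ) (hy : y ∈ V M)
    (hrel : ∀ m, t < m → ∀ z ∈ V m,
      ∑ k, ⁅P k, ⁅Q k, z⁆⁆ + ∑ j, ⁅F j, ⁅F' j, z⁆⁆ + ⁅h, z⁆ = 0) :
    ∑ k, (LieAlgebra.ad K G (P k) * LieAlgebra.ad K G ⁅Q k, y⁆ +
        LieAlgebra.ad K G ⁅P k, y⁆ * LieAlgebra.ad K G (Q k)) +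
      ∑ j, (LieAlgebra.ad K G (F j) * LieAlgebra.ad K G ⁅F' j, y⁆ +
        LieAlgebra.ad K G ⁅F j, y⁆ * LieAlgebra.ad K G (F' j)) +
      LieAlgebra.ad K G ⁅h, y⁆ ∈ Z V t := by
  intro m hm v hv
  have h1 := hrel m hm v hv
  have h2 := hrel (M + m) (by omega) ⁅y, v⁆ (hV.lie hy hv)
  have key : ∀ a b : G, ⁅a, ⁅⁅b, y⁆, v⁆⁆ + ⁅⁅a, y⁆, ⁅b, v⁆⁆ = ⁅a, ⁅b, ⁅y, v⁆⁆⁆ - ⁅y, ⁅a, ⁅b, v⁆⁆⁆ := by
    intro a b
    rw [lie_lie b y v, lie_lie a y ⁅b, v⁆, lie_sub]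
    abel
  simp only [LinearMap.add_apply, LinearMap.sum_apply, Module.End.mul_apply,
    LieAlgebra.ad_apply]
  simp only [key]
  rw [Finset.sum_sub_distrib, Finset.sum_sub_distrib, ← lie_sum, ← lie_sum, lie_lie h y v]
  have h3 : ⁅y, ∑ k, ⁅P k, ⁅Q k, v⁆⁆ + ∑ j, ⁅F j, ⁅F' j, v⁆⁆ + ⁅h, v⁆⁆ = 0 := by
    rw [h1, lie_zero]
  rw [lie_add, lie_add] at h3
  have h4 : ∀ a b c a' b' c' : G, a + b + c = 0 → a' + b' + c' = 0 →
      a - a' + (b - b') + (c - c') = 0 := by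
    intro a b c a' b' c' e e'
    have : a - a' + (b - b') + (c - c') = (a + b + c) - (a' + b' + c') := by abel
    rw [this, e, e', sub_zero]
  exact h4 _ _ _ _ _ _ h2 h3

end Pool.Agent.ZLM
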