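import Pool.Agent.ZLM.Defs

set_option autoImplicit false

namespace Pool.Agent.ZLM

open Submodule

universe u v

/-
PROOF. First: a generator of Qd. Second: ad l * ad σ = ad σ * ad l + ad [l, σ] (LieHom.map_lie, associative commutator), [l, σ] in V (j + s).
-/
theorem gr2 {K : Type u} [Field K] {G : Type v} [LieRing G] [LieAlgebra K G]
    {V : ℕ → Submodule K G} (hV : Gr V) (τ s j : ℕ) (hs : s ≤ τ) (σ l : G) (hσ : σ ∈ V s)
    (hl : l ∈ V j) : LieAlgebra.ad K G σ * LieAlgebra.ad K G l ∈ Qd V τ (s + j) ∧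
      LieAlgebra.ad K G l * LieAlgebra.ad K G σ ∈ Qd V τ (s + j) ⊔ A K (V (s + j)) := by
  have h1 : LieAlgebra.ad K G σ * LieAlgebra.ad K G l ∈ Qd V τ (s + j) :=
    subset_span ⟨s, j, σ, l, hs, rfl, hσ, hl, rfl⟩
  refine ⟨h1, ?_⟩
  have h2 : LieAlgebra.ad K G l * LieAlgebra.ad K G σ =
      LieAlgebra.ad K G σ * LieAlgebra.ad K G l + LieAlgebra.ad K G ⁅l, σ⁆ := by
    ext z
    have h := lie_lie l σ z
    simp only [LinearMap.add_apply, Module.End.mul_apply, LieAlgebra.ad_apply]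
    rw [h]
    abel
  rw [h2]
  refine add_mem (mem_sup_left h1) (mem_sup_right ⟨⁅l, σ⁆, ?_, rfl⟩)
  have h3 := hV.lie hl hσ
  rwa [add_comm j s] at h3

end Pool.Agent.ZLM
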