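import Pool.Agent.ZLM.Defs

set_option autoImplicit false

namespace Pool.Agent.ZLM

open Submodule

universe u v

/-
PROOF. span_induction; generator: List.map_congr_left.
-/
theorem law_congr {K : Type u} [Field K] {G : Type v} [LieRing G] [LieAlgebra K G] (S : Finset ℕ) (f : (ℕ → G) → G)
    (hf : f ∈ Law K G S) (x y : ℕ → G) (hxy : ∀ i ∈ S, x i = y i) : f x = f y := by
  refine Submodule.span_induction (p := fun f _ => f x = f y) ?_ rfl ?_ ?_ hf
  · rintro f ⟨i, l, hn, hS, rfl⟩
    change (l.map fun i => LieAlgebra.ad K G (x i)).prod (x i) =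
      (l.map fun i => LieAlgebra.ad K G (y i)).prod (y i)
    have h1 : (l.map fun i => LieAlgebra.ad K G (x i)) =
        (l.map fun i => LieAlgebra.ad K G (y i)) := by
      refine List.map_congr_left ?_
      intro j hj
      rw [hxy j (by rw [← hS]; exact List.mem_toFinset.2 (List.mem_cons_of_mem _ hj))]
    rw [h1, hxy i (by rw [← hS]; exact List.mem_toFinset.2 List.mem_cons_self)]
  · intro a b _ _ ha hb
    rw [Pi.add_apply, Pi.add_apply, ha, hb]
  · intro c a _ ha
    rw [Pi.smul_apply, Pi.smul_apply, ha]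

end Pool.Agent.ZLM
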