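import Pool.Agent.ZLM.Defs

set_option autoImplicit false

namespace Pool.Agent.ZLM

open Submodule

universe u v

/-
Multilinear Lie polynomials satisfy the derivation rule.
PROOF. span_induction (both sides are linear in f). Generator f = fun x => word K x l (x i): by induction on l: [y, [x_a, w]] = [[y, x_a], w] + [x_a, [y, w]] (leibniz_lie), where a is not in l and a ≠ i, so that updating x at a does not change w = word K x l (x i) and updating at the other letters does not change x_a. Get: [y, word x (a :: l) (x i)] = word (update x a [y, x a]) (a :: l) (x i) + sum over the letters b of i :: l of [x_a, word (update x b [y, x b]) l (..)]. The sum over S = (a :: i :: l).toFinset splits (Finset.sum_insert).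
-/
private theorem law_der_cons {K : Type u} [Field K] {G : Type v} [LieRing G] [LieAlgebra K G]
    (x : ℕ → G) (a : ℕ) (l : List ℕ) (z : G) : word K x (a :: l) z = ⁅x a, word K x l z⁆ := by
  simp only [word, List.map_cons, List.prod_cons]
  rfl

private theorem law_der_congr {K : Type u} [Field K] {G : Type v} [LieRing G] [LieAlgebra K G]
    (x x' : ℕ → G) (l : List ℕ) (h : ∀ a ∈ l, x a = x' a) : word K x l = word K x' l := by
  simp only [word]
  congr 1
  exact List.map_congr_left fun a ha => by rw [h a ha]

private theorem law_der_word {K : Type u} [Field K] {G : Type v} [LieRing G] [LieAlgebra K G]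
    (x : ℕ → G) (y : G) (i : ℕ) (l : List ℕ) (hnd : (i :: l).Nodup) :
    ⁅y, word K x l (x i)⁆ = ∑ j ∈ (i :: l).toFinset,
      word K (Function.update x j ⁅y, x j⁆) l (Function.update x j ⁅y, x j⁆ i) := by
  induction l with
  | nil =>
    simp [word]
  | cons a l ih =>
    have h1 : i ≠ a := by
      intro h
      rw [h] at hnd
      simp at hnd
    have h2 : i ∉ l := by
      intro h
      have := (List.nodup_cons.1 hnd).1
      exact this (List.mem_cons_of_mem _ h)
    have h3 := (List.nodup_cons.1 hnd).2
    have h4 : a ∉ l := (List.nodup_cons.1 h3).1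
    have h5 : (i :: l).Nodup := List.nodup_cons.2 ⟨h2, (List.nodup_cons.1 h3).2⟩
    have e1 : (i :: a :: l).toFinset = insert a (i :: l).toFinset := by
      ext j
      simp only [List.mem_toFinset, List.mem_cons, Finset.mem_insert]
      tauto
    have h6 : a ∉ (i :: l).toFinset := by
      simp only [List.mem_toFinset, List.mem_cons, not_or]
      exact ⟨fun h => h1 h.symm, h4⟩
    rw [e1, Finset.sum_insert h6, law_der_cons, leibniz_lie, ih h5]
    congr 1
    · rw [law_der_cons, Function.update_self, Function.update_of_ne h1,
        law_der_congr (Function.update x a ⁅y, x a⁆) x l]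
      intro b hb
      rw [Function.update_of_ne]
      rintro rfl
      exact h4 hb
    · rw [lie_sum]
      refine Finset.sum_congr rfl fun j hj => ?_
      rw [law_der_cons]
      have h7 : a ≠ j := by
        rintro rfl
        exact h6 hj
      rw [Function.update_of_ne h7]

theorem law_der {K : Type u} [Field K] {G : Type v} [LieRing G] [LieAlgebra K G] (S : Finset ℕ) (f : (ℕ → G) → G)
    (hf : f ∈ Law K G S) (x : ℕ → G) (y : G) :
    ⁅y, f x⁆ = ∑ i ∈ S, f (Function.update x i ⁅y, x i⁆) := by
  unfold Law at hf
  induction hf using Submodule.span_induction with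
  | mem f h =>
    obtain ⟨i, l, hnd, hS, rfl⟩ := h
    rw [← hS]
    exact law_der_word x y i l hnd
  | zero => simp
  | add f g _ _ ihf ihg =>
    simp only [Pi.add_apply, lie_add, Finset.sum_add_distrib, ihf, ihg]
  | smul c f _ ih =>
    simp only [Pi.smul_apply, lie_smul, ih, Finset.smul_sum]

end Pool.Agent.ZLM
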