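import Pool.Agent.ZLM.Defs
import Pool.Agent.ZLM.LemS
import Pool.Agent.ZLM.M_alpha
import Pool.Agent.ZLM.M_gr1
import Pool.Agent.ZLM.M_gr2
import Pool.Agent.ZLM.M_law_congr
import Pool.Agent.ZLM.M_law_der
import Pool.Agent.ZLM.M_law_hom

set_option autoImplicit false

namespace Pool.Agent.ZLM

open Submodule

universe u v



/-
PROOF. Take the data of G2: S, A₀, s, P, Q, r, F, F', B, B', h, t and k₀ with Q k₀ not in EvL V. J₀ = S \ A₀. s >= 1.
(1) I i = span of the values Q k₀ x, x Deep V t with a degree function d (x j in V (d j), d j > t) and sum over J₀ of d = i. I i <= V i (law_hom); stable under y in V 1 (law_der: [y, Q x] = sum over j in J₀ of Q (update x j [y, x j]), update is Deep with degree d j + 1 at j, sum + 1); nonzero because Q k₀ is not in EvL V. alpha gives c := e with: for m > c, V m is in the span of the [q, y], q in I i, i <= c, y in V j, i + j = m.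
(2) Let c' = max c t. N m = span of the tuples (P k x)_k in Fin s → G, for x Deep V c' with degrees d and sum over A₀ of d = m. By lem_s' (closure by law_der; if c'' ≠ 0 killed N m for all m >= m₀ then sum c''_k • P k would vanish for all x Deep V (max c' m₀) - the total degree over the nonempty set A₀ is > m₀; A₀ is nonempty because Law ∅ = ⊥ and the P's are independent, s >= 1 - so it would be in EvL V, excluded) there is D₁ such that for m >= D₁ all tuples with entries in V m are in N m.
(3) D = max D₁ c'. Let τ >= D, μ in V (τ + 1), l in V j. If j <= c': ad μ * ad l is in Qd V τ (j + τ + 1) ⊔ A by gr2 (second part, s := j <= τ). If j > c': l is in the span of the [q, y] with q in I i, i <= c, y in V j', and q in the span of values; so assume l = [Q k₀ x', y], x' Deep V t, sum over J₀ of the degrees d' = i <= c, y in V j', i + j' = j. Let Y = the target Qd V τ (τ + 1 + j) ⊔ A K (V (τ + 1 + j)) ⊔ Z V t. Claim: for every f in N (τ + 1): sum over k of ad (f k) * ad [Q k x', y] is in Y. Apply the claim to f = Pi.single k₀ μ (lem_s').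 By span_induction it is enough to take f k = P k x with x Deep V c', sum over A₀ of its degrees d = τ + 1. Let x'' be x on A₀ and x' elsewhere (Deep V t, c' >= t; degrees d''); P k x'' = P k x, Q k x'' = Q k x' (law_congr). gr1 for the values at x'' : the sum of ad (P k) * ad [Q k, y] equals minus [sum ad [P k, y] * ad (Q k) + sum (ad F j * ad [F' j, y] + ad [F j, y] * ad F' j) + ad [h, y]] modulo Z V t, where each term is in Qd V τ (τ+1+j) ⊔ A: Q k x'' has degree i <= c <= τ: gr2 second part. F j x'' has degree sum over B j of d''; since A₀ is not contained in B j, some a in A₀ is missing, so the degree is at most (sum over A₀ of d) - d a + (sum over J₀ of d') <= (τ + 1) - (c' + 1) + c <= τ: gr2 first part (ad F * ad [F', y]); the same for F' (second part for ad [F, y] * ad F'). Degrees add up: sum over B j + sum over B' j = sum over S = (τ + 1) + i, plus j'. h x'' in V (sum over S), [h, y] in V (τ + 1 + i + j').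
-/
private theorem gr3_fun {K : Type u} [Field K] {G : Type v} [LieRing G] [LieAlgebra K G]
    {V : ℕ → Submodule K G} {t : ℕ} {x : ℕ → G} (hx : Deep V t x) :
    ∃ d : ℕ → ℕ, ∀ i, t < d i ∧ x i ∈ V (d i) := by
  choose d hd using hx
  exact ⟨d, hd⟩

private theorem gr3_upd {K : Type u} [Field K] {G : Type v} [LieRing G] [LieAlgebra K G]
    {V : ℕ → Submodule K G} (hV : Gr V) {t : ℕ} {x : ℕ → G} {d : ℕ → ℕ}
    (hx : ∀ i, t < d i ∧ x i ∈ V (d i)) {y : G} (hy : y ∈ V 1) (i : ℕ) :
    ∀ j, t < Function.update d i (d i + 1) j ∧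
      Function.update x i ⁅y, x i⁆ j ∈ V (Function.update d i (d i + 1) j) := by
  intro j
  by_cases hj : j = i
  · subst hj
    rw [Function.update_self, Function.update_self, add_comm]
    exact ⟨by have := (hx j).1; omega, hV.lie hy (hx j).2⟩
  · rw [Function.update_of_ne hj, Function.update_of_ne hj]
    exact hx j

private theorem gr3_sum (S : Finset ℕ) (d : ℕ → ℕ) {i : ℕ} (hi : i ∈ S) :
    ∑ j ∈ S, Function.update d i (d i + 1) j = ∑ j ∈ S, d j + 1 := by
  classical
  rw [← Finset.add_sum_erase S _ hi, ← Finset.add_sum_erase S d hi, Function.update_self]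
  have : ∑ j ∈ S.erase i, Function.update d i (d i + 1) j = ∑ j ∈ S.erase i, d j :=
    Finset.sum_congr rfl fun j hj => Function.update_of_ne (Finset.ne_of_mem_erase hj) _ _
  rw [this]
  ring

private theorem gr3_law_empty {K : Type u} [Field K] {G : Type v} [LieRing G] [LieAlgebra K G]
    {f : (ℕ → G) → G} (hf : f ∈ Law K G ∅) : f = 0 := by
  have h : Law K G ∅ ≤ ⊥ := by
    unfold Law
    rw [span_le]
    rintro g ⟨i, l, _, h2, _⟩
    exfalso
    have : i ∈ (i :: l).toFinset := by simp
    rw [h2] at this
    exact absurd this (Finset.notMem_empty _)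
  exact (mem_bot K).1 (h hf)

theorem gr3 {K : Type u} [Field K] {G : Type v} [LieRing G] [LieAlgebra K G]
    {V : ℕ → Submodule K G} [IsAlgClosed K] (hV : JustInf V) (M : Set G) (n : ℕ)
    (hM : NilSet V M n) (hG : G2 V) : Red V := by
  classical
  obtain ⟨S, A₀, s, P, Q, r, F, F', B, B', h, t, hAS, hP, hQ, hind, ⟨k₀, hk₀⟩, hF, hh, hrel⟩ := hG
  have hgr : Gr V := hV.toGr
  -- (1)
  let I : ℕ → Submodule K G := fun i => span K {w | ∃ (x : ℕ → G) (d : ℕ → ℕ),
    (∀ j, t < d j ∧ x j ∈ V (d j)) ∧ ∑ j ∈ S \ A₀, d j = i ∧ w = Q k₀ x}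
  have hI1 : ∀ i, I i ≤ V i := by
    intro i
    refine span_le.2 ?_
    rintro w ⟨x, d, hx, rfl, rfl⟩
    exact law_hom hgr (S \ A₀) (Q k₀) (hQ k₀) x d fun j _ => (hx j).2
  have hI2 : ∀ i, ∀ x ∈ V 1, ∀ y ∈ I i, ⁅x, y⁆ ∈ I (i + 1) := by
    intro i z hz y hy
    induction hy using span_induction with
    | mem w hw =>
      obtain ⟨x, d, hx, rfl, rfl⟩ := hw
      rw [law_der (S \ A₀) (Q k₀) (hQ k₀) x z]
      refine sum_mem fun a ha => subset_span ?_
      exact ⟨_, _, gr3_upd hgr hx hz a, gr3_sum _ d ha, rfl⟩
    | zero => rw [lie_zero]; exact zero_mem _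
    | add u v _ _ hu hv => rw [lie_add]; exact add_mem hu hv
    | smul c u _ hu => rw [lie_smul]; exact smul_mem _ c hu
  have hI3 : ∃ i, I i ≠ ⊥ := by
    by_contra hcon
    push Not at hcon
    refine hk₀ ⟨t, fun x hx => ?_⟩
    obtain ⟨d, hd⟩ := gr3_fun hx
    have h1 : Q k₀ x ∈ I (∑ j ∈ S \ A₀, d j) := subset_span ⟨x, d, hd, rfl, rfl⟩
    rw [hcon] at h1
    exact (mem_bot K).1 h1
  obtain ⟨c, hc⟩ := alpha hV M n hM I hI1 hI2 hI3
  -- (2)
  let c' := max c t
  let N : ℕ → Submodule K (Fin s → G) := fun m => span K {f | ∃ (x : ℕ → G) (d : ℕ → ℕ),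
    (∀ j, c' < d j ∧ x j ∈ V (d j)) ∧ ∑ j ∈ A₀, d j = m ∧ f = fun k => P k x}
  have hN1 : ∀ m, ∀ f ∈ N m, ∀ i, f i ∈ V m := by
    intro m f hf i
    induction hf using span_induction with
    | mem w hw =>
      obtain ⟨x, d, hx, rfl, rfl⟩ := hw
      exact law_hom hgr A₀ (P i) (hP i) x d fun j _ => (hx j).2
    | zero => exact zero_mem _
    | add u v _ _ hu hv => exact add_mem hu hv
    | smul c u _ hu => exact smul_mem _ c hu
  have hN2 : ∀ m, ∀ x ∈ V 1, ∀ f ∈ N m, (fun i => ⁅x, f i⁆) ∈ N (m + 1) := by
    intro m z hz f hf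
    induction hf using span_induction with
    | mem w hw =>
      obtain ⟨x, d, hx, rfl, rfl⟩ := hw
      have h1 : (fun i => ⁅z, P i x⁆) =
          ∑ a ∈ A₀, (fun k => P k (Function.update x a ⁅z, x a⁆)) := by
        funext k
        rw [law_der A₀ (P k) (hP k) x z, Finset.sum_apply]
      rw [h1]
      refine sum_mem fun a ha => subset_span ?_
      exact ⟨_, _, gr3_upd hgr hx hz a, gr3_sum _ d ha, rfl⟩
    | zero =>
      have h1 : (fun i => ⁅z, (0 : Fin s → G) i⁆) = 0 := by
        funext k
        rw [Pi.zero_apply, lie_zero]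
      rw [h1]
      exact zero_mem _
    | add u v _ _ hu hv =>
      have h1 : (fun i => ⁅z, (u + v) i⁆) = (fun i => ⁅z, u i⁆) + fun i => ⁅z, v i⁆ := by
        funext k
        rw [Pi.add_apply, lie_add, Pi.add_apply]
      rw [h1]
      exact add_mem hu hv
    | smul c u _ hu =>
      have h1 : (fun i => ⁅z, (c • u) i⁆) = c • (fun i => ⁅z, u i⁆) := by
        funext k
        rw [Pi.smul_apply, lie_smul, Pi.smul_apply]
      rw [h1]
      exact smul_mem _ c hu
  have hN3 : ∀ c : Fin s → K, c ≠ 0 → ∀ m₀, ∃ m, m₀ ≤ m ∧ ∃ f ∈ N m, ∑ i, c i • f i ≠ 0 := by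
    intro c'' hc'' m₀
    have hA : A₀.Nonempty := by
      rw [Finset.nonempty_iff_ne_empty]
      intro h0
      refine hind c'' hc'' ?_
      have h1 : ∑ k, c'' k • P k = 0 := by
        refine Finset.sum_eq_zero fun k _ => ?_
        have h2 := hP k
        rw [h0] at h2
        rw [gr3_law_empty h2, smul_zero]
      rw [h1]
      exact zero_mem _
    have h3 := hind c'' hc''
    have h4 : ∃ x, Deep V (max c' m₀) x ∧ (∑ k, c'' k • P k) x ≠ 0 := by
      by_contra hcon
      push Not at hcon
      exact h3 ⟨max c' m₀, hcon⟩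
    obtain ⟨x, hx, hx0⟩ := h4
    obtain ⟨d, hd⟩ := gr3_fun hx
    obtain ⟨a, ha⟩ := hA
    refine ⟨∑ j ∈ A₀, d j, ?_, fun k => P k x, subset_span ⟨x, d, fun j =>
      ⟨lt_of_le_of_lt (le_max_left _ _) (hd j).1, (hd j).2⟩, rfl, rfl⟩, ?_⟩
    · have h5 : d a ≤ ∑ j ∈ A₀, d j := Finset.single_le_sum (fun _ _ => Nat.zero_le _) ha
      have h6 := (hd a).1
      have h7 : m₀ ≤ max c' m₀ := le_max_right _ _
      omega
    · intro h0
      apply hx0
      rw [Finset.sum_apply, ← h0]
      rfl
  obtain ⟨D₁, hD₁⟩ := lem_s' hV s N hN1 hN2 hN3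
  -- (3)
  have hcc' : c ≤ c' := le_max_left _ _
  have htc' : t ≤ c' := le_max_right _ _
  refine ⟨t, max D₁ c', fun τ hτ μ hμ j l hl => ?_⟩
  have hτ1 : D₁ ≤ τ := (le_max_left _ _).trans hτ
  have hτ2 : c' ≤ τ := (le_max_right _ _).trans hτ
  set Y : Submodule K (Module.End K G) :=
    Qd V τ (τ + 1 + j) ⊔ A K (V (τ + 1 + j)) ⊔ Z V t with hY
  have hYle : Qd V τ (τ + 1 + j) ⊔ A K (V (τ + 1 + j)) ≤ Y := le_sup_left
  have hYQ : Qd V τ (τ + 1 + j) ≤ Y := le_sup_left.trans hYle
  have hYA : A K (V (τ + 1 + j)) ≤ Y := le_sup_right.trans hYle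
  have hYZ : Z V t ≤ Y := le_sup_right
  by_cases hj : j ≤ c'
  · have h1 := (gr2 hgr τ j (τ + 1) (hj.trans hτ2) l μ hl hμ).2
    rw [add_comm j (τ + 1)] at h1
    exact hYle h1
  · push Not at hj
    have h1 := hc j (lt_of_le_of_lt hcc' hj) l hl
    clear hl
    induction h1 using span_induction with
    | zero => rw [map_zero, mul_zero]; exact zero_mem _
    | add u v _ _ hu hv => rw [map_add, mul_add]; exact add_mem hu hv
    | smul a u _ hu => rw [map_smul, mul_smul_comm]; exact smul_mem _ a hu
    | mem w hw =>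
      obtain ⟨i, j', q, y, hi, hij, hq, hy, rfl⟩ := hw
      induction hq using span_induction with
      | zero => rw [zero_lie, map_zero, mul_zero]; exact zero_mem _
      | add u v _ _ hu hv => rw [add_lie, map_add, mul_add]; exact add_mem hu hv
      | smul a u _ hu => rw [smul_lie, map_smul, mul_smul_comm]; exact smul_mem _ a hu
      | mem w hw =>
        obtain ⟨x', d', hx', hd', rfl⟩ := hw
        have claim : ∀ f ∈ N (τ + 1),
            ∑ k, LieAlgebra.ad K G (f k) * LieAlgebra.ad K G ⁅Q k x', y⁆ ∈ Y := by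
          intro f hf
          induction hf using span_induction with
          | zero =>
            have h2 : ∑ k, LieAlgebra.ad K G ((0 : Fin s → G) k) *
                LieAlgebra.ad K G ⁅Q k x', y⁆ = 0 := by
              refine Finset.sum_eq_zero fun k _ => ?_
              rw [Pi.zero_apply, map_zero, zero_mul]
            rw [h2]
            exact zero_mem _
          | add u v _ _ hu hv =>
            have h2 : ∑ k, LieAlgebra.ad K G ((u + v) k) * LieAlgebra.ad K G ⁅Q k x', y⁆ =
                ∑ k, LieAlgebra.ad K G (u k) * LieAlgebra.ad K G ⁅Q k x', y⁆ +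
                ∑ k, LieAlgebra.ad K G (v k) * LieAlgebra.ad K G ⁅Q k x', y⁆ := by
              rw [← Finset.sum_add_distrib]
              refine Finset.sum_congr rfl fun k _ => ?_
              rw [Pi.add_apply, map_add, add_mul]
            rw [h2]
            exact add_mem hu hv
          | smul a u _ hu =>
            have h2 : ∑ k, LieAlgebra.ad K G ((a • u) k) * LieAlgebra.ad K G ⁅Q k x', y⁆ =
                a • ∑ k, LieAlgebra.ad K G (u k) * LieAlgebra.ad K G ⁅Q k x', y⁆ := by
              rw [Finset.smul_sum]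
              refine Finset.sum_congr rfl fun k _ => ?_
              rw [Pi.smul_apply, map_smul, smul_mul_assoc]
            rw [h2]
            exact smul_mem _ a hu
          | mem f hf =>
            obtain ⟨x, d, hx, hd, rfl⟩ := hf
            let x'' : ℕ → G := fun a => if a ∈ A₀ then x a else x' a
            let d'' : ℕ → ℕ := fun a => if a ∈ A₀ then d a else d' a
            have hx'' : ∀ a, t < d'' a ∧ x'' a ∈ V (d'' a) := by
              intro a
              by_cases ha : a ∈ A₀
              · simp only [x'', d'', if_pos ha]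
                exact ⟨lt_of_le_of_lt htc' (hx a).1, (hx a).2⟩
              · simp only [x'', d'', if_neg ha]
                exact hx' a
            have hdeep : Deep V t x'' := fun a => ⟨d'' a, hx'' a⟩
            have hPx : ∀ k, P k x'' = P k x := fun k =>
              law_congr A₀ (P k) (hP k) _ _ fun a ha => by simp only [x'', if_pos ha]
            have hQx : ∀ k, Q k x'' = Q k x' := fun k =>
              law_congr (S \ A₀) (Q k) (hQ k) _ _ fun a ha => by
                simp only [x'', if_neg (Finset.mem_sdiff.1 ha).2]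
            have hdA : ∑ a ∈ A₀, d'' a = τ + 1 := by
              rw [← hd]
              exact Finset.sum_congr rfl fun a ha => by simp only [d'', if_pos ha]
            have hdJ : ∑ a ∈ S \ A₀, d'' a = i := by
              rw [← hd']
              exact Finset.sum_congr rfl fun a ha => by
                simp only [d'', if_neg (Finset.mem_sdiff.1 ha).2]
            have hdS : ∑ a ∈ S, d'' a = τ + 1 + i := by
              rw [← Finset.sum_sdiff hAS, hdA, hdJ, add_comm]
            have hdeg : ∀ T : Finset ℕ, T ⊆ S → ¬ A₀ ⊆ T → ∑ a ∈ T, d'' a ≤ τ := by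
              intro T hT hAT
              obtain ⟨a, ha, haT⟩ := Finset.not_subset.1 hAT
              have h2 : ∑ b ∈ insert a T, d'' b ≤ ∑ b ∈ S, d'' b :=
                Finset.sum_le_sum_of_subset (Finset.insert_subset (hAS ha) hT)
              rw [Finset.sum_insert haT, hdS] at h2
              have h3 : d'' a = d a := by simp only [d'', if_pos ha]
              have h4 := (hx a).1
              omega
            have hPm : ∀ k, P k x'' ∈ V (τ + 1) := fun k => by
              rw [← hdA]
              exact law_hom hgr A₀ (P k) (hP k) x'' d'' fun a _ => (hx'' a).2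
            have hQm : ∀ k, Q k x'' ∈ V i := fun k => by
              rw [← hdJ]
              exact law_hom hgr (S \ A₀) (Q k) (hQ k) x'' d'' fun a _ => (hx'' a).2
            have hhm : h x'' ∈ V (τ + 1 + i) := by
              rw [← hdS]
              exact hh x'' d'' fun a => (hx'' a).2
            have hg := gr1 hgr t s r (fun k => P k x'') (fun k => Q k x'') (fun j => F j x'')
              (fun j => F' j x'') (h x'') y j' hy (hrel x'' hdeep)
            have e1 : ∀ k, LieAlgebra.ad K G ⁅P k x'', y⁆ * LieAlgebra.ad K G (Q k x'') ∈ Y := by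
              intro k
              have h2 := (gr2 hgr τ i (τ + 1 + j') (by omega) (Q k x'') ⁅P k x'', y⁆ (hQm k)
                (hgr.lie (hPm k) hy)).2
              rw [show i + (τ + 1 + j') = τ + 1 + j by omega] at h2
              exact hYle h2
            have e2 : ∀ k, LieAlgebra.ad K G (F k x'') * LieAlgebra.ad K G ⁅F' k x'', y⁆ +
                LieAlgebra.ad K G ⁅F k x'', y⁆ * LieAlgebra.ad K G (F' k x'') ∈ Y := by
              intro k
              obtain ⟨hF1, hF2, hBS, hdis, hn1, hn2⟩ := hF k
              have hb1 := hdeg (B k) (hBS ▸ Finset.subset_union_left) hn1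
              have hb2 := hdeg (B' k) (hBS ▸ Finset.subset_union_right) hn2
              have hb3 : ∑ a ∈ B k, d'' a + ∑ a ∈ B' k, d'' a = τ + 1 + i := by
                rw [← hdS, ← hBS, Finset.sum_union hdis]
              have hm1 := law_hom hgr (B k) (F k) hF1 x'' d'' fun a _ => (hx'' a).2
              have hm2 := law_hom hgr (B' k) (F' k) hF2 x'' d'' fun a _ => (hx'' a).2
              have h2 := (gr2 hgr τ _ _ hb1 (F k x'') ⁅F' k x'', y⁆ hm1 (hgr.lie hm2 hy)).1
              have h3 := (gr2 hgr τ _ _ hb2 (F' k x'') ⁅F k x'', y⁆ hm2 (hgr.lie hm1 hy)).2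
              rw [show ∑ a ∈ B k, d'' a + (∑ a ∈ B' k, d'' a + j') = τ + 1 + j by omega] at h2
              rw [show ∑ a ∈ B' k, d'' a + (∑ a ∈ B k, d'' a + j') = τ + 1 + j by omega] at h3
              exact add_mem (hYQ h2) (hYle h3)
            have e3 : LieAlgebra.ad K G ⁅h x'', y⁆ ∈ Y := by
              refine hYA ?_
              have h2 := hgr.lie hhm hy
              rw [show τ + 1 + i + j' = τ + 1 + j by omega] at h2
              exact mem_map_of_mem h2
            have e4 : ∑ k, LieAlgebra.ad K G (P k x) * LieAlgebra.ad K G ⁅Q k x', y⁆ =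
                (∑ k, (LieAlgebra.ad K G (P k x'') * LieAlgebra.ad K G ⁅Q k x'', y⁆ +
                  LieAlgebra.ad K G ⁅P k x'', y⁆ * LieAlgebra.ad K G (Q k x'')) +
                ∑ k, (LieAlgebra.ad K G (F k x'') * LieAlgebra.ad K G ⁅F' k x'', y⁆ +
                  LieAlgebra.ad K G ⁅F k x'', y⁆ * LieAlgebra.ad K G (F' k x'')) +
                LieAlgebra.ad K G ⁅h x'', y⁆) -
                ∑ k, LieAlgebra.ad K G ⁅P k x'', y⁆ * LieAlgebra.ad K G (Q k x'') -
                ∑ k, (LieAlgebra.ad K G (F k x'') * LieAlgebra.ad K G ⁅F' k x'', y⁆ +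
                  LieAlgebra.ad K G ⁅F k x'', y⁆ * LieAlgebra.ad K G (F' k x'')) -
                LieAlgebra.ad K G ⁅h x'', y⁆ := by
              rw [Finset.sum_add_distrib]
              simp only [hPx, hQx]
              abel
            rw [e4]
            refine sub_mem (sub_mem (sub_mem (hYZ hg) ?_) ?_) e3
            · exact sum_mem fun k _ => e1 k
            · exact sum_mem fun k _ => e2 k
        have h2 := claim (Pi.single k₀ μ) (hD₁ (τ + 1) (by omega) _ fun k => by
          by_cases hk : k = k₀
          · subst hk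
            rw [Pi.single_eq_same]
            exact hμ
          · rw [Pi.single_eq_of_ne hk]
            exact zero_mem _)
        rw [Finset.sum_eq_single k₀] at h2
        · rw [Pi.single_eq_same] at h2
          exact h2
        · intro k _ hk
          rw [Pi.single_eq_of_ne hk, map_zero, zero_mul]
        · intro h3
          exact absurd (Finset.mem_univ _) h3

end Pool.Agent.ZLM
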