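import Pool.Agent.ZLM.EB
import Pool.Agent.ZLM.FO
import Pool.Agent.ZLM.M_gr3
import Pool.Agent.ZLM.M_cn_main

set_option autoImplicit false

namespace Pool.Agent.ZLM

open Submodule

universe u v

/-- there is no graded just infinite Lie algebra over an algebraically closed field, generated by
its finite dimensional component of degree one, with a spanning set of homogeneous elements closed
under the bracket with `(ad m) ^ n = 0`, which satisfies the linearised Engel identity -/
theorem core_ji {K : Type u} [Field K] {G : Type v} [LieRing G] [LieAlgebra K G]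
    {V : ℕ → Submodule K G} [IsAlgClosed K] (hV : JustInf V) (M : Set G) (n : ℕ)
    (hM : NilSet V M n) (k : ℕ) (hS : SymId K G (k + 1)) : False := by
  obtain ⟨t, hF⟩ := finOver_of_red hV.toGr hM (gr3 hV M n hM (cn_main hV M n hM k hS))
  exact hV.false_of_finOver (hV.dense hM) hF

theorem final_contra {K : Type u} [Field K] {G : Type v} [LieRing G] [LieAlgebra K G]
    {V : ℕ → Submodule K G} [IsAlgClosed K] (hV : JustInf V) (M : Set G) (n : ℕ)
    (hM : NilSet V M n) (hS : SymId K G n) : False := by
  cases n with
  | zero =>
    have h := hS (fun _ => 0)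
    simp only [List.ofFn_zero, List.prod_nil, Finset.sum_const, Finset.card_univ,
      Fintype.card_perm, Fintype.card_fin, Nat.factorial_zero, one_smul] at h
    obtain ⟨v, -, hv⟩ := (V 1).ne_bot_iff.1 (hV.ne 1 le_rfl)
    exact hv (by simpa using congrArg (fun a : Module.End K G => a v) h)
  | succ k => exact core_ji hV M (k + 1) hM k hS

end Pool.Agent.ZLM
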