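import Pool.Agent.ZLM.P2

/-! # The graded algebra of a finitely generated Engel Lie algebra -/

set_option autoImplicit false

open Finset TensorProduct Submodule

namespace Pool.Agent.ZLM

universe u v w

section Mon

variable {L : Type v} [LieRing L]

/-- bracket monomials of length `i` in the elements of `X` -/
inductive Mon (X : Set L) : ℕ → L → Prop
  | of {x : L} : x ∈ X → Mon X 1 x
  | br {i j : ℕ} {a b : L} : Mon X i a → Mon X j b → Mon X (i + j) ⁅a, b⁆

theorem Mon.pos {X : Set L} {i : ℕ} {a : L} (h : Mon X i a) : 1 ≤ i := by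
  induction h with
  | of _ => exact le_rfl
  | br _ _ h1 h2 => omega

theorem Mon.one {X : Set L} {i : ℕ} {a : L} (h : Mon X i a) (hi : i = 1) : a ∈ X := by
  cases h with
  | of h => exact h
  | br h1 h2 =>
    have := h1.pos
    have := h2.pos
    omega

variable (F : Type u) [Field F] [LieAlgebra F L] (X : Set L)

/-- span of the monomials of length `i` -/
def W (i : ℕ) : Submodule F L := span F {a | Mon X i a}

/-- span of `⁅x, y⁆`, `x` a generator, `y` a monomial of length `i` -/
def U (i : ℕ) : Submodule F L := span F {w | ∃ x ∈ X, ∃ y, Mon X i y ∧ w = ⁅x, y⁆}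

theorem W_lie {i j : ℕ} {a b : L} (ha : a ∈ W F X i) (hb : b ∈ W F X j) :
    ⁅a, b⁆ ∈ W F X (i + j) := by
  induction ha using Submodule.span_induction with
  | mem a ha =>
    induction hb using Submodule.span_induction with
    | mem b hb => exact Submodule.subset_span (Mon.br ha hb)
    | zero => rw [lie_zero]; exact Submodule.zero_mem _
    | add b c _ _ hb hc => rw [lie_add]; exact Submodule.add_mem _ hb hc
    | smul r b _ hb => rw [lie_smul]; exact Submodule.smul_mem _ r hb
  | zero => rw [zero_lie]; exact Submodule.zero_mem _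
  | add a c _ _ ha hc => rw [add_lie]; exact Submodule.add_mem _ ha hc
  | smul r a _ ha => rw [smul_lie]; exact Submodule.smul_mem _ r ha

theorem U_of {i : ℕ} {x b : L} (hx : x ∈ X) (hb : b ∈ W F X i) : ⁅x, b⁆ ∈ U F X i := by
  induction hb using Submodule.span_induction with
  | mem b hb => exact Submodule.subset_span ⟨x, hx, b, hb, rfl⟩
  | zero => rw [lie_zero]; exact Submodule.zero_mem _
  | add b c _ _ hb hc => rw [lie_add]; exact Submodule.add_mem _ hb hc
  | smul r b _ hb => rw [lie_smul]; exact Submodule.smul_mem _ r hb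

theorem W_lie_U : ∀ (i : ℕ), ∀ (j : ℕ) (a b : L), a ∈ W F X (i + 1) → b ∈ W F X j →
    ⁅a, b⁆ ∈ U F X (i + j) := by
  intro i
  induction i using Nat.strong_induction_on with
  | _ i ih =>
    intro j a b ha hb
    rcases Nat.eq_zero_or_pos i with rfl | hi
    · induction ha using Submodule.span_induction with
      | mem a ha =>
        rw [zero_add]
        exact U_of F X (Mon.one ha rfl) hb
      | zero => rw [zero_lie]; exact Submodule.zero_mem _
      | add a c _ _ ha hc => rw [add_lie]; exact Submodule.add_mem _ ha hc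
      | smul r a _ ha => rw [smul_lie]; exact Submodule.smul_mem _ r ha
    · obtain ⟨k, rfl⟩ : ∃ k, i = k + 1 := ⟨i - 1, by omega⟩
      have hU : ∀ a, Mon X (k + 1 + 1) a → a ∈ U F X (k + 1) := by
        intro a ha
        generalize hm : k + 1 + 1 = m at ha
        cases ha with
        | of h => omega
        | @br i' j' a' b' h1 h2 =>
          have p1 := h1.pos
          have p2 := h2.pos
          obtain ⟨i'', rfl⟩ : ∃ i'', i' = i'' + 1 := ⟨i' - 1, by omega⟩
          have h3 := ih i'' (by omega) j' a' b' (Submodule.subset_span h1)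
            (Submodule.subset_span h2)
          have e : i'' + j' = k + 1 := by omega
          rwa [e] at h3
      have ha' : a ∈ U F X (k + 1) := by
        induction ha using Submodule.span_induction with
        | mem a ha => exact hU a ha
        | zero => exact Submodule.zero_mem _
        | add a c _ _ ha hc => exact Submodule.add_mem _ ha hc
        | smul r a _ ha => exact Submodule.smul_mem _ r ha
      clear ha
      induction ha' using Submodule.span_induction with
      | mem a ha =>
        obtain ⟨x, hx, y, hy, rfl⟩ := ha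
        rw [lie_lie]
        apply Submodule.sub_mem
        · have h1 : ⁅y, b⁆ ∈ W F X (k + 1 + j) := W_lie F X (Submodule.subset_span hy) hb
          exact U_of F X hx h1
        · have h1 : ⁅x, b⁆ ∈ W F X (1 + j) :=
            W_lie F X (Submodule.subset_span (Mon.of hx)) hb
          have h2 := ih k (by omega) (1 + j) y ⁅x, b⁆ (Submodule.subset_span hy) h1
          have e : k + (1 + j) = k + 1 + j := by omega
          rwa [e] at h2
      | zero => rw [zero_lie]; exact Submodule.zero_mem _
      | add a c _ _ ha hc => rw [add_lie]; exact Submodule.add_mem _ ha hc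
      | smul r a _ ha => rw [smul_lie]; exact Submodule.smul_mem _ r ha

theorem Mon_U {i : ℕ} (hi : 1 ≤ i) {a : L} (ha : Mon X (i + 1) a) : a ∈ U F X i := by
  generalize hm : i + 1 = m at ha
  cases ha with
  | of h => omega
  | @br i' j' a' b' h1 h2 =>
    have p1 := h1.pos
    have p2 := h2.pos
    obtain ⟨i'', rfl⟩ : ∃ i'', i' = i'' + 1 := ⟨i' - 1, by omega⟩
    have h3 := W_lie_U F X i'' j' a' b' (Submodule.subset_span h1) (Submodule.subset_span h2)
    have e : i'' + j' = i := by omega
    rwa [e] at h3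

end Mon

section Graded

variable (K : Type w) [Field K] (F : Type u) [Field F] [Algebra F K] (L : Type v) [LieRing L]
  [LieAlgebra F L]

/-- the algebra `K[t] ⊗ L` -/
def GT : Type (max w v) := Polynomial K ⊗[F] L

noncomputable instance instLR : LieRing (GT K F L) :=
  inferInstanceAs (LieRing (Polynomial K ⊗[F] L))

noncomputable instance instMod : Module K (GT K F L) :=
  inferInstanceAs (Module K (Polynomial K ⊗[F] L))

noncomputable instance instModP : Module (Polynomial K) (GT K F L) :=
  inferInstanceAs (Module (Polynomial K) (Polynomial K ⊗[F] L))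

noncomputable instance instLAP : LieAlgebra (Polynomial K) (GT K F L) where
  lie_smul a x y := (LieAlgebra.ExtendScalars.instLieAlgebra F (Polynomial K) L).lie_smul a x y

variable {L}

/-- pure tensors -/
noncomputable def tm (r : Polynomial K) (a : L) : GT K F L := r ⊗ₜ[F] a

variable {K F}

theorem tm_lie (r s : Polynomial K) (a b : L) : ⁅tm K F r a, tm K F s b⁆ = tm K F (r * s) ⁅a, b⁆ :=
  rfl

theorem tm_add (r : Polynomial K) (a b : L) : tm K F r (a + b) = tm K F r a + tm K F r b :=
  TensorProduct.tmul_add _ _ _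

theorem tm_zero (r : Polynomial K) : tm K F r (0 : L) = 0 := TensorProduct.tmul_zero _ _

theorem tm_smul (r : Polynomial K) (c : K) (a : L) : c • tm K F r a = tm K F (c • r) a := rfl

theorem tm_smul' (r : Polynomial K) (c : F) (a : L) :
    tm K F r (c • a) = algebraMap F K c • tm K F r a := by
  rw [tm_smul]
  unfold tm
  rw [TensorProduct.tmul_smul, TensorProduct.smul_tmul', algebraMap_smul]

theorem GT.ind {p : GT K F L → Prop} (h0 : p 0) (ht : ∀ r a, p (tm K F r a))
    (ha : ∀ x y, p x → p y → p (x + y)) (z : GT K F L) : p z :=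
  TensorProduct.induction_on z h0 ht ha

theorem smul_eq_C (c : K) (z : GT K F L) : c • z = (Polynomial.C c) • z := by
  induction z using GT.ind with
  | h0 => rw [smul_zero, smul_zero]
  | ht r a =>
    change (c • r) ⊗ₜ[F] a = (Polynomial.C c * r) ⊗ₜ[F] a
    rw [Polynomial.smul_eq_C_mul]
  | ha x y hx hy => rw [smul_add, smul_add, hx, hy]

/-- the Lie algebra over `K` -/
noncomputable instance instLA : LieAlgebra K (GT K F L) where
  lie_smul c x y := by
    rw [smul_eq_C, smul_eq_C, lie_smul]

variable (K F)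

/-- the homogeneous components -/
noncomputable def Vt (X : Set L) (i : ℕ) : Submodule K (GT K F L) :=
  span K {g | ∃ a, Mon X i a ∧ g = tm K F ((Polynomial.X : Polynomial K) ^ i) a}

/-- the monomials -/
def Mt (X : Set L) : Set (GT K F L) :=
  {g | ∃ (i : ℕ) (a : L), Mon X i a ∧ g = tm K F ((Polynomial.X : Polynomial K) ^ i) a}

theorem Vt_zero (X : Set L) : Vt K F X 0 = ⊥ := by
  unfold Vt
  rw [Submodule.span_eq_bot]
  rintro g ⟨a, ha, -⟩
  have := ha.pos
  omega

theorem Vt_lie (X : Set L) {i j : ℕ} {x y : GT K F L} (hx : x ∈ Vt K F X i)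
    (hy : y ∈ Vt K F X j) : ⁅x, y⁆ ∈ Vt K F X (i + j) := by
  induction hx using Submodule.span_induction with
  | mem x hx =>
    obtain ⟨a, ha, rfl⟩ := hx
    induction hy using Submodule.span_induction with
    | mem y hy =>
      obtain ⟨b, hb, rfl⟩ := hy
      apply Submodule.subset_span
      refine ⟨⁅a, b⁆, Mon.br ha hb, ?_⟩
      rw [tm_lie, pow_add]
    | zero => rw [lie_zero]; exact Submodule.zero_mem _
    | add b c _ _ hb hc => rw [lie_add]; exact Submodule.add_mem _ hb hc
    | smul r b _ hb => rw [lie_smul]; exact Submodule.smul_mem _ r hb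
  | zero => rw [zero_lie]; exact Submodule.zero_mem _
  | add a c _ _ ha hc => rw [add_lie]; exact Submodule.add_mem _ ha hc
  | smul r a _ ha => rw [smul_lie]; exact Submodule.smul_mem _ r ha

theorem Vt_fin (X : Set L) (hX : X.Finite) : Module.Finite K (Vt K F X 1) := by
  have h : {g | ∃ a, Mon X 1 a ∧ g = tm K F ((Polynomial.X : Polynomial K) ^ 1) a} ⊆
      (fun a => tm K F ((Polynomial.X : Polynomial K) ^ 1) a) '' X := by
    rintro g ⟨a, ha, rfl⟩
    exact ⟨a, ha.one rfl, rfl⟩
  have hf := (hX.image fun a => tm K F ((Polynomial.X : Polynomial K) ^ 1) a).subset h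
  exact FiniteDimensional.span_of_finite K hf

theorem tmul_mem_span (r : Polynomial K) (S : Set L) {a : L} (ha : a ∈ span F S) :
    tm K F r a ∈ span K {g | ∃ s ∈ S, g = tm K F r s} := by
  induction ha using Submodule.span_induction with
  | mem a ha => exact Submodule.subset_span ⟨a, ha, rfl⟩
  | zero => rw [tm_zero]; exact Submodule.zero_mem _
  | add a b _ _ ha hb => rw [tm_add]; exact Submodule.add_mem _ ha hb
  | smul c a _ ha =>
    rw [tm_smul']
    exact Submodule.smul_mem _ _ ha

theorem Vt_gen (X : Set L) (i : ℕ) (hi : 1 ≤ i) (z : GT K F L)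
    (hz : z ∈ Vt K F X (i + 1)) :
    z ∈ span K {w | ∃ x ∈ Vt K F X 1, ∃ y ∈ Vt K F X i, w = ⁅x, y⁆} := by
  induction hz using Submodule.span_induction with
  | mem z hz =>
    obtain ⟨a, ha, rfl⟩ := hz
    have h1 := Mon_U F X hi ha
    have h2 := tmul_mem_span K F ((Polynomial.X : Polynomial K) ^ (i + 1)) _ h1
    refine Submodule.span_mono ?_ h2
    rintro g ⟨s, ⟨x, hx, y, hy, rfl⟩, rfl⟩
    refine ⟨tm K F ((Polynomial.X : Polynomial K) ^ 1) x,
      Submodule.subset_span ⟨x, Mon.of hx, rfl⟩,
      tm K F ((Polynomial.X : Polynomial K) ^ i) y, Submodule.subset_span ⟨y, hy, rfl⟩, ?_⟩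
    rw [tm_lie, ← pow_add, add_comm 1 i]
  | zero => exact Submodule.zero_mem _
  | add a b _ _ ha hb => exact Submodule.add_mem _ ha hb
  | smul c a _ ha => exact Submodule.smul_mem _ _ ha

/-- the coefficient of `X ^ i` -/
noncomputable def coefT (i : ℕ) : GT K F L →ₗ[K] K ⊗[F] L :=
  TensorProduct.AlgebraTensorModule.map (Polynomial.lcoeff K i) (LinearMap.id : L →ₗ[F] L)

theorem coefT_tm (i : ℕ) (r : Polynomial K) (a : L) :
    coefT K F i (tm K F r a) = (r.coeff i) ⊗ₜ[F] a := rfl

/-- multiplication by `X ^ i` -/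
noncomputable def monT (i : ℕ) : K ⊗[F] L →ₗ[K] GT K F L :=
  TensorProduct.AlgebraTensorModule.map (Polynomial.monomial i) (LinearMap.id : L →ₗ[F] L)

theorem monT_tmul (i : ℕ) (r : K) (a : L) :
    monT K F i (r ⊗ₜ[F] a) = tm K F (Polynomial.monomial i r) a := rfl

theorem Vt_range (X : Set L) (i : ℕ) : Vt K F X i ≤ LinearMap.range (monT K F (L := L) i) := by
  unfold Vt
  rw [Submodule.span_le]
  rintro g ⟨a, -, rfl⟩
  exact ⟨1 ⊗ₜ[F] a, by rw [monT_tmul, Polynomial.X_pow_eq_monomial]⟩

theorem coefT_monT (i : ℕ) (z : K ⊗[F] L) : coefT K F i (monT K F i z) = z := by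
  induction z using TensorProduct.induction_on with
  | zero => rw [map_zero, map_zero]
  | add a b ha hb => rw [map_add, map_add, ha, hb]
  | tmul s y => rw [monT_tmul, coefT_tm, Polynomial.coeff_monomial_same]

theorem coefT_Vt (X : Set L) {i j : ℕ} (hij : j ≠ i) {z : GT K F L}
    (hz : z ∈ Vt K F X j) : coefT K F i z = 0 := by
  induction hz using Submodule.span_induction with
  | mem z hz =>
    obtain ⟨a, -, rfl⟩ := hz
    rw [coefT_tm, Polynomial.coeff_X_pow, if_neg (Ne.symm hij), TensorProduct.zero_tmul]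
  | zero => rw [map_zero]
  | add a b _ _ ha hb => rw [map_add, ha, hb, add_zero]
  | smul c a _ ha => rw [map_smul, ha, smul_zero]

theorem Vt_ind (X : Set L) : iSupIndep (Vt K F X) := by
  rw [iSupIndep_def]
  intro i
  rw [Submodule.disjoint_def]
  intro z hz hz'
  have h1 : coefT K F i z = 0 := by
    have h2 : (⨆ j, ⨆ (_ : j ≠ i), Vt K F X j) ≤ LinearMap.ker (coefT K F (L := L) i) := by
      refine iSup_le fun j => iSup_le fun hj => ?_
      intro y hy
      exact coefT_Vt K F X hj hy
    exact h2 hz'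
  obtain ⟨y, rfl⟩ := Vt_range K F X i hz
  rw [coefT_monT] at h1
  rw [h1, map_zero]

/-- [P2] the graded algebra. -/
theorem Vt_gr (X : Set L) (hX : X.Finite) : Gr (Vt K F X) where
  zero := Vt_zero K F X
  lie := Vt_lie K F X
  fin := Vt_fin K F X hX
  gen := Vt_gen K F X
  ind := Vt_ind K F X

theorem ad_pow_tm (k : ℕ) (r s : Polynomial K) (a b : L) :
    ((LieAlgebra.ad K (GT K F L) (tm K F r a)) ^ k) (tm K F s b) =
      tm K F (r ^ k * s) (((LieAlgebra.ad F L a) ^ k) b) := by
  induction k with
  | zero => rw [pow_zero, pow_zero, pow_zero, one_mul]; rfl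
  | succ k ih =>
    rw [pow_succ', Module.End.mul_apply, ih, LieAlgebra.ad_apply,
      tm_lie, pow_succ' (LieAlgebra.ad F L a),
      Module.End.mul_apply, LieAlgebra.ad_apply, pow_succ', mul_assoc]

theorem Mt_nil (X : Set L) {n : ℕ} (hn : ∀ x : L, (LieAlgebra.ad F L x) ^ n = 0) :
    NilSet (Vt K F X) (Mt K F X) n where
  hom := by
    rintro g ⟨i, a, ha, rfl⟩
    exact ⟨i, Submodule.subset_span ⟨a, ha, rfl⟩⟩
  lie := by
    rintro g ⟨i, a, ha, rfl⟩ g' ⟨j, b, hb, rfl⟩
    exact ⟨i + j, ⁅a, b⁆, Mon.br ha hb, by rw [tm_lie, pow_add]⟩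
  spn := by
    intro i
    conv_lhs => unfold Vt
    rw [Submodule.span_le]
    rintro g ⟨a, ha, rfl⟩
    exact Submodule.subset_span ⟨⟨i, a, ha, rfl⟩, Submodule.subset_span ⟨a, ha, rfl⟩⟩
  nil := by
    rintro g ⟨i, a, ha, rfl⟩
    refine LinearMap.ext fun z => ?_
    rw [LinearMap.zero_apply]
    induction z using GT.ind with
    | h0 => rw [map_zero]
    | ht s y => rw [ad_pow_tm, hn a, LinearMap.zero_apply, tm_zero]
    | ha a b ha hb => rw [map_add, ha, hb, add_zero]

theorem Vt_sym {n : ℕ} (hn : ∀ x : L, (LieAlgebra.ad F L x) ^ n = 0) :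
    SymId K (GT K F L) n := by
  rw [symId_iff]
  exact SymR.baseChange ((symId_iff (K := F) n).1 (symId_of_engel n hn)) (Polynomial K)

/-- if a component vanishes then all monomials of this length vanish -/
theorem Mon_zero_of_Vt (X : Set L) {i : ℕ} (h : Vt K F X i = ⊥) {a : L} (ha : Mon X i a) :
    a = 0 := by
  have h1 : ((Polynomial.X : Polynomial K) ^ i) ⊗ₜ[F] a = 0 := by
    have h2 : tm K F ((Polynomial.X : Polynomial K) ^ i) a ∈ Vt K F X i :=
      Submodule.subset_span ⟨a, ha, rfl⟩
    rw [h] at h2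
    exact h2
  have h3 : ((Polynomial.X : Polynomial K) ^ i) ≠ 0 := pow_ne_zero _ Polynomial.X_ne_zero
  obtain ⟨φ, hφ⟩ : ∃ φ : Module.Dual F (Polynomial K), φ (Polynomial.X ^ i) ≠ 0 := by
    by_contra hc
    push Not at hc
    exact h3 ((Module.forall_dual_apply_eq_zero_iff F _).1 hc)
  have h4 := congrArg ((TensorProduct.lid F L).toLinearMap ∘ₗ LinearMap.rTensor L φ) h1
  rw [map_zero, LinearMap.comp_apply, LinearMap.rTensor_tmul] at h4
  have h5 : φ (Polynomial.X ^ i) • a = 0 := by
    rw [← h4]
    exact (TensorProduct.lid_tmul _ _).symm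
  exact (smul_eq_zero.1 h5).resolve_left hφ

end Graded

end Pool.Agent.ZLM
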