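import Pool.Agent.ZLM.P1
import Pool.Agent.ZLM.P2b
import Pool.Agent.ZLM.Core

/-! # Finitely generated Engel Lie algebras: reduction to the just infinite case -/

set_option autoImplicit false

open Submodule

namespace Pool.Agent.ZLM

universe u v

section

variable (F : Type u) [Field F] {L : Type v} [LieRing L] [LieAlgebra F L] (X : Set L)

/-- span of the monomials of length at least `k` -/
def TT (k : ℕ) : Submodule F L := span F {a | ∃ j, k ≤ j ∧ Mon X j a}

theorem TT_lie {i k : ℕ} {x y : L} (hx : x ∈ TT F X i) (hy : y ∈ TT F X k) :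
    ⁅x, y⁆ ∈ TT F X (i + k) := by
  induction hx using Submodule.span_induction with
  | mem x hx =>
    obtain ⟨j, hj, ha⟩ := hx
    induction hy using Submodule.span_induction with
    | mem y hy =>
      obtain ⟨j', hj', hb⟩ := hy
      exact Submodule.subset_span ⟨j + j', by omega, Mon.br ha hb⟩
    | zero => rw [lie_zero]; exact Submodule.zero_mem _
    | add b c _ _ hb hc => rw [lie_add]; exact Submodule.add_mem _ hb hc
    | smul r b _ hb => rw [lie_smul]; exact Submodule.smul_mem _ r hb
  | zero => rw [zero_lie]; exact Submodule.zero_mem _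
  | add a c _ _ ha hc => rw [add_lie]; exact Submodule.add_mem _ ha hc
  | smul r a _ ha => rw [smul_lie]; exact Submodule.smul_mem _ r ha

theorem TT_one (hgen : LieSubalgebra.lieSpan F L X = ⊤) (x : L) : x ∈ TT F X 1 := by
  let S : LieSubalgebra F L :=
    { toSubmodule := TT F X 1
      lie_mem' := by
        intro a b ha hb
        have h := TT_lie F X ha hb
        have hle : TT F X (1 + 1) ≤ TT F X 1 :=
          Submodule.span_mono fun a ⟨j, hj, h⟩ => ⟨j, by omega, h⟩
        exact hle h }
  have h1 : LieSubalgebra.lieSpan F L X ≤ S := by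
    rw [LieSubalgebra.lieSpan_le]
    intro a ha
    exact Submodule.subset_span ⟨1, le_rfl, Mon.of ha⟩
  rw [hgen] at h1
  exact h1 (LieSubalgebra.mem_top x)

theorem prod_mem_TT (hgen : LieSubalgebra.lieSpan F L X = ⊤) (l : List L) (y : L) :
    (l.map fun x => LieAlgebra.ad F L x).prod y ∈ TT F X (l.length + 1) := by
  induction l with
  | nil => exact TT_one F X hgen y
  | cons a l ih =>
    rw [List.map_cons, List.prod_cons, Module.End.mul_apply, LieAlgebra.ad_apply,
      List.length_cons]
    have h := TT_lie F X (TT_one F X hgen a) ih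
    rwa [show l.length + 1 + 1 = 1 + (l.length + 1) by omega]

include F in
theorem Mon_zero_of_le {i : ℕ} (hi : 1 ≤ i) (h : ∀ a, Mon X i a → a = 0) :
    ∀ j, i ≤ j → ∀ a, Mon X j a → a = 0 := by
  intro j hj
  induction j, hj using Nat.le_induction with
  | base => exact h
  | succ j hj ih =>
    intro a ha
    have h1 := Mon_U F X (by omega) ha
    have h2 : U F X j = ⊥ := by
      unfold U
      rw [Submodule.span_eq_bot]
      rintro _ ⟨x, _, y, hy, rfl⟩
      rw [ih y hy, lie_zero]
    rw [h2] at h1
    exact h1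

variable {X}

/-- reduction of the theorem to the just infinite case -/
theorem engel_lie_aux (hX : X.Finite) (hgen : LieSubalgebra.lieSpan F L X = ⊤) (n : ℕ)
    (hn : ∀ x : L, (LieAlgebra.ad F L x) ^ n = 0)
    (H : ∀ (G : Type (max u v)) [LieRing G] [LieAlgebra (AlgebraicClosure F) G]
      (V : ℕ → Submodule (AlgebraicClosure F) G) (M : Set G), JustInf V → NilSet V M n →
      SymId (AlgebraicClosure F) G n → False) :
    ∃ N, ∀ l : List L, l.length = N → ∀ y : L,
      (l.map fun x => LieAlgebra.ad F L x).prod y = 0 := by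
  obtain ⟨i, hi, hbot⟩ : ∃ i, 1 ≤ i ∧ Vt (AlgebraicClosure F) F X i = ⊥ := by
    by_contra hcon
    push Not at hcon
    obtain ⟨Q, _, _, V', M', h1, h2, h3⟩ := exists_justInf (Vt_gr (AlgebraicClosure F) F X hX) hcon
      (Mt_nil (AlgebraicClosure F) F X hn) (Vt_sym (AlgebraicClosure F) F hn)
    exact H Q V' M' h1 h2 h3
  have h1 : ∀ a, Mon X i a → a = 0 := fun a ha => Mon_zero_of_Vt (AlgebraicClosure F) F X hbot ha
  have h2 := Mon_zero_of_le F X hi h1
  refine ⟨i, ?_⟩
  intro l hl y
  have h3 := prod_mem_TT F X hgen l y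
  have h4 : TT F X (l.length + 1) = ⊥ := by
    unfold TT
    rw [Submodule.span_eq_bot]
    rintro a ⟨j, hj, ha⟩
    exact h2 j (by omega) a ha
  rw [h4] at h3
  exact h3

/-- a finitely generated Lie algebra with `(ad x) ^ n = 0` for all `x` is nilpotent -/
theorem engel_lie (F : Type u) [Field F] (L : Type v) [LieRing L] [LieAlgebra F L] (X : Set L)
    (hX : X.Finite) (hgen : LieSubalgebra.lieSpan F L X = ⊤) (n : ℕ)
    (hn : ∀ x : L, (LieAlgebra.ad F L x) ^ n = 0) :
    ∃ N, ∀ l : List L, l.length = N → ∀ y : L,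
      (l.map fun x => LieAlgebra.ad F L x).prod y = 0 :=
  engel_lie_aux F hX hgen n hn fun _ _ _ _ M hV hM hS => final_contra hV M n hM hS

end

end Pool.Agent.ZLM
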