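import Mathlib

/-!
# Graded Lie algebras with an Engel identity: definitions
-/

set_option autoImplicit false

namespace Pool.Agent.ZLM

open Submodule

universe u v

section

variable (K : Type u) [Field K] {G : Type v} [LieRing G] [LieAlgebra K G]

/-- the space of the operators `ad x`, `x ∈ N` -/
def A (N : Submodule K G) : Submodule K (Module.End K G) :=
  N.map (LieAlgebra.ad K G : G →ₗ[K] Module.End K G)

/-- the operator `ad x_{i₁} ∘ ⋯ ∘ ad x_{iₖ}` -/
def word (x : ℕ → G) (l : List ℕ) : Module.End K G :=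
  (l.map fun i => LieAlgebra.ad K G (x i)).prod

variable (G) in
/-- the multilinear identity of degree `n` which is the linearisation of `(ad x) ^ n = 0` -/
def SymId (n : ℕ) : Prop :=
  ∀ x : Fin n → G,
    ∑ σ : Equiv.Perm (Fin n), (List.ofFn fun i => LieAlgebra.ad K G (x (σ i))).prod = 0

variable {K}

/-- `V` is a family of subspaces of a Lie algebra which behaves like the homogeneous components of
a graded Lie algebra generated by its finite dimensional component of degree one -/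
structure Gr (V : ℕ → Submodule K G) : Prop where
  zero : V 0 = ⊥
  lie : ∀ {i j : ℕ} {x y : G}, x ∈ V i → y ∈ V j → ⁅x, y⁆ ∈ V (i + j)
  fin : Module.Finite K (V 1)
  gen : ∀ i, 1 ≤ i → ∀ z ∈ V (i + 1), z ∈ span K {w | ∃ x ∈ V 1, ∃ y ∈ V i, w = ⁅x, y⁆}
  ind : iSupIndep V

/-- graded, infinite dimensional, and every nonzero graded ideal is cofinite -/
structure JustInf (V : ℕ → Submodule K G) : Prop extends Gr V where
  ne : ∀ i, 1 ≤ i → V i ≠ ⊥
  just : ∀ N : ℕ → Submodule K G, (∀ i, N i ≤ V i) →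
    (∀ i, ∀ x ∈ V 1, ∀ y ∈ N i, ⁅x, y⁆ ∈ N (i + 1)) → (∃ i, N i ≠ ⊥) → ∃ i, 1 ≤ i ∧ N i = V i

/-- a set of homogeneous elements, closed under the bracket, which spans, with `(ad m) ^ n = 0` -/
structure NilSet (V : ℕ → Submodule K G) (M : Set G) (n : ℕ) : Prop where
  hom : ∀ m ∈ M, ∃ i, m ∈ V i
  lie : ∀ m ∈ M, ∀ m' ∈ M, ⁅m, m'⁆ ∈ M
  spn : ∀ i, V i ≤ span K (M ∩ V i)
  nil : ∀ m ∈ M, (LieAlgebra.ad K G m) ^ n = 0

/-- there is an eventual isomorphism of positive degree commuting with the operators `ad x` -/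
def Per (V : ℕ → Submodule K G) : Prop :=
  ∃ (n δ : ℕ) (θ : ℕ → G →ₗ[K] G), 1 ≤ δ ∧ (∀ m, n ≤ m → (V m).map (θ m) = V (m + δ)) ∧
    (∀ m, n ≤ m → ∀ y ∈ V m, θ m y = 0 → y = 0) ∧
    ∀ m, n ≤ m → ∀ x ∈ V 1, ∀ y ∈ V m, θ (m + 1) ⁅x, y⁆ = ⁅x, θ m y⁆

/-- graded density -/
def Dense (V : ℕ → Submodule K G) : Prop :=
  ∀ (k : ℕ) (u : Fin k → G) (d : Fin k → ℕ), (∀ i, u i ∈ V (d i)) → LinearIndependent K u →
    ∃ n₀, ∀ N, n₀ ≤ N → ∀ w : Fin k → G, (∀ i, w i ∈ V (d i + N)) →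
      ∃ a ∈ (A K (V 1)) ^ N, ∀ i, a (u i) = w i

/-- operators which vanish in all degrees larger than `t` -/
def Z (V : ℕ → Submodule K G) (t : ℕ) : Submodule K (Module.End K G) where
  carrier := {a | ∀ m, t < m → ∀ v ∈ V m, a v = 0}
  zero_mem' := fun _ _ _ _ => rfl
  add_mem' := fun {a b} ha hb m hm v hv => by
    rw [LinearMap.add_apply, ha m hm v hv, hb m hm v hv, add_zero]
  smul_mem' := fun c a ha m hm v hv => by
    rw [LinearMap.smul_apply, ha m hm v hv, smul_zero]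

/-- the span of the operators `ad σ * ad l` of degree `N` with `σ` of degree at most `τ` -/
def Qd (V : ℕ → Submodule K G) (τ N : ℕ) : Submodule K (Module.End K G) :=
  span K {a | ∃ (s j : ℕ) (σ l : G), s ≤ τ ∧ s + j = N ∧ σ ∈ V s ∧ l ∈ V j ∧
    a = LieAlgebra.ad K G σ * LieAlgebra.ad K G l}

/-- products `ad μ * ad l` can be reduced if the degree of `μ` is large -/
def Red (V : ℕ → Submodule K G) : Prop :=
  ∃ t D : ℕ, ∀ τ, D ≤ τ → ∀ μ ∈ V (τ + 1), ∀ (j : ℕ), ∀ l ∈ V j,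
    LieAlgebra.ad K G μ * LieAlgebra.ad K G l ∈
      Qd V τ (τ + 1 + j) ⊔ A K (V (τ + 1 + j)) ⊔ Z V t

/-- on the part of degree larger than `t` the algebra generated by the `ad x` is finite over the
space of the `ad x` -/
def FinOver (V : ℕ → Submodule K G) (t : ℕ) : Prop :=
  ∃ (r : ℕ) (β : Fin r → Module.End K G) (b : Fin r → ℕ) (n₀ : ℕ),
    (∀ j, β j ∈ (A K (V 1)) ^ (b j)) ∧
    ∀ N, n₀ ≤ N → ∀ a ∈ (A K (V 1)) ^ N, ∃ l : Fin r → G,
      (∀ j, ∃ M, b j + M = N ∧ l j ∈ V M) ∧ ∀ m, t < m → ∀ v ∈ V m, a v = ∑ j, β j ⁅l j, v⁆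

/-! ### Multilinear functions -/

variable (K G) in
/-- the span of the operators given by the words with letters `S` -/
def Op (S : Finset ℕ) : Submodule K ((ℕ → G) → Module.End K G) :=
  span K {f | ∃ l : List ℕ, l.Nodup ∧ l.toFinset = S ∧ f = fun x => word K x l}

variable (K G) in
/-- the multilinear Lie polynomials with letters `S` -/
def Law (S : Finset ℕ) : Submodule K ((ℕ → G) → G) :=
  span K {f | ∃ (i : ℕ) (l : List ℕ), (i :: l).Nodup ∧ (i :: l).toFinset = S ∧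
    f = fun x => word K x l (x i)}

/-- all letters are homogeneous of degree larger than `t` -/
def Deep (V : ℕ → Submodule K G) (t : ℕ) (x : ℕ → G) : Prop := ∀ i, ∃ m, t < m ∧ x i ∈ V m

theorem Deep.mono {V : ℕ → Submodule K G} {t t' : ℕ} (h : t ≤ t') {x : ℕ → G} (hx : Deep V t' x) :
    Deep V t x := fun i => by
  obtain ⟨m, hm, h'⟩ := hx i
  exact ⟨m, lt_of_le_of_lt h hm, h'⟩

/-- the functions with values in the algebra which vanish eventually -/
def EvL (V : ℕ → Submodule K G) : Submodule K ((ℕ → G) → G) where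
  carrier := {f | ∃ t, ∀ x, Deep V t x → f x = 0}
  zero_mem' := ⟨0, fun _ _ => rfl⟩
  add_mem' := fun {a b} ⟨t, ht⟩ ⟨t', ht'⟩ => ⟨max t t', fun x hx => by
    rw [Pi.add_apply, ht x (hx.mono (le_max_left _ _)), ht' x (hx.mono (le_max_right _ _)),
      add_zero]⟩
  smul_mem' := fun c a ⟨t, ht⟩ => ⟨t, fun x hx => by rw [Pi.smul_apply, ht x hx, smul_zero]⟩

/-- the functions with values in the operators which vanish eventually -/
def EvO (V : ℕ → Submodule K G) : Submodule K ((ℕ → G) → Module.End K G) where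
  carrier := {f | ∃ t, ∀ x, Deep V t x → f x ∈ Z V t}
  zero_mem' := ⟨0, fun _ _ => (Z V 0).zero_mem⟩
  add_mem' := fun {a b} ⟨t, ht⟩ ⟨t', ht'⟩ => ⟨max t t', fun x hx m hm v hv => by
    rw [Pi.add_apply, LinearMap.add_apply,
      ht x (hx.mono (le_max_left _ _)) m (lt_of_le_of_lt (le_max_left _ _) hm) v hv,
      ht' x (hx.mono (le_max_right _ _)) m (lt_of_le_of_lt (le_max_right _ _) hm) v hv, add_zero]⟩
  smul_mem' := fun c a ⟨t, ht⟩ => ⟨t, fun x hx => (Z V t).smul_mem c (ht x hx)⟩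

/-- the dimension of the space of the multilinear operators with letters `S` modulo those which
vanish eventually -/
noncomputable def dimOp (V : ℕ → Submodule K G) (S : Finset ℕ) : ℕ :=
  Module.finrank K ((Op K G S).map (EvO V).mkQ)

/-- a nontrivial quadratic identity which holds eventually -/
def G2 (V : ℕ → Submodule K G) : Prop :=
  ∃ (S A₀ : Finset ℕ) (s : ℕ) (P Q : Fin s → (ℕ → G) → G) (r : ℕ)
    (F F' : Fin r → (ℕ → G) → G) (B B' : Fin r → Finset ℕ) (h : (ℕ → G) → G) (t : ℕ),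
    A₀ ⊆ S ∧ (∀ k, P k ∈ Law K G A₀) ∧ (∀ k, Q k ∈ Law K G (S \ A₀)) ∧
    (∀ c : Fin s → K, c ≠ 0 → ∑ k, c k • P k ∉ EvL V) ∧ (∃ k, Q k ∉ EvL V) ∧
    (∀ j, F j ∈ Law K G (B j) ∧ F' j ∈ Law K G (B' j) ∧ B j ∪ B' j = S ∧ Disjoint (B j) (B' j) ∧
      ¬ A₀ ⊆ B j ∧ ¬ A₀ ⊆ B' j) ∧
    (∀ (x : ℕ → G) (d : ℕ → ℕ), (∀ i, x i ∈ V (d i)) → h x ∈ V (∑ i ∈ S, d i)) ∧
    ∀ x, Deep V t x → ∀ m, t < m → ∀ z ∈ V m,
      ∑ k, ⁅P k x, ⁅Q k x, z⁆⁆ + ∑ j, ⁅F j x, ⁅F' j x, z⁆⁆ + ⁅h x, z⁆ = 0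

end

/-! ### Combinatorics of words -/

/-- `l` contains a chain of length `k`: a factor `l₁ ⋯ lₖ` such that each `lᵢ` begins with its
largest letter and these largest letters decrease -/
def Ch (k : ℕ) (l : List ℕ) : Prop :=
  ∃ (p q : List ℕ) (m : Fin k → ℕ) (t : Fin k → List ℕ),
    l = p ++ (List.ofFn fun i => m i :: t i).flatten ++ q ∧ (∀ i, ∀ a ∈ t i, a < m i) ∧
    ∀ i j, i < j → m j < m i

/-- the number of words of length `N` in different letters without chain of length `k + 1` -/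
def dn : ℕ → ℕ → ℕ
  | _, 0 => 1
  | 0, _ + 1 => 0
  | k + 1, N + 1 => ∑ i : Fin (N + 1), N.choose i * dn (k + 1) i * dn k (N - i)
termination_by k N => (k, N)
decreasing_by
  · exact Prod.Lex.right _ i.2
  · exact Prod.Lex.left _ _ (Nat.lt_succ_self k)

end Pool.Agent.ZLM
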