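import Mathlib

/-!
[ZLM-E1] the end of the proof: counting of dimensions.
-/

set_option autoImplicit false

namespace ZLM

open Finset

/-- The numerical contradiction. -/
theorem e1_num (v : ℕ → ℕ) (hv : ∀ m, 1 ≤ m → 1 ≤ v m) (β : Type) [Fintype β] (dg : β → ℕ)
    (l : ℕ) (hl : Fintype.card β < l) (d : Fin l → ℕ) (n1 : ℕ)
    (h : ∀ N, n1 ≤ N → ∑ i, v (N + d i) ≤ ∑ b, v (N - dg b)) : False := by
  classical
  obtain ⟨D, hD⟩ : ∃ D : ℕ, ∀ i, d i ≤ D := ⟨∑ i, d i, fun i =>
    single_le_sum (f := d) (fun _ _ => Nat.zero_le _) (mem_univ i)⟩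
  obtain ⟨E, hE⟩ : ∃ E : ℕ, ∀ b, dg b ≤ E := ⟨∑ b, dg b, fun b =>
    single_le_sum (f := dg) (fun _ _ => Nat.zero_le _) (mem_univ b)⟩
  set n2 := n1 + E with hn2
  have key : ∀ T, l * ∑ m ∈ Ico (n2 + D) (T + 1), v m ≤
      Fintype.card β * ∑ m ∈ range (T + 1), v m := by
    intro T
    have h1 : ∑ N ∈ Ico n2 (T + 1), ∑ i, v (N + d i) ≤
        ∑ N ∈ Ico n2 (T + 1), ∑ b, v (N - dg b) :=
      sum_le_sum fun N hN => h N (by have := (mem_Ico.1 hN).1; omega)
    rw [sum_comm, sum_comm (s := Ico n2 (T + 1)) (t := (univ : Finset β))] at h1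
    have h2 : l * ∑ m ∈ Ico (n2 + D) (T + 1), v m ≤
        ∑ i : Fin l, ∑ N ∈ Ico n2 (T + 1), v (N + d i) := by
      have : ∀ i ∈ (univ : Finset (Fin l)), ∑ m ∈ Ico (n2 + D) (T + 1), v m ≤
          ∑ N ∈ Ico n2 (T + 1), v (N + d i) := by
        intro i _
        rw [sum_Ico_add' v n2 (T + 1) (d i)]
        refine sum_le_sum_of_subset fun m hm => ?_
        rw [mem_Ico] at hm ⊢
        have := hD i
        omega
      calc l * ∑ m ∈ Ico (n2 + D) (T + 1), v m
          = ∑ _i : Fin l, ∑ m ∈ Ico (n2 + D) (T + 1), v m := by simp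
        _ ≤ _ := sum_le_sum this
    have h3 : ∑ b, ∑ N ∈ Ico n2 (T + 1), v (N - dg b) ≤
        Fintype.card β * ∑ m ∈ range (T + 1), v m := by
      have : ∀ b ∈ (univ : Finset β), ∑ N ∈ Ico n2 (T + 1), v (N - dg b) ≤
          ∑ m ∈ range (T + 1), v m := by
        intro b _
        have hb : ∑ N ∈ Ico n2 (T + 1), v (N - dg b) =
            ∑ m ∈ (Ico n2 (T + 1)).image (fun N => N - dg b), v m := by
          rw [sum_image]
          intro x hx y hy hxy
          have h1 := (mem_Ico.1 (mem_coe.1 hx)).1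
          have h2 := (mem_Ico.1 (mem_coe.1 hy)).1
          have := hE b
          simp only at hxy
          omega
        rw [hb]
        refine sum_le_sum_of_subset fun m hm => ?_
        obtain ⟨N, hN, rfl⟩ := mem_image.1 hm
        rw [mem_Ico] at hN
        rw [mem_range]
        omega
      calc ∑ b, ∑ N ∈ Ico n2 (T + 1), v (N - dg b)
          ≤ ∑ _b : β, ∑ m ∈ range (T + 1), v m := sum_le_sum this
        _ = _ := by simp
    exact h2.trans (h1.trans h3)
  set c := Fintype.card β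
  set S := ∑ m ∈ range (n2 + D), v m
  have key2 : ∀ T, n2 + D ≤ T + 1 → ∑ m ∈ Ico (n2 + D) (T + 1), v m ≤ c * S := by
    intro T hT
    have h1 := key T
    have h2 : ∑ m ∈ range (T + 1), v m = S + ∑ m ∈ Ico (n2 + D) (T + 1), v m := by
      rw [sum_range_add_sum_Ico v hT]
    rw [h2] at h1
    set Q := ∑ m ∈ Ico (n2 + D) (T + 1), v m
    have h3 : (c + 1) * Q ≤ l * Q := Nat.mul_le_mul_right _ hl
    nlinarith
  have h4 := key2 (n2 + D + c * S + 1) (by omega)
  have h5 : ∑ _m ∈ Ico (n2 + D + 1) (n2 + D + c * S + 1 + 1), 1 ≤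
      ∑ m ∈ Ico (n2 + D) (n2 + D + c * S + 1 + 1), v m := by
    refine (sum_le_sum fun m hm => hv m ?_).trans (sum_le_sum_of_subset fun m hm => ?_)
    · have := (mem_Ico.1 hm).1
      omega
    · rw [mem_Ico] at hm ⊢
      omega
  simp only [sum_const, smul_eq_mul, mul_one, Nat.card_Ico] at h5
  omega

/-- The end: density against the quadratic bound. -/
theorem end_count {K : Type*} [Field K] {V : Type*} [AddCommGroup V] [Module K V]
    (W : ℕ → Submodule K V) (hfin : ∀ i, FiniteDimensional K (W i))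
    (hne : ∀ i, 1 ≤ i → W i ≠ ⊥)
    (ind : ∀ (s : Finset ℕ) (u : ℕ → V), (∀ j, u j ∈ W j) → ∑ j ∈ s, u j = 0 →
      ∀ j ∈ s, u j = 0)
    (A : ℕ → Submodule K (Module.End K V))
    (dens : ∀ (l : ℕ) (d : Fin l → ℕ) (u : Fin l → V), (∀ i, u i ∈ W (d i)) →
      LinearIndependent K u → ∃ n0, ∀ N, n0 ≤ N → ∀ w : Fin l → V,
        (∀ i, w i ∈ W (N + d i)) → ∃ a ∈ A N, ∀ i, a (u i) = w i)
    (ad : V →ₗ[K] Module.End K V) (t N1 : ℕ) (β : Type) [Fintype β]
    (op : β → Module.End K V) (dg : β → ℕ)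
    (step4 : ∀ N, N1 ≤ N → ∀ a ∈ A N, ∃ x : β → V, (∀ b, x b ∈ W (N - dg b)) ∧
      ∀ m, t < m → ∀ v ∈ W m, a v = ∑ b, op b (ad (x b) v)) :
    False := by
  classical
  set l := Fintype.card β + 1 with hl
  -- nonzero vectors in the degrees `t + 1, …`
  have h1 : ∀ i : Fin l, ∃ u ∈ W (t + 1 + i), u ≠ 0 := fun i =>
    Submodule.exists_mem_ne_zero_of_ne_bot (hne _ (by omega))
  choose u huW hu0 using h1
  have hli : LinearIndependent K u := by
    rw [Fintype.linearIndependent_iff]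
    intro g hg i
    let u' : ℕ → V := fun j => if h : t + 1 ≤ j ∧ j < t + 1 + l then
      g ⟨j - (t + 1), by omega⟩ • u ⟨j - (t + 1), by omega⟩ else 0
    have hu' : ∀ j, u' j ∈ W j := by
      intro j
      simp only [u']
      split_ifs with h
      · have := huW ⟨j - (t + 1), by omega⟩
        simp only [show t + 1 + (j - (t + 1)) = j by omega] at this
        exact Submodule.smul_mem _ _ this
      · exact Submodule.zero_mem _
    have hsum : ∑ j ∈ Ico (t + 1) (t + 1 + l), u' j = 0 := by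
      rw [← hg, sum_Ico_eq_sum_range]
      rw [show t + 1 + l - (t + 1) = l by omega, ← Fin.sum_univ_eq_sum_range]
      refine sum_congr rfl fun j _ => ?_
      simp only [u']
      rw [dif_pos (by omega)]
      simp only [show t + 1 + (j : ℕ) - (t + 1) = j by omega, Fin.eta]
    have h3 := ind _ u' hu' hsum (t + 1 + i) (mem_Ico.2 (by omega))
    simp only [u'] at h3
    rw [dif_pos (by omega)] at h3
    simp only [show t + 1 + (i : ℕ) - (t + 1) = i by omega, Fin.eta] at h3
    exact (smul_eq_zero.1 h3).resolve_right (hu0 i)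
  obtain ⟨n0, hn0⟩ := dens l (fun i => t + 1 + i) u huW hli
  refine e1_num (fun m => Module.finrank K (W m)) ?_ β dg l (by omega)
    (fun i => t + 1 + i) (max n0 N1) ?_
  · intro m hm
    have := hfin m
    exact Nat.one_le_iff_ne_zero.2 fun h0 => hne m hm (Submodule.finrank_eq_zero.1 h0)
  · intro N hN
    have : ∀ i, FiniteDimensional K (W i) := hfin
    -- the linear map
    let Φ : ((b : β) → W (N - dg b)) →ₗ[K] (Fin l → V) :=
      LinearMap.pi fun i => ∑ b, (op b) ∘ₗ ((LinearMap.applyₗ (u i)) ∘ₗ ad ∘ₗ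
        (W (N - dg b)).subtype ∘ₗ LinearMap.proj b)
    have hΦ : ∀ x i, Φ x i = ∑ b, op b (ad (x b) (u i)) := by
      intro x i
      simp [Φ]
    let Ψ : ((i : Fin l) → W (N + (t + 1 + i))) →ₗ[K] (Fin l → V) :=
      LinearMap.pi fun i => (W (N + (t + 1 + i))).subtype ∘ₗ LinearMap.proj i
    have hΨ : ∀ x i, Ψ x i = (x i : V) := fun x i => rfl
    have hΨinj : Function.Injective Ψ := by
      intro x y hxy
      funext i
      exact Subtype.ext (by rw [← hΨ, ← hΨ, hxy])
    have hle : LinearMap.range Ψ ≤ LinearMap.range Φ := by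
      rintro _ ⟨w, rfl⟩
      obtain ⟨a, ha, hau⟩ := hn0 N ((le_max_left _ _).trans hN) (fun i => (w i : V))
        (fun i => (w i).2)
      obtain ⟨x, hx, hax⟩ := step4 N ((le_max_right _ _).trans hN) a ha
      refine ⟨fun b => ⟨x b, hx b⟩, ?_⟩
      funext i
      rw [hΦ, hΨ, ← hau i, hax (t + 1 + i) (by omega) (u i) (huW i)]
    have h5 : Module.finrank K (LinearMap.range Ψ) ≤ Module.finrank K (LinearMap.range Φ) :=
      Submodule.finrank_mono hle
    rw [LinearMap.finrank_range_of_inj hΨinj, Module.finrank_pi_fintype] at h5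
    refine h5.trans ((LinearMap.finrank_range_le Φ).trans ?_)
    rw [Module.finrank_pi_fintype]

end ZLM
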