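import Pool.Agent.ZLM.GJ

/-! Block G of project ZLM: eventual homomorphisms are scalars, lemma G, density -/

set_option autoImplicit false

namespace Pool.Agent.ZLM.JM

open Module Submodule

section
variable {K V : Type*} [Field K] [AddCommGroup V] [Module K V]

/-- the family `i ↦ N (i - a)` for `i ≥ m1 + a`, `⊥` below -/
theorem JIM.ji_shift {W : ℕ → Submodule K V} {X : Set (Module.End K V)} (h : JIM W X)
    (N : ℕ → Submodule K V) (a m1 : ℕ) (hN : ∀ m, m1 ≤ m → ∀ v ∈ N m, v ∈ W (m + a))
    (hact : ∀ m, m1 ≤ m → ∀ x ∈ X, ∀ v ∈ N m, x v ∈ N (m + 1))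
    (hne : ∃ m, m1 ≤ m ∧ ∃ v ∈ N m, v ≠ 0) :
    ∃ m2, m1 ≤ m2 ∧ ∀ m, m2 ≤ m → ∀ v ∈ W (m + a), v ∈ N m := by
  obtain ⟨m2, hm2⟩ := h.ji (fun i => N (i - a)) (m1 + a) (by
    intro m hm v hv
    have := hN (m - a) (by omega) v hv
    rwa [Nat.sub_add_cancel (by omega)] at this) (by
    intro m hm x hx v hv
    have := hact (m - a) (by omega) x hx v hv
    rwa [show m - a + 1 = m + 1 - a by omega] at this) (by
    obtain ⟨m, hm, v, hv, hv0⟩ := hne
    refine ⟨m + a, by omega, ?_⟩
    rw [Nat.add_sub_cancel]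
    intro hb
    rw [hb] at hv
    exact hv0 ((Submodule.mem_bot K).1 hv))
  refine ⟨max m1 m2, le_max_left _ _, fun m hm v hv => ?_⟩
  have h1 := hm2 (m + a) (by omega)
  rw [← h1] at hv
  simpa using hv

theorem EHom.scalar [IsAlgClosed K] {W : ℕ → Submodule K V} {X : Set (Module.End K V)}
    (h : JIM W X) {a b m1 : ℕ} {Γ : ℕ → Submodule K (V × V)} (hΓ : EHom W X a b m1 Γ)
    (hno : a ≠ b → ∀ m1' Γ', ¬ EIso W X a b m1' Γ') :
    ∃ (c : K) (m2 : ℕ), m1 ≤ m2 ∧ (a ≠ b → c = 0) ∧ ∀ m, m2 ≤ m → ∀ p ∈ Γ m, p.2 = c • p.1 := by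
  by_cases hker : ∃ m, m1 ≤ m ∧ ∃ v, (v, (0 : V)) ∈ Γ m ∧ v ≠ 0
  · obtain ⟨m2, hm12, hm2⟩ := h.ji_shift (fun m => (Γ m).comap (LinearMap.inl K V V)) a m1
      (fun m hm v hv => hΓ.le1 m hm _ hv)
      (fun m hm x hx v hv => by
        have := hΓ.act m hm x hx _ hv
        simpa using this)
      (by
        obtain ⟨m, hm, v, hv, hv0⟩ := hker
        exact ⟨m, hm, v, hv, hv0⟩)
    refine ⟨0, m2, hm12, fun _ => rfl, fun m hm p hp => ?_⟩
    have h1 : (p.1, (0 : V)) ∈ Γ m := hm2 m hm _ (hΓ.le1 m (by omega) _ hp)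
    have h2 := Submodule.sub_mem _ hp h1
    have h3 : p - (p.1, (0 : V)) = (0, p.2) := by ext <;> simp
    rw [h3] at h2
    rw [zero_smul]
    exact hΓ.fn m (by omega) _ h2
  · push Not at hker
    obtain ⟨m2, hm12, hm2⟩ := h.ji_shift (fun m => (Γ m).map (LinearMap.snd K V V)) b m1
      (fun m hm v hv => by
        obtain ⟨p, hp, rfl⟩ := hv
        exact hΓ.le2 m hm _ hp)
      (fun m hm x hx v hv => by
        obtain ⟨p, hp, rfl⟩ := hv
        exact ⟨_, hΓ.act m hm x hx _ hp, rfl⟩)
      (by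
        obtain ⟨v, hv, hv0⟩ := Submodule.exists_mem_ne_zero_of_ne_bot (h.ne (max m1 1 + a) (by omega))
        obtain ⟨w, hw⟩ := hΓ.tot (max m1 1) (le_max_left _ _) v hv
        refine ⟨max m1 1, le_max_left _ _, w, ⟨_, hw, rfl⟩, fun hw0 => hv0 ?_⟩
        rw [hw0] at hw
        exact hker _ (le_max_left _ _) v hw)
    have hiso : EIso W X a b m2 Γ :=
      { le1 := fun m hm => hΓ.le1 m (by omega)
        le2 := fun m hm => hΓ.le2 m (by omega)
        act := fun m hm => hΓ.act m (by omega)
        tot := fun m hm => hΓ.tot m (by omega)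
        fn := fun m hm => hΓ.fn m (by omega)
        inj := fun m hm => hker m (by omega)
        srj := fun m hm w hw => by
          obtain ⟨p, hp, hpw⟩ := hm2 m hm w hw
          refine ⟨p.1, ?_⟩
          have : (p.1, w) = p := by
            ext
            · rfl
            · exact hpw.symm
          rw [this]; exact hp }
    by_cases hab : a = b
    · subst hab
      -- an eigenvector
      set m := max m2 1 with hm
      have hmm1 : m1 ≤ m := by omega
      have hfin := h.fin (m + a)
      have hnt : Nontrivial (W (m + a)) := Submodule.nontrivial_iff_ne_bot.2 (h.ne (m + a) (by omega))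
      let π : Γ m →ₗ[K] W (m + a) :=
        ((LinearMap.fst K V V).comp (Γ m).subtype).codRestrict (W (m + a))
          (fun p => hΓ.le1 m hmm1 p.1 p.2)
      let ψ : Γ m →ₗ[K] W (m + a) :=
        ((LinearMap.snd K V V).comp (Γ m).subtype).codRestrict (W (m + a))
          (fun p => hΓ.le2 m hmm1 p.1 p.2)
      have hπ : Function.Bijective π := by
        constructor
        · rw [injective_iff_map_eq_zero]
          rintro ⟨⟨v, w⟩, hvw⟩ h0
          have hv : v = 0 := by
            have := congrArg Subtype.val h0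
            simpa [π] using this
          subst hv
          have := hΓ.fn m hmm1 w hvw
          subst this
          rfl
        · rintro ⟨v, hv⟩
          obtain ⟨w, hw⟩ := hΓ.tot m hmm1 v hv
          exact ⟨⟨(v, w), hw⟩, rfl⟩
      let e : Γ m ≃ₗ[K] W (m + a) := LinearEquiv.ofBijective π hπ
      let φ : Module.End K (W (m + a)) := ψ.comp e.symm.toLinearMap
      have hφ : ∀ v : W (m + a), ((v : V), ((φ v : W (m + a)) : V)) ∈ Γ m := by
        intro v
        have h1 : π (e.symm v) = v := e.apply_symm_apply v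
        have h2 : ((e.symm v : Γ m) : V × V).1 = v := by
          have := congrArg Subtype.val h1
          simpa [π] using this
        have h3 : ((e.symm v : Γ m) : V × V).2 = ((φ v : W (m + a)) : V) := rfl
        rw [← h2, ← h3]
        exact (e.symm v).2
      obtain ⟨c, hc⟩ := Module.End.exists_eigenvalue φ
      obtain ⟨v, hv⟩ := hc.exists_hasEigenvector
      have hv1 : φ v = c • v := hv.apply_eq_smul
      have hv0 : v ≠ 0 := hv.2
      obtain ⟨m3, hm13, hm3⟩ := h.ji_shift
        (fun m => (Γ m).comap (LinearMap.prod LinearMap.id (c • LinearMap.id))) a m1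
        (fun m hm v hv => hΓ.le1 m hm _ hv)
        (fun m hm x hx v hv => by
          have := hΓ.act m hm x hx _ hv
          simpa using this)
        ⟨m, hmm1, v, by
          have := hφ v
          rw [hv1] at this
          simpa using this, fun h0 => hv0 (Subtype.ext h0)⟩
      refine ⟨c, m3, hm13, fun hne => absurd rfl hne, fun m hm p hp => ?_⟩
      have h1 : (p.1, c • p.1) ∈ Γ m := by
        have := hm3 m hm _ (hΓ.le1 m (by omega) _ hp)
        simpa using this
      have h2 := Submodule.sub_mem _ hp h1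
      have h3 : p - (p.1, c • p.1) = (0, p.2 - c • p.1) := by ext <;> simp
      rw [h3] at h2
      exact sub_eq_zero.1 (hΓ.fn m (by omega) _ h2)
    · exact absurd hiso (hno hab m2 Γ)

/-- LEMMA G -/
theorem lemma_G [IsAlgClosed K] {W : ℕ → Submodule K V} {X : Set (Module.End K V)}
    (h : JIM W X) {ι : Type*} [Fintype ι] [DecidableEq ι] (d : ι → ℕ) (N : ℕ → Submodule K (ι → V))
    (m0 : ℕ) (hN : ∀ m, m0 ≤ m → ∀ f ∈ N m, ∀ i, f i ∈ W (m + d i))
    (hact : ∀ m, m0 ≤ m → ∀ x ∈ X, ∀ f ∈ N m, (fun i => x (f i)) ∈ N (m + 1))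
    (hno : ∀ i j, d i ≠ d j → ∀ m1 Γ, ¬ EIso W X (d i) (d j) m1 Γ) (s : Finset ι) :
    (∃ m1, m0 ≤ m1 ∧ ∀ m, m1 ≤ m → ∀ g : ι → V, (∀ i ∈ s, g i ∈ W (m + d i)) →
      ∃ f ∈ N m, ∀ i ∈ s, f i = g i) ∨
    ∃ c : ι → K, c ≠ 0 ∧ (∃ e, ∀ i, c i ≠ 0 → d i = e) ∧ (∀ i, i ∉ s → c i = 0) ∧
      ∃ m1, m0 ≤ m1 ∧ ∀ m, m1 ≤ m → ∀ f ∈ N m, ∑ i, c i • f i = 0 := by
  induction s using Finset.induction_on with
  | empty =>
    left
    exact ⟨m0, le_rfl, fun m _ g _ => ⟨0, Submodule.zero_mem _, by simp⟩⟩
  | insert k s hk ih =>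
    rcases ih with ⟨m1, hm01, hm1⟩ | ⟨c, hc, he, hcs, hm⟩
    swap
    · right
      exact ⟨c, hc, he, fun i hi => hcs i fun h' => hi (Finset.mem_insert_of_mem h'), hm⟩
    let Z : ℕ → Submodule K V := fun m =>
      { carrier := {v | ∃ f ∈ N m, (∀ i ∈ s, f i = 0) ∧ f k = v}
        zero_mem' := ⟨0, Submodule.zero_mem _, by simp, rfl⟩
        add_mem' := by
          rintro _ _ ⟨f, hf, hf0, rfl⟩ ⟨g, hg, hg0, rfl⟩
          exact ⟨f + g, Submodule.add_mem _ hf hg, fun i hi => by simp [hf0 i hi, hg0 i hi], rfl⟩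
        smul_mem' := by
          rintro c _ ⟨f, hf, hf0, rfl⟩
          exact ⟨c • f, Submodule.smul_mem _ _ hf, fun i hi => by simp [hf0 i hi], rfl⟩ }
    by_cases hZ : ∃ m, m1 ≤ m ∧ ∃ v ∈ Z m, v ≠ 0
    · left
      obtain ⟨m2, hm12, hm2⟩ := h.ji_shift Z (d k) m1
        (by
          rintro m hm _ ⟨f, hf, _, rfl⟩
          exact hN m (by omega) f hf k)
        (by
          rintro m hm x hx _ ⟨f, hf, hf0, rfl⟩
          exact ⟨_, hact m (by omega) x hx f hf, fun i hi => by simp [hf0 i hi], rfl⟩) hZ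
      refine ⟨m2, by omega, fun m hm g hg => ?_⟩
      obtain ⟨f, hf, hfg⟩ := hm1 m (by omega) g fun i hi => hg i (Finset.mem_insert_of_mem hi)
      obtain ⟨f', hf', hf'0, hf'k⟩ := hm2 m hm (g k - f k)
        (Submodule.sub_mem _ (hg k (Finset.mem_insert_self _ _)) (hN m (by omega) f hf k))
      refine ⟨f + f', Submodule.add_mem _ hf hf', fun i hi => ?_⟩
      rcases Finset.mem_insert.1 hi with rfl | hi
      · rw [Pi.add_apply, hf'k]; abel
      · rw [Pi.add_apply, hf'0 i hi, hfg i hi, add_zero]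
    · right
      push Not at hZ
      let Γ : ι → ℕ → Submodule K (V × V) := fun i m =>
        { carrier := {p | ∃ f ∈ N m, f i = p.1 ∧ (∀ j ∈ s, j ≠ i → f j = 0) ∧ f k = p.2}
          zero_mem' := ⟨0, Submodule.zero_mem _, rfl, by simp, rfl⟩
          add_mem' := by
            rintro _ _ ⟨f, hf, hf1, hf0, hf2⟩ ⟨g, hg, hg1, hg0, hg2⟩
            exact ⟨f + g, Submodule.add_mem _ hf hg, by simp [hf1, hg1],
              fun i hi hne => by simp [hf0 i hi hne, hg0 i hi hne], by simp [hf2, hg2]⟩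
          smul_mem' := by
            rintro c _ ⟨f, hf, hf1, hf0, hf2⟩
            exact ⟨c • f, Submodule.smul_mem _ _ hf, by simp [hf1],
              fun i hi hne => by simp [hf0 i hi hne], by simp [hf2]⟩ }
      have hΓ : ∀ i ∈ s, EHom W X (d i) (d k) m1 (Γ i) := by
        intro i hi
        refine ⟨?_, ?_, ?_, ?_, ?_⟩
        · rintro m hm p ⟨f, hf, hf1, hf0, hf2⟩
          rw [← hf1]; exact hN m (by omega) f hf i
        · rintro m hm p ⟨f, hf, hf1, hf0, hf2⟩
          rw [← hf2]; exact hN m (by omega) f hf k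
        · rintro m hm x hx p ⟨f, hf, hf1, hf0, hf2⟩
          exact ⟨_, hact m (by omega) x hx f hf, by simp [hf1],
            fun j hj hne => by simp [hf0 j hj hne], by simp [hf2]⟩
        · intro m hm v hv
          obtain ⟨f, hf, hfg⟩ := hm1 m hm (fun j => if j = i then v else 0) (by
            intro j _
            by_cases hj : j = i
            · subst hj; simpa using hv
            · simp [hj])
          refine ⟨f k, f, hf, ?_, ?_, rfl⟩
          · rw [hfg i hi]; simp
          · intro j hj hne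
            rw [hfg j hj]; simp [hne]
        · rintro m hm w ⟨f, hf, hf1, hf0, hf2⟩
          refine hZ m hm w ⟨f, hf, fun j hj => ?_, hf2⟩
          by_cases hji : j = i
          · subst hji; exact hf1
          · exact hf0 j hj hji
      have hsc : ∀ i, ∃ (c : K) (m2 : ℕ), i ∈ s → (m1 ≤ m2 ∧ (d i ≠ d k → c = 0) ∧
          ∀ m, m2 ≤ m → ∀ p ∈ Γ i m, p.2 = c • p.1) := by
        intro i
        by_cases hi : i ∈ s
        · obtain ⟨c, m2, h1, h2, h3⟩ := (hΓ i hi).scalar h (hno i k)
          exact ⟨c, m2, fun _ => ⟨h1, h2, h3⟩⟩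
        · exact ⟨0, 0, fun h' => absurd h' hi⟩
      choose c m2 hcm using hsc
      set m3 := m1 + ∑ i ∈ s, m2 i with hm3
      have hm3i : ∀ i ∈ s, m2 i ≤ m3 := fun i hi =>
        (Finset.single_le_sum (f := m2) (fun _ _ => Nat.zero_le _) hi).trans (by omega)
      refine ⟨fun i => if i = k then 1 else if i ∈ s then - c i else 0, ?_, ⟨d k, ?_⟩, ?_, m3,
        by omega, ?_⟩
      · intro h0
        have := congrFun h0 k
        simp at this
      · intro i hi
        by_cases hik : i = k
        · rw [hik]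
        · by_cases his : i ∈ s
          · by_contra hd
            apply hi
            simp [hik, his, (hcm i his).2.1 hd]
          · simp [hik, his] at hi
      · intro i hi
        rw [Finset.mem_insert, not_or] at hi
        simp [hi.1, hi.2]
      · intro m hm f hf
        have hch : ∀ i, ∃ g, i ∈ s → (g ∈ N m ∧ g i = f i ∧ (∀ j ∈ s, j ≠ i → g j = 0) ∧
            g k = c i • f i) := by
          intro i
          by_cases hi : i ∈ s
          · obtain ⟨w, g, hg, hg1, hg0, hg2⟩ := (hΓ i hi).tot m (by omega) (f i)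
              (hN m (by omega) f hf i)
            have h1 := (hcm i hi).2.2 m ((hm3i i hi).trans hm) (f i, w) ⟨g, hg, hg1, hg0, hg2⟩
            exact ⟨g, fun _ => ⟨hg, hg1, hg0, by rw [hg2]; exact h1⟩⟩
          · exact ⟨0, fun h' => absurd h' hi⟩
        choose g hg using hch
        have hsub : f - ∑ i ∈ s, g i ∈ N m :=
          Submodule.sub_mem _ hf (Submodule.sum_mem _ fun i hi => (hg i hi).1)
        have hzero : (f - ∑ i ∈ s, g i) k = 0 := by
          refine hZ m (by omega) _ ⟨_, hsub, fun j hj => ?_, rfl⟩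
          rw [Pi.sub_apply, Finset.sum_apply, Finset.sum_eq_single j, (hg j hj).2.1, sub_self]
          · intro i hi hij
            exact (hg i hi).2.2.1 j hj (Ne.symm hij)
          · intro hj'; exact absurd hj hj'
        rw [Pi.sub_apply, Finset.sum_apply, sub_eq_zero] at hzero
        have h1 : ∑ i, (if i = k then (1 : K) else if i ∈ s then - c i else 0) • f i
            = f k - ∑ i ∈ s, c i • f i := by
          have h2 : ∀ i, (if i = k then (1 : K) else if i ∈ s then - c i else 0) • f i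
              = (if i = k then f i else 0) - (if i ∈ s then c i • f i else 0) := by
            intro i
            by_cases hik : i = k
            · subst hik; simp [hk]
            · by_cases his : i ∈ s
              · simp [hik, his]
              · simp [hik, his]
          rw [Finset.sum_congr rfl fun i _ => h2 i, Finset.sum_sub_distrib, Finset.sum_ite_eq',
            if_pos (Finset.mem_univ _), Finset.sum_ite_mem, Finset.univ_inter]
        rw [h1, hzero, sub_eq_zero]
        exact Finset.sum_congr rfl fun i hi => (hg i hi).2.2.2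

end

end Pool.Agent.ZLM.JM
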