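import Pool.Agent.ZLM.Defs
import Pool.Agent.ZLM.GL

/-! Block G of project ZLM: density, and the bridge to graded Lie algebras -/

set_option autoImplicit false

namespace Pool.Agent.ZLM

open Module Submodule

namespace JM

section
variable {K V : Type*} [Field K] [AddCommGroup V] [Module K V]

theorem EIso.flip {W : ℕ → Submodule K V} {X : Set (Module.End K V)} {a b m1 : ℕ}
    {Γ : ℕ → Submodule K (V × V)} (h : EIso W X a b m1 Γ) :
    EIso W X b a m1 (fun m => (Γ m).comap (LinearEquiv.prodComm K V V).toLinearMap) where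
  le1 := fun m hm _ hp => h.le2 m hm _ hp
  le2 := fun m hm _ hp => h.le1 m hm _ hp
  act := fun m hm x hx _ hp => h.act m hm x hx _ hp
  tot := fun m hm w hw => h.srj m hm w hw
  fn := fun m hm v hv => h.inj m hm v hv
  inj := fun m hm w hw => h.fn m hm w hw
  srj := fun m hm v hv => h.tot m hm v hv

theorem JIM.pow_deg {W : ℕ → Submodule K V} {X : Set (Module.End K V)} (h : JIM W X) (m : ℕ) :
    ∀ a ∈ (span K X) ^ m, ∀ j, ∀ v ∈ W j, a v ∈ W (m + j) := by
  induction m with
  | zero =>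
    intro a ha j v hv
    rw [pow_zero] at ha
    obtain ⟨c, rfl⟩ := Submodule.mem_one.1 ha
    rw [Module.algebraMap_end_apply, zero_add]
    exact Submodule.smul_mem _ _ hv
  | succ m ih =>
    intro a ha j v hv
    rw [pow_succ'] at ha
    induction ha using Submodule.mul_induction_on' with
    | mem_mul_mem x hx b hb =>
      have h1 := ih b hb j v hv
      rw [Module.End.mul_apply]
      induction hx using Submodule.span_induction with
      | mem y hy =>
        have := h.deg y hy _ _ h1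
        rwa [show m + j + 1 = m + 1 + j by ring] at this
      | zero => rw [LinearMap.zero_apply]; exact Submodule.zero_mem _
      | add y z _ _ hy hz => rw [LinearMap.add_apply]; exact Submodule.add_mem _ hy hz
      | smul c y _ hy => rw [LinearMap.smul_apply]; exact Submodule.smul_mem _ _ hy
    | add x _ y _ hx hy => rw [LinearMap.add_apply]; exact Submodule.add_mem _ hx hy

theorem density [IsAlgClosed K] {W : ℕ → Submodule K V} {X : Set (Module.End K V)}
    (h : JIM W X) (hNP : NoPer W X) {ι : Type*} [Fintype ι] [DecidableEq ι] (d : ι → ℕ)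
    (u : ι → V) (hu : ∀ i, u i ∈ W (d i)) (hli : LinearIndependent K u) :
    ∃ n0, ∀ N, n0 ≤ N → ∀ w : ι → V, (∀ i, w i ∈ W (N + d i)) →
      ∃ a ∈ (span K X) ^ N, ∀ i, a (u i) = w i := by
  let ev : Module.End K V →ₗ[K] (ι → V) := LinearMap.pi fun i => LinearMap.applyₗ (u i)
  have hev : ∀ a i, ev a i = a (u i) := fun a i => rfl
  rcases lemma_G h d (fun m => ((span K X) ^ m).map ev) 0
    (by
      rintro m _ _ ⟨a, ha, rfl⟩ i
      rw [hev]; exact h.pow_deg m a ha _ _ (hu i))
    (by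
      rintro m _ x hx _ ⟨a, ha, rfl⟩
      refine ⟨x * a, ?_, rfl⟩
      rw [pow_succ']
      exact Submodule.mul_mem_mul (Submodule.subset_span hx) ha)
    (by
      intro i j hij m1 Γ hΓ
      rcases lt_or_gt_of_ne hij with h1 | h1
      · exact hNP _ _ _ h1 _ hΓ
      · exact hNP _ _ _ h1 _ hΓ.flip) Finset.univ with ⟨m1, -, hm1⟩ | ⟨c, hc, ⟨e, he⟩, -, m1, -, hm1⟩
  · refine ⟨m1, fun N hN w hw => ?_⟩
    obtain ⟨_, ⟨a, ha, rfl⟩, hf⟩ := hm1 N hN w fun i _ => hw i
    exact ⟨a, ha, fun i => hf i (Finset.mem_univ i)⟩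
  · exfalso
    set z : V := ∑ i, c i • u i with hz
    have hz0 : z ≠ 0 := by
      intro h0
      rw [Fintype.linearIndependent_iff] at hli
      exact hc (funext (hli c h0))
    have hzW : z ∈ W e := by
      refine Submodule.sum_mem _ fun i _ => ?_
      by_cases hi : c i = 0
      · rw [hi, zero_smul]; exact Submodule.zero_mem _
      · rw [← he i hi]; exact Submodule.smul_mem _ _ (hu i)
    obtain ⟨m2, -, hm2⟩ := h.ji_shift (fun m => ((span K X) ^ m).map (LinearMap.applyₗ z)) e 0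
      (by
        rintro m _ _ ⟨a, ha, rfl⟩
        exact h.pow_deg m a ha _ _ hzW)
      (by
        rintro m _ x hx _ ⟨a, ha, rfl⟩
        refine ⟨x * a, ?_, rfl⟩
        rw [pow_succ']
        exact Submodule.mul_mem_mul (Submodule.subset_span hx) ha)
      ⟨0, le_rfl, z, ⟨1, by simp [Submodule.one_le.mp le_rfl], rfl⟩, hz0⟩
    obtain ⟨v, hv, hv0⟩ := Submodule.exists_mem_ne_zero_of_ne_bot
      (h.ne (max m1 m2 + 1 + e) (by omega))
    obtain ⟨a, ha, hav⟩ := hm2 (max m1 m2 + 1) (by omega) v hv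
    have h1 := hm1 (max m1 m2 + 1) (by omega) (ev a) ⟨a, ha, rfl⟩
    apply hv0
    rw [← hav]
    show a z = 0
    rw [hz, map_sum]
    rw [← h1]
    exact Finset.sum_congr rfl fun i _ => by rw [map_smul, hev]

end

end JM

section

universe u v

variable {K : Type u} [Field K] {G : Type v} [LieRing G] [LieAlgebra K G]

/-- the operators `ad x`, `x ∈ V 1` -/
def adX (V : ℕ → Submodule K G) : Set (Module.End K G) := {a | ∃ x ∈ V 1, a = LieAlgebra.ad K G x}

theorem ad_brk (x y : G) : LieAlgebra.ad K G ⁅x, y⁆ =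
    LieAlgebra.ad K G x * LieAlgebra.ad K G y - LieAlgebra.ad K G y * LieAlgebra.ad K G x := by
  ext z
  rw [LinearMap.sub_apply, Module.End.mul_apply, Module.End.mul_apply, LieAlgebra.ad_apply,
    LieAlgebra.ad_apply, LieAlgebra.ad_apply, LieAlgebra.ad_apply, LieAlgebra.ad_apply, lie_lie]

theorem span_adX (V : ℕ → Submodule K G) : span K (adX V) = A K (V 1) := by
  apply le_antisymm
  · rw [Submodule.span_le]
    rintro _ ⟨x, hx, rfl⟩
    exact ⟨x, hx, rfl⟩
  · rintro _ ⟨x, hx, rfl⟩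
    exact Submodule.subset_span ⟨x, hx, rfl⟩

theorem Gr.finV {V : ℕ → Submodule K G} (hV : Gr V) (i : ℕ) : FiniteDimensional K (V i) := by
  induction i with
  | zero => rw [hV.zero]; infer_instance
  | succ i ih =>
    rcases Nat.eq_zero_or_pos i with rfl | hi
    · exact hV.fin
    · let B : G →ₗ[K] G →ₗ[K] G := (LieAlgebra.ad K G : G →ₗ[K] Module.End K G)
      have h1 : V (i + 1) ≤ Submodule.map₂ B (V 1) (V i) := by
        intro z hz
        have := hV.gen i hi z hz
        refine (Submodule.span_le.2 ?_) this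
        rintro _ ⟨x, hx, y, hy, rfl⟩
        exact Submodule.apply_mem_map₂ B hx hy
      have h2 : (Submodule.map₂ B (V 1) (V i)).FG :=
        Submodule.FG.map₂ B ((Submodule.fg_iff_finiteDimensional _).2 hV.fin)
          ((Submodule.fg_iff_finiteDimensional _).2 ih)
      have h3 : FiniteDimensional K (Submodule.map₂ B (V 1) (V i)) :=
        (Submodule.fg_iff_finiteDimensional _).1 h2
      exact Submodule.finiteDimensional_of_le h1

theorem JustInf.jim {V : ℕ → Submodule K G} (hV : JustInf V) : JM.JIM V (adX V) where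
  fin := hV.toGr.finV
  ne := hV.ne
  deg := by
    rintro _ ⟨x, hx, rfl⟩ i v hv
    rw [LieAlgebra.ad_apply, add_comm]
    exact hV.lie hx hv
  gen := by
    intro i hi z hz
    refine Submodule.span_mono ?_ (hV.gen i hi z hz)
    rintro _ ⟨x, hx, y, hy, rfl⟩
    exact ⟨_, ⟨x, hx, rfl⟩, y, hy, rfl⟩
  ind := by
    intro s u hu h0
    exact (iSupIndep_iff_finsetSum_eq_zero_imp_eq_zero V).1 hV.ind s u hu h0
  ji := by
    intro N m0 hN hact ⟨m, hm, hne⟩
    obtain ⟨i, hi, hNi⟩ := hV.just (fun i => if m0 ≤ i then N i else ⊥) (by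
      intro i
      by_cases h : m0 ≤ i
      · simp only [h, if_true]; exact hN i h
      · simp only [h, if_false]; exact bot_le) (by
      intro i x hx y hy
      by_cases h : m0 ≤ i
      · simp only [h, if_true] at hy
        have h2 : m0 ≤ i + 1 := by omega
        simp only [h2, if_true]
        exact hact i h _ ⟨x, hx, rfl⟩ y hy
      · simp only [h, if_false, Submodule.mem_bot] at hy
        rw [hy, lie_zero]
        exact Submodule.zero_mem _) ⟨m, by simp only [hm, if_true]; exact hne⟩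
    have hm0i : m0 ≤ i := by
      by_contra h
      simp only [h, if_false] at hNi
      exact hV.ne i hi hNi.symm
    simp only [hm0i, if_true] at hNi
    refine ⟨i, fun j hj => ?_⟩
    induction hj with
    | refl => exact hNi
    | @step j hj ih =>
      have hij : i ≤ j := hj
      apply le_antisymm (hN (j + 1) (by omega))
      intro z hz
      have h1 := hV.gen j (by omega) z hz
      refine (Submodule.span_le.2 ?_) h1
      rintro _ ⟨x, hx, y, hy, rfl⟩
      rw [← ih] at hy
      exact hact j (by omega) _ ⟨x, hx, rfl⟩ y hy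

theorem Gr.ad_mem_adjoin {V : ℕ → Submodule K G} (hV : Gr V) (i : ℕ) :
    ∀ z ∈ V i, LieAlgebra.ad K G z ∈ Algebra.adjoin K (adX V) := by
  induction i with
  | zero =>
    intro z hz
    rw [hV.zero, Submodule.mem_bot] at hz
    rw [hz, map_zero]
    exact Subalgebra.zero_mem _
  | succ i ih =>
    rcases Nat.eq_zero_or_pos i with rfl | hi
    · intro z hz
      exact Algebra.subset_adjoin ⟨z, hz, rfl⟩
    · intro z hz
      have h1 := hV.gen i hi z hz
      induction h1 using Submodule.span_induction with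
      | mem w hw =>
        obtain ⟨x, hx, y, hy, rfl⟩ := hw
        rw [ad_brk]
        have h2 : LieAlgebra.ad K G x ∈ Algebra.adjoin K (adX V) :=
          Algebra.subset_adjoin ⟨x, hx, rfl⟩
        exact Subalgebra.sub_mem _ (Subalgebra.mul_mem _ h2 (ih y hy))
          (Subalgebra.mul_mem _ (ih y hy) h2)
      | zero => rw [map_zero]; exact Subalgebra.zero_mem _
      | add a b ha hb iha ihb =>
        rw [map_add]
        exact Subalgebra.add_mem _ (iha (by
          refine (Submodule.span_le.2 ?_) ha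
          rintro _ ⟨x, hx, y, hy, rfl⟩
          rw [add_comm]; exact hV.lie hx hy)) (ihb (by
          refine (Submodule.span_le.2 ?_) hb
          rintro _ ⟨x, hx, y, hy, rfl⟩
          rw [add_comm]; exact hV.lie hx hy))
      | smul c a ha iha =>
        rw [map_smul]
        exact Subalgebra.smul_mem _ (iha (by
          refine (Submodule.span_le.2 ?_) ha
          rintro _ ⟨x, hx, y, hy, rfl⟩
          rw [add_comm]; exact hV.lie hx hy)) c

theorem JustInf.noPer {V : ℕ → Submodule K G} (hV : JustInf V) {M : Set G} {n : ℕ}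
    (hM : NilSet V M n) : JM.NoPer V (adX V) := by
  refine JM.noPer hV.jim {a | ∃ m ∈ M, a = LieAlgebra.ad K G m} ?_ ?_ ?_ ?_
  · rintro _ ⟨m, hm, rfl⟩ _ ⟨m', hm', rfl⟩
    refine ⟨⁅m, m'⁆, hM.lie m hm m' hm', ?_⟩
    rw [ad_brk]
  · rintro _ ⟨m, hm, rfl⟩
    exact ⟨n, hM.nil m hm⟩
  · rintro _ ⟨x, hx, rfl⟩
    have h1 := hM.spn 1 hx
    simp only [SetLike.mem_coe]
    have h2 : (LieAlgebra.ad K G : G →ₗ[K] Module.End K G) x ∈
        (span K (M ∩ V 1)).map (LieAlgebra.ad K G : G →ₗ[K] Module.End K G) := ⟨x, h1, rfl⟩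
    rw [Submodule.map_span] at h2
    refine Submodule.span_mono ?_ h2
    rintro _ ⟨m, hm, rfl⟩
    exact ⟨m, hm.1, rfl⟩
  · rintro _ ⟨m, hm, rfl⟩
    obtain ⟨i, hi⟩ := hM.hom m hm
    exact hV.toGr.ad_mem_adjoin i m hi

/-- graded density -/
theorem JustInf.dense [IsAlgClosed K] {V : ℕ → Submodule K G} (hV : JustInf V) {M : Set G} {n : ℕ}
    (hM : NilSet V M n) : Dense V := by
  intro k u d hu hli
  obtain ⟨n0, hn0⟩ := JM.density hV.jim (hV.noPer hM) d u hu hli
  refine ⟨n0, fun N hN w hw => ?_⟩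
  obtain ⟨a, ha, haw⟩ := hn0 N hN w fun i => by rw [add_comm]; exact hw i
  rw [span_adX] at ha
  exact ⟨a, ha, haw⟩

/-- a graded submodule of `G ^ s` without linear relations is everything in large degrees -/
theorem lem_s0 [IsAlgClosed K] {V : ℕ → Submodule K G} (hV : JustInf V) (s : ℕ)
    (N : ℕ → Submodule K (Fin s → G)) (hN : ∀ m, ∀ f ∈ N m, ∀ i, f i ∈ V m)
    (hact : ∀ m, ∀ x ∈ V 1, ∀ f ∈ N m, (fun i => ⁅x, f i⁆) ∈ N (m + 1))
    (hc : ∀ c : Fin s → K, c ≠ 0 → ¬ ∃ m0, ∀ m, m0 ≤ m → ∀ f ∈ N m, ∑ i, c i • f i = 0) :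
    ∃ m0, ∀ m, m0 ≤ m → ∀ f : Fin s → G, (∀ i, f i ∈ V m) → f ∈ N m := by
  rcases JM.lemma_G hV.jim (fun _ : Fin s => 0) N 0
    (fun m _ f hf i => hN m f hf i)
    (by
      rintro m _ _ ⟨x, hx, rfl⟩ f hf
      exact hact m x hx f hf)
    (fun i j hij => absurd rfl hij) Finset.univ with ⟨m1, -, hm1⟩ | ⟨c, hc0, -, -, m1, -, hm1⟩
  · refine ⟨m1, fun m hm f hf => ?_⟩
    obtain ⟨g, hg, hgf⟩ := hm1 m hm f fun i _ => hf i
    have : g = f := funext fun i => hgf i (Finset.mem_univ i)
    rwa [← this]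
  · exact absurd ⟨m1, hm1⟩ (hc c hc0)

end

universe u v

theorem lem_s {K : Type u} [Field K] {G : Type v} [LieRing G] [LieAlgebra K G]
    {V : ℕ → Submodule K G} [IsAlgClosed K] (hV : JustInf V) (s : ℕ)
    (N : ℕ → Submodule K (Fin s → G)) (hN : ∀ m, ∀ f ∈ N m, ∀ i, f i ∈ V m)
    (hc : ∀ m, ∀ x ∈ V 1, ∀ f ∈ N m, (fun i => ⁅x, f i⁆) ∈ N (m + 1))
    (hf : ∀ c : Fin s → K, c ≠ 0 → ∀ m₀, ∃ m, m₀ ≤ m ∧ ∃ f ∈ N m, ∑ i, c i • f i ≠ 0) :
    ∃ m₀, ∀ m, m₀ ≤ m → ∀ f : Fin s → G, (∀ i, f i ∈ V m) → f ∈ N m := by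
  refine lem_s0 hV s N hN hc fun c hc0 => ?_
  rintro ⟨m0, hm0⟩
  obtain ⟨m, hm, f, hfm, hne⟩ := hf c hc0 m0
  exact hne (hm0 m hm f hfm)

end Pool.Agent.ZLM
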