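import Pool.Agent.ZLM.Defs
import Pool.Agent.ZLM.GB
import Pool.Agent.ZLM.E1

/-! Block E of project ZLM: the bridge to the abstract count of dimensions -/

set_option autoImplicit false

namespace Pool.Agent.ZLM

open Module Submodule

universe u v

theorem JustInf.false_of_finOver {K : Type u} [Field K] {G : Type v} [LieRing G]
    [LieAlgebra K G] {V : ℕ → Submodule K G} (hV : JustInf V) (hD : Dense V) {t : ℕ}
    (hF : FinOver V t) : False := by
  obtain ⟨r, β, b, n₀, _, hred⟩ := hF
  refine _root_.ZLM.end_count V (fun i => hV.toGr.finV i) hV.ne (fun s u hu h0 => hV.jim.ind s u (fun j _ => hu j) h0)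
    (fun N => (A K (V 1)) ^ N) ?_ (LieAlgebra.ad K G : G →ₗ[K] Module.End K G) t n₀ (Fin r) β b ?_
  · intro l d u hu hli
    obtain ⟨n1, hn1⟩ := hD l u d hu hli
    refine ⟨n1, fun N hN w hw => hn1 N hN w fun i => ?_⟩
    rw [add_comm]
    exact hw i
  · intro N hN a ha
    obtain ⟨l, hl, hal⟩ := hred N hN a ha
    refine ⟨l, fun j => ?_, fun m hm v hv => ?_⟩
    · obtain ⟨M, hM, hlM⟩ := hl j
      have : M = N - b j := by omega
      rw [← this]
      exact hlM
    · exact hal m hm v hv

end Pool.Agent.ZLM
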