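import Mathlib

/-! Jacobson's theorem on weakly closed nil sets (finite dimensional) -/

set_option autoImplicit false

namespace Pool.Agent.ZLM.JM

open Module Submodule

variable {K Q : Type*} [Field K] [AddCommGroup Q] [Module K Q]

/-- words of length `k` in `T` vanish -/
def NilW (T : Set (Module.End K Q)) (k : ℕ) : Prop :=
  ∀ l : List (Module.End K Q), (∀ a ∈ l, a ∈ T) → l.length = k → l.prod = 0

theorem pow_eq_bot_of_nilW {T : Set (Module.End K Q)} {k : ℕ} (h : NilW T k) :
    (span K T) ^ k = ⊥ := by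
  rw [Submodule.span_pow, Submodule.span_eq_bot]
  intro x hx
  rw [Set.mem_pow] at hx
  obtain ⟨f, rfl⟩ := hx
  have := h (List.ofFn fun i => (f i : Module.End K Q)) (by
    intro a ha
    rw [List.mem_ofFn] at ha
    obtain ⟨i, rfl⟩ := ha
    exact (f i).2) (by simp)
  exact this

theorem nilW_of_pow_eq_bot {S : Submodule K (Module.End K Q)} {k : ℕ} (h : S ^ k = ⊥)
    {T : Set (Module.End K Q)} (hT : T ⊆ S) : NilW T k := by
  intro l hl hk
  have : ∀ l : List (Module.End K Q), (∀ a ∈ l, a ∈ T) → l.prod ∈ S ^ l.length := by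
    intro l
    induction l with
    | nil => intro _; simp [Submodule.one_le.mp le_rfl]
    | cons a l ih =>
      intro h
      rw [List.prod_cons, List.length_cons, pow_succ']
      exact Submodule.mul_mem_mul (hT (h a (by simp))) (ih fun b hb => h b (by simp [hb]))
  have h2 := this l hl
  rw [hk, h] at h2
  simpa using h2

/-- `m` normalises `S` then `m` normalises `S^j * ⊤` -/
theorem mul_mem_F {S : Submodule K (Module.End K Q)} {m : Module.End K Q}
    (hc : ∀ t ∈ S, t * m - m * t ∈ S) (j : ℕ) :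
    ∀ a ∈ S ^ j * (⊤ : Submodule K (Module.End K Q)),
      m * a ∈ S ^ j * (⊤ : Submodule K (Module.End K Q)) := by
  induction j with
  | zero => intro a _; simp
  | succ j ih =>
    intro a ha
    rw [pow_succ', mul_assoc] at ha ⊢
    induction ha using Submodule.mul_induction_on' with
    | mem_mul_mem s hs b hb =>
      have h1 : m * (s * b) = s * (m * b) - (s * m - m * s) * b := by noncomm_ring
      rw [h1]
      exact Submodule.sub_mem _ (Submodule.mul_mem_mul hs (ih b hb))
        (Submodule.mul_mem_mul (hc s hs) hb)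
    | add x _ y _ hx hy =>
      rw [mul_add]
      exact Submodule.add_mem _ hx hy

theorem F_anti (S : Submodule K (Module.End K Q)) (j : ℕ) :
    S ^ (j + 1) * (⊤ : Submodule K (Module.End K Q)) ≤ S ^ j * ⊤ := by
  rw [pow_succ, mul_assoc]
  exact mul_le_mul' le_rfl le_top

theorem pow_insert {S : Submodule K (Module.End K Q)} {m : Module.End K Q} {k n : ℕ}
    (hS : S ^ k = ⊥) (hm : m ^ n = 0) (hc : ∀ t ∈ S, t * m - m * t ∈ S) :
    (S ⊔ span K {m}) ^ (n * k) = ⊥ := by
  set U := S ⊔ span K {m} with hU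
  -- elements of `U` respect the filtration
  have hstab : ∀ j, ∀ u ∈ U, ∀ a ∈ S ^ j * (⊤ : Submodule K (Module.End K Q)),
      u * a ∈ S ^ j * (⊤ : Submodule K (Module.End K Q)) := by
    intro j u hu a ha
    rw [hU, Submodule.mem_sup] at hu
    obtain ⟨s, hs, c, hc', rfl⟩ := hu
    obtain ⟨c, rfl⟩ := Submodule.mem_span_singleton.1 hc'
    rw [add_mul]
    refine Submodule.add_mem _ (F_anti S j ?_) ?_
    · rw [pow_succ', mul_assoc]; exact Submodule.mul_mem_mul hs ha
    · rw [smul_mul_assoc]; exact Submodule.smul_mem _ _ (mul_mem_F hc j a ha)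
  have key : ∀ j i, ∀ u ∈ U ^ i, ∃ c : K, ∀ a ∈ S ^ j * (⊤ : Submodule K (Module.End K Q)),
      (u - c • m ^ i) * a ∈ S ^ (j + 1) * (⊤ : Submodule K (Module.End K Q)) ∧
      u * a ∈ S ^ j * (⊤ : Submodule K (Module.End K Q)) := by
    intro j i
    induction i with
    | zero =>
      intro u hu
      rw [pow_zero] at hu
      obtain ⟨c, rfl⟩ := Submodule.mem_one.1 hu
      refine ⟨c, fun a ha => ⟨?_, ?_⟩⟩
      · simp [Algebra.algebraMap_eq_smul_one]
      · rw [Algebra.algebraMap_eq_smul_one, smul_mul_assoc, one_mul]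
        exact Submodule.smul_mem _ _ ha
    | succ i ih =>
      intro u hu
      rw [pow_succ'] at hu
      induction hu using Submodule.mul_induction_on' with
      | mem_mul_mem s hs b hb =>
        obtain ⟨c, hcb⟩ := ih b hb
        have hs0 := hs
        rw [hU, Submodule.mem_sup] at hs
        obtain ⟨s, hs, e, he', rfl⟩ := hs
        obtain ⟨e, rfl⟩ := Submodule.mem_span_singleton.1 he'
        refine ⟨e * c, fun a ha => ⟨?_, ?_⟩⟩
        · have h1 : ((s + e • m) * b - (e * c) • m ^ (i + 1)) * a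
              = s * (b * a) + e • (m * ((b - c • m ^ i) * a)) := by
            rw [pow_succ']
            simp only [add_mul, sub_mul, mul_sub, smul_mul_assoc, mul_smul_comm, smul_sub, mul_smul,
              mul_assoc]
            abel
          rw [h1]
          refine Submodule.add_mem _ ?_ (Submodule.smul_mem _ _ ?_)
          · rw [pow_succ', mul_assoc]; exact Submodule.mul_mem_mul hs (hcb a ha).2
          · exact mul_mem_F hc (j + 1) _ (hcb a ha).1
        · rw [mul_assoc]; exact hstab j _ hs0 _ (hcb a ha).2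
      | add x _ y _ hx hy =>
        obtain ⟨c, hx⟩ := hx
        obtain ⟨e, hy⟩ := hy
        refine ⟨c + e, fun a ha => ⟨?_, ?_⟩⟩
        · have : (x + y - (c + e) • m ^ (i + 1)) * a
              = (x - c • m ^ (i + 1)) * a + (y - e • m ^ (i + 1)) * a := by
            simp only [add_mul, sub_mul, add_smul]; abel
          rw [this]
          exact Submodule.add_mem _ (hx a ha).1 (hy a ha).1
        · rw [add_mul]; exact Submodule.add_mem _ (hx a ha).2 (hy a ha).2
  have step : ∀ j, U ^ n * (S ^ j * (⊤ : Submodule K (Module.End K Q)))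
      ≤ S ^ (j + 1) * (⊤ : Submodule K (Module.End K Q)) := by
    intro j
    rw [Submodule.mul_le]
    intro u hu a ha
    obtain ⟨c, h⟩ := key j n u hu
    have := (h a ha).1
    rwa [hm, smul_zero, sub_zero] at this
  have all : ∀ j, U ^ (n * j) * (⊤ : Submodule K (Module.End K Q))
      ≤ S ^ j * (⊤ : Submodule K (Module.End K Q)) := by
    intro j
    induction j with
    | zero => simp
    | succ j ih =>
      rw [Nat.mul_succ, add_comm, pow_add, mul_assoc]
      exact (mul_le_mul' le_rfl ih).trans (step j)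
  have h1 := all k
  rw [hS, Submodule.bot_mul] at h1
  rw [eq_bot_iff]
  intro u hu
  have := h1 (Submodule.mul_mem_mul hu (Submodule.mem_top (x := (1 : Module.End K Q))))
  simpa using this

theorem F_anti' (S : Submodule K (Module.End K Q)) {i j : ℕ} (h : i ≤ j) :
    S ^ j * (⊤ : Submodule K (Module.End K Q)) ≤ S ^ i * ⊤ := by
  induction h with
  | refl => exact le_rfl
  | step _ ih => exact (F_anti S _).trans ih

/-- if `S^k = ⊥` some element of `M` outside `S` normalises `S` -/
theorem exists_normalising {S : Submodule K (Module.End K Q)} {M : Set (Module.End K Q)} {k : ℕ}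
    (hcl : ∀ a ∈ M, ∀ b ∈ M, a * b - b * a ∈ M) (hS : S ^ k = ⊥)
    (m0 : Module.End K Q) (hm0 : m0 ∈ M) (hm0S : m0 ∉ S) :
    ∃ m ∈ M, m ∉ S ∧ ∀ t ∈ M, t ∈ S → t * m - m * t ∈ S := by
  by_contra hcon
  push Not at hcon
  have all : ∀ N : ℕ, ∃ m ∈ M, m ∉ S ∧ ∀ j, ∀ b ∈ S ^ j * (⊤ : Submodule K (Module.End K Q)),
      m * b ∈ S ^ (N + j - k) * (⊤ : Submodule K (Module.End K Q)) := by
    intro N
    induction N with
    | zero =>
      refine ⟨m0, hm0, hm0S, fun j b hb => ?_⟩
      rcases le_or_gt j k with h | h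
      · have : 0 + j - k = 0 := by omega
        rw [this]; simp
      · have h2 := F_anti' S h.le hb
        rw [hS, Submodule.bot_mul, Submodule.mem_bot] at h2
        rw [h2, mul_zero]; exact Submodule.zero_mem _
    | succ N ih =>
      obtain ⟨m, hm, hmS, hD⟩ := ih
      obtain ⟨t, ht, htS, hnot⟩ := hcon m hm hmS
      refine ⟨t * m - m * t, hcl t ht m hm, hnot, fun j b hb => ?_⟩
      rw [sub_mul]
      refine Submodule.sub_mem _ ?_ ?_
      · have h1 := hD j b hb
        have h2 : t * m * b ∈ S ^ ((N + j - k) + 1) * (⊤ : Submodule K (Module.End K Q)) := by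
          rw [pow_succ', mul_assoc, mul_assoc]
          exact Submodule.mul_mem_mul htS h1
        exact F_anti' S (by omega) h2
      · have h1 : t * b ∈ S ^ (j + 1) * (⊤ : Submodule K (Module.End K Q)) := by
          rw [pow_succ', mul_assoc]
          exact Submodule.mul_mem_mul htS hb
        have h2 := hD (j + 1) _ h1
        rw [mul_assoc]
        exact F_anti' S (by omega) h2
  obtain ⟨m, hm, hmS, hD⟩ := all (2 * k)
  have h := hD 0 1 (by simp)
  have e : 2 * k + 0 - k = k := by omega
  rw [e, hS, Submodule.bot_mul, Submodule.mem_bot, mul_one] at h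
  exact hmS (h ▸ Submodule.zero_mem _)

/-- Jacobson: a weakly closed set of nilpotent endomorphisms of a finite dimensional space
generates a nilpotent algebra -/
theorem jacobson [FiniteDimensional K Q] (M : Set (Module.End K Q))
    (hcl : ∀ a ∈ M, ∀ b ∈ M, a * b - b * a ∈ M) (hnil : ∀ a ∈ M, IsNilpotent a) :
    ∃ k, (span K M) ^ k = ⊥ := by
  let P : Submodule K (Module.End K Q) → Prop := fun S =>
    S = span K {a | a ∈ M ∧ a ∈ S} ∧ (∀ a ∈ S, ∀ b ∈ S, a * b - b * a ∈ S) ∧ ∃ k, S ^ k = ⊥
  have hP0 : P ⊥ := by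
    refine ⟨?_, ?_, 1, by simp⟩
    · symm
      rw [Submodule.span_eq_bot]
      intro x hx
      exact (Submodule.mem_bot K).1 hx.2
    · intro a ha b hb
      rw [Submodule.mem_bot] at ha hb ⊢
      rw [ha, hb]; simp
  obtain ⟨S, hS, hmax⟩ := WellFounded.has_min
    (wellFounded_gt (α := Submodule K (Module.End K Q))) {S | P S} ⟨⊥, hP0⟩
  obtain ⟨hspan, hbr, k, hk⟩ := hS
  by_cases hMS : M ⊆ S
  · refine ⟨k, ?_⟩
    rw [eq_bot_iff, ← hk]
    exact pow_le_pow_left' (Submodule.span_le.2 hMS) k
  · exfalso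
    obtain ⟨m0, hm0, hm0S⟩ := Set.not_subset.1 hMS
    obtain ⟨m, hm, hmS, hn⟩ := exists_normalising hcl hk m0 hm0 hm0S
    have hn' : ∀ t ∈ S, t * m - m * t ∈ S := by
      intro t ht
      rw [hspan] at ht
      induction ht using Submodule.span_induction with
      | mem x hx => exact hn x hx.1 hx.2
      | zero => simp
      | add x y _ _ hx hy =>
        have : (x + y) * m - m * (x + y) = (x * m - m * x) + (y * m - m * y) := by noncomm_ring
        rw [this]; exact Submodule.add_mem _ hx hy
      | smul c x _ hx =>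
        have : (c • x) * m - m * (c • x) = c • (x * m - m * x) := by
          rw [smul_mul_assoc, mul_smul_comm, smul_sub]
        rw [this]; exact Submodule.smul_mem _ _ hx
    obtain ⟨n, hn0⟩ := hnil m hm
    have hPS' : P (S ⊔ span K {m}) := by
      refine ⟨?_, ?_, n * k, pow_insert hk hn0 hn'⟩
      · apply le_antisymm
        · refine sup_le ?_ ?_
          · conv_lhs => rw [hspan]
            exact Submodule.span_mono fun a ha => ⟨ha.1, Submodule.mem_sup_left ha.2⟩
          · rw [Submodule.span_le, Set.singleton_subset_iff]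
            exact Submodule.subset_span ⟨hm, Submodule.mem_sup_right (Submodule.mem_span_singleton_self m)⟩
        · rw [Submodule.span_le]
          intro a ha; exact ha.2
      · intro a ha b hb
        rw [Submodule.mem_sup] at ha hb
        obtain ⟨s, hs, c, hc, rfl⟩ := ha
        obtain ⟨s', hs', c', hc', rfl⟩ := hb
        obtain ⟨c, rfl⟩ := Submodule.mem_span_singleton.1 hc
        obtain ⟨c', rfl⟩ := Submodule.mem_span_singleton.1 hc'
        have : (s + c • m) * (s' + c' • m) - (s' + c' • m) * (s + c • m)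
            = (s * s' - s' * s) + c' • (s * m - m * s) - c • (s' * m - m * s') := by
          simp only [add_mul, mul_add, smul_mul_assoc, mul_smul_comm, smul_sub, smul_add,
            smul_smul, mul_comm c c']
          abel
        rw [this]
        refine Submodule.mem_sup_left (Submodule.sub_mem _ (Submodule.add_mem _ (hbr s hs s' hs')
          (Submodule.smul_mem _ _ (hn' s hs))) (Submodule.smul_mem _ _ (hn' s' hs')))
    refine hmax _ hPS' ?_
    refine lt_of_le_of_ne le_sup_left fun h => hmS ?_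
    rw [h]
    exact Submodule.mem_sup_right (Submodule.mem_span_singleton_self m)


section
variable {K V : Type*} [Field K] [AddCommGroup V] [Module K V]

/-- `W` is a just infinite graded module over the degree one operators `X` -/
structure JIM (W : ℕ → Submodule K V) (X : Set (Module.End K V)) : Prop where
  fin : ∀ i, FiniteDimensional K (W i)
  ne : ∀ i, 1 ≤ i → W i ≠ ⊥
  deg : ∀ x ∈ X, ∀ i, ∀ v ∈ W i, x v ∈ W (i + 1)
  gen : ∀ i, 1 ≤ i → W (i + 1) ≤ span K {u | ∃ x ∈ X, ∃ v ∈ W i, u = x v}
  ind : ∀ (s : Finset ℕ) (u : ℕ → V), (∀ j ∈ s, u j ∈ W j) → ∑ j ∈ s, u j = 0 → ∀ j ∈ s, u j = 0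
  ji : ∀ (N : ℕ → Submodule K V) (m0 : ℕ), (∀ m, m0 ≤ m → N m ≤ W m) →
    (∀ m, m0 ≤ m → ∀ x ∈ X, ∀ v ∈ N m, x v ∈ N (m + 1)) →
    (∃ m, m0 ≤ m ∧ N m ≠ ⊥) → ∃ m1, ∀ m, m1 ≤ m → N m = W m

/-- `A_N`: the span of the products of `N` elements of `X` -/
def AN (X : Set (Module.End K V)) (N : ℕ) : Submodule K (Module.End K V) := (span K X) ^ N

/-- graph of an eventual homomorphism `W (m+a) → W (m+b)`, `m ≥ m1` -/
structure EHom (W : ℕ → Submodule K V) (X : Set (Module.End K V)) (a b m1 : ℕ)
    (Γ : ℕ → Submodule K (V × V)) : Prop where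
  le1 : ∀ m, m1 ≤ m → ∀ p ∈ Γ m, p.1 ∈ W (m + a)
  le2 : ∀ m, m1 ≤ m → ∀ p ∈ Γ m, p.2 ∈ W (m + b)
  act : ∀ m, m1 ≤ m → ∀ x ∈ X, ∀ p ∈ Γ m, (x p.1, x p.2) ∈ Γ (m + 1)
  tot : ∀ m, m1 ≤ m → ∀ v ∈ W (m + a), ∃ w, (v, w) ∈ Γ m
  fn : ∀ m, m1 ≤ m → ∀ w, (0, w) ∈ Γ m → w = 0

/-- graph of an eventual isomorphism of degree `b - a` -/
structure EIso (W : ℕ → Submodule K V) (X : Set (Module.End K V)) (a b m1 : ℕ)
    (Γ : ℕ → Submodule K (V × V)) : Prop extends EHom W X a b m1 Γ where
  inj : ∀ m, m1 ≤ m → ∀ v, (v, 0) ∈ Γ m → v = 0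
  srj : ∀ m, m1 ≤ m → ∀ w ∈ W (m + b), ∃ v, (v, w) ∈ Γ m

/-- case B: no eventual isomorphism of positive degree -/
def NoPer (W : ℕ → Submodule K V) (X : Set (Module.End K V)) : Prop :=
  ∀ a b m1 : ℕ, a < b → ∀ Γ : ℕ → Submodule K (V × V), ¬ EIso W X a b m1 Γ

theorem sum_shift (h : ℕ → V) (c N : ℕ) :
    ∑ d ∈ Finset.range (N + c), (if c ≤ d then h (d - c) else 0) = ∑ m ∈ Finset.range N, h m := by
  induction N with
  | zero =>
    rw [Finset.range_zero, Finset.sum_empty]
    refine Finset.sum_eq_zero fun d hd => ?_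
    rw [Finset.mem_range] at hd
    rw [if_neg (by omega)]
  | succ N ih =>
    have : N + 1 + c = (N + c) + 1 := by ring
    rw [this, Finset.sum_range_succ, ih, Finset.sum_range_succ, if_pos (by omega)]
    congr 2
    omega

/-- elements of `R` -/
theorem mem_R {Γ : ℕ → Submodule K (V × V)} {m1 : ℕ} {u : V}
    (hu : u ∈ span K {z : V | ∃ m, m1 ≤ m ∧ ∃ p ∈ Γ m, z = p.2 - p.1}) :
    ∃ (f : ℕ → V × V) (M : ℕ), (∀ m, m1 ≤ m → f m ∈ Γ m) ∧ (∀ m, m < m1 → f m = 0) ∧
      (∀ m, M ≤ m → f m = 0) ∧ u = ∑ m ∈ Finset.range M, ((f m).2 - (f m).1) := by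
  induction hu using Submodule.span_induction with
  | mem x hx =>
    obtain ⟨m, hm, p, hp, rfl⟩ := hx
    refine ⟨fun i => if i = m then p else 0, m + 1, ?_, ?_, ?_, ?_⟩
    · intro i _
      by_cases h : i = m
      · subst h; simpa using hp
      · simp [h]
    · intro i hi
      have : i ≠ m := by omega
      simp [this]
    · intro i hi
      have : i ≠ m := by omega
      simp [this]
    · rw [Finset.sum_eq_single m]
      · simp
      · intro i _ hi
        simp [hi]
      · intro h
        exact absurd (Finset.mem_range.2 (Nat.lt_succ_self m)) h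
  | zero => exact ⟨fun _ => 0, 0, fun m _ => Submodule.zero_mem _, fun _ _ => rfl, fun _ _ => rfl, by simp⟩
  | add x y _ _ hx hy =>
    obtain ⟨f, M, hf1, hf2, hf3, rfl⟩ := hx
    obtain ⟨g, M', hg1, hg2, hg3, rfl⟩ := hy
    refine ⟨fun i => f i + g i, max M M', fun m hm => Submodule.add_mem _ (hf1 m hm) (hg1 m hm),
      fun m hm => by simp [hf2 m hm, hg2 m hm],
      fun m hm => by
        simp [hf3 m (le_trans (le_max_left _ _) hm), hg3 m (le_trans (le_max_right _ _) hm)],
      ?_⟩
    have e1 : ∑ m ∈ Finset.range M, ((f m).2 - (f m).1)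
        = ∑ m ∈ Finset.range (max M M'), ((f m).2 - (f m).1) := by
      refine Finset.sum_subset (Finset.range_mono (le_max_left _ _)) fun i _ hi => ?_
      rw [Finset.mem_range, not_lt] at hi
      rw [hf3 i hi]; simp
    have e2 : ∑ m ∈ Finset.range M', ((g m).2 - (g m).1)
        = ∑ m ∈ Finset.range (max M M'), ((g m).2 - (g m).1) := by
      refine Finset.sum_subset (Finset.range_mono (le_max_right _ _)) fun i _ hi => ?_
      rw [Finset.mem_range, not_lt] at hi
      rw [hg3 i hi]; simp
    rw [e1, e2, ← Finset.sum_add_distrib]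
    refine Finset.sum_congr rfl fun i _ => ?_
    simp only [Prod.snd_add, Prod.fst_add]
    abel
  | smul c x _ hx =>
    obtain ⟨f, M, hf1, hf2, hf3, rfl⟩ := hx
    refine ⟨fun i => c • f i, M, fun m hm => Submodule.smul_mem _ _ (hf1 m hm),
      fun m hm => by simp [hf2 m hm], fun m hm => by simp [hf3 m hm], ?_⟩
    rw [Finset.smul_sum]
    refine Finset.sum_congr rfl fun i _ => ?_
    simp only [Prod.smul_snd, Prod.smul_fst, smul_sub]

/-- no nonzero homogeneous element in `R` -/
theorem R_hom {W : ℕ → Submodule K V} {X : Set (Module.End K V)} (h : JIM W X) {a b m1 : ℕ}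
    (hab : a < b) {Γ : ℕ → Submodule K (V × V)} (hΓ : EIso W X a b m1 Γ) {u : V}
    (hu : u ∈ span K {z : V | ∃ m, m1 ≤ m ∧ ∃ p ∈ Γ m, z = p.2 - p.1}) {j : ℕ} (huj : u ∈ W j) :
    u = 0 := by
  obtain ⟨f, M, hf1, hf2, hf3, hfu⟩ := mem_R hu
  set g : ℕ → V := fun d => (if b ≤ d then (f (d - b)).2 else 0) - (if a ≤ d then (f (d - a)).1 else 0)
    with hg
  have hW1 : ∀ d, (if a ≤ d then (f (d - a)).1 else 0) ∈ W d := by
    intro d
    by_cases hd : a ≤ d
    · rw [if_pos hd]
      rcases lt_or_ge (d - a) m1 with h1 | h1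
      · rw [hf2 _ h1]; exact Submodule.zero_mem _
      · have := hΓ.le1 _ h1 _ (hf1 _ h1)
        rwa [Nat.sub_add_cancel hd] at this
    · rw [if_neg hd]; exact Submodule.zero_mem _
  have hW2 : ∀ d, (if b ≤ d then (f (d - b)).2 else 0) ∈ W d := by
    intro d
    by_cases hd : b ≤ d
    · rw [if_pos hd]
      rcases lt_or_ge (d - b) m1 with h1 | h1
      · rw [hf2 _ h1]; exact Submodule.zero_mem _
      · have := hΓ.le2 _ h1 _ (hf1 _ h1)
        rwa [Nat.sub_add_cancel hd] at this
    · rw [if_neg hd]; exact Submodule.zero_mem _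
  have hgW : ∀ d, g d ∈ W d := fun d => Submodule.sub_mem _ (hW2 d) (hW1 d)
  set T := max (M + b) (j + 1) with hT
  have hsum : ∑ d ∈ Finset.range T, g d = u := by
    have e1 : ∑ d ∈ Finset.range T, (if b ≤ d then (f (d - b)).2 else 0)
        = ∑ m ∈ Finset.range M, (f m).2 := by
      have : T = (T - b) + b := by omega
      rw [this, sum_shift (fun m => (f m).2) b (T - b)]
      symm
      refine Finset.sum_subset (Finset.range_mono (by omega)) fun i _ hi => ?_
      rw [Finset.mem_range, not_lt] at hi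
      rw [hf3 i hi]; rfl
    have e2 : ∑ d ∈ Finset.range T, (if a ≤ d then (f (d - a)).1 else 0)
        = ∑ m ∈ Finset.range M, (f m).1 := by
      have : T = (T - a) + a := by omega
      rw [this, sum_shift (fun m => (f m).1) a (T - a)]
      symm
      refine Finset.sum_subset (Finset.range_mono (by omega)) fun i _ hi => ?_
      rw [Finset.mem_range, not_lt] at hi
      rw [hf3 i hi]; rfl
    rw [hg, Finset.sum_sub_distrib, e1, e2, hfu, Finset.sum_sub_distrib]
  have hz : ∀ d ∈ Finset.range T, g d - (if d = j then u else 0) = 0 := by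
    apply h.ind
    · intro d _
      refine Submodule.sub_mem _ (hgW d) ?_
      by_cases hd : d = j
      · rw [if_pos hd, hd]; exact huj
      · rw [if_neg hd]; exact Submodule.zero_mem _
    · rw [Finset.sum_sub_distrib, hsum, Finset.sum_ite_eq', if_pos, sub_self]
      rw [Finset.mem_range]; omega
  have hz' : ∀ d, d ≠ j → g d = 0 := by
    intro d hd
    rcases lt_or_ge d T with h1 | h1
    · have := hz d (Finset.mem_range.2 h1)
      rwa [if_neg hd, sub_zero] at this
    · simp only [hg]
      have h2 : f (d - b) = 0 := hf3 _ (by omega)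
      have h3 : f (d - a) = 0 := hf3 _ (by omega)
      rw [h2, h3]; simp
  -- upward
  have up : ∀ m, m + a < j → f m = 0 := by
    intro m
    induction m using Nat.strong_induction_on with
    | _ m ih =>
      intro hm
      rcases lt_or_ge m m1 with h1 | h1
      · exact hf2 m h1
      · have hgm := hz' (m + a) (by omega)
        simp only [hg] at hgm
        have h2 : (if b ≤ m + a then (f (m + a - b)).2 else 0) = 0 := by
          by_cases hb : b ≤ m + a
          · rw [if_pos hb, ih (m + a - b) (by omega) (by omega)]; rfl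
          · rw [if_neg hb]
        rw [h2, if_pos (by omega), Nat.add_sub_cancel, zero_sub, neg_eq_zero] at hgm
        have h3 := hf1 m h1
        have h4 : f m = (0, (f m).2) := by rw [← hgm]
        rw [h4] at h3 ⊢
        rw [hΓ.fn m h1 _ h3]; rfl
  have down : ∀ k m, M ≤ m + k → j < m + b → f m = 0 := by
    intro k
    induction k using Nat.strong_induction_on with
    | _ k ih =>
      intro m hm hj
      rcases lt_or_ge m m1 with h1 | h1
      · exact hf2 m h1
      rcases Nat.eq_zero_or_pos k with hk | hk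
      · exact hf3 m (by omega)
      · have hgm := hz' (m + b) (by omega)
        simp only [hg] at hgm
        have h5 : f (m + b - a) = 0 := by
          rcases le_or_gt M (m + b - a) with h6 | h6
          · exact hf3 _ h6
          · exact ih (k - (b - a)) (by omega) (m + b - a) (by omega) (by omega)
        rw [if_pos (by omega), if_pos (by omega), h5, Nat.add_sub_cancel] at hgm
        have hgm2 : (f m).2 = 0 := by simpa using hgm
        have h3 := hf1 m h1
        have h4 : f m = ((f m).1, 0) := by rw [← hgm2]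
        rw [h4] at h3 ⊢
        rw [hΓ.inj m h1 _ h3]; rfl
  have all : ∀ m, f m = 0 := by
    intro m
    rcases lt_or_ge (m + a) j with h1 | h1
    · exact up m h1
    · exact down M m (by omega) (by omega)
  rw [hfu]
  refine Finset.sum_eq_zero fun m _ => ?_
  rw [all m]; simp

end


section
variable {K V : Type*} [Field K] [AddCommGroup V] [Module K V]

theorem adjoin_stable {X : Set (Module.End K V)} {S : Submodule K V}
    (hS : ∀ x ∈ X, ∀ v ∈ S, x v ∈ S) : ∀ a ∈ Algebra.adjoin K X, ∀ v ∈ S, a v ∈ S := by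
  intro a ha
  induction ha using Algebra.adjoin_induction with
  | mem x hx => exact hS x hx
  | algebraMap r =>
    intro v hv
    rw [Module.algebraMap_end_apply]
    exact Submodule.smul_mem _ _ hv
  | add x y _ _ hx hy =>
    intro v hv
    rw [LinearMap.add_apply]
    exact Submodule.add_mem _ (hx v hv) (hy v hv)
  | mul x y _ _ hx hy =>
    intro v hv
    rw [Module.End.mul_apply]
    exact hx _ (hy v hv)

/-- words from degree `j` to degree `j+i` -/
theorem gen_words {W : ℕ → Submodule K V} {X : Set (Module.End K V)} (h : JIM W X) {j : ℕ}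
    (hj : 1 ≤ j) (i : ℕ) :
    W (j + i) ≤ span K {u | ∃ l : List (Module.End K V), l.length = i ∧ (∀ x ∈ l, x ∈ X) ∧
      ∃ v ∈ W j, u = l.prod v} := by
  induction i with
  | zero =>
    intro v hv
    exact Submodule.subset_span ⟨[], rfl, by simp, v, hv, by simp⟩
  | succ i ih =>
    refine (h.gen (j + i) (by omega)).trans ?_
    rw [Submodule.span_le]
    rintro _ ⟨x, hx, v, hv, rfl⟩
    have hv2 := ih hv
    clear hv
    simp only [SetLike.mem_coe]
    induction hv2 using Submodule.span_induction with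
    | mem y hy =>
      obtain ⟨l, hl, hlX, w, hw, rfl⟩ := hy
      refine Submodule.subset_span ⟨x :: l, by simp [hl], ?_, w, hw, by simp⟩
      intro z hz
      rcases List.mem_cons.1 hz with rfl | hz
      · exact hx
      · exact hlX z hz
    | zero => rw [map_zero]; exact Submodule.zero_mem _
    | add y z _ _ hy hz => rw [map_add]; exact Submodule.add_mem _ hy hz
    | smul c y _ hy => rw [map_smul]; exact Submodule.smul_mem _ _ hy

theorem noPer {W : ℕ → Submodule K V} {X : Set (Module.End K V)} (h : JIM W X)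
    (M : Set (Module.End K V)) (hcl : ∀ a ∈ M, ∀ b ∈ M, a * b - b * a ∈ M)
    (hnil : ∀ a ∈ M, IsNilpotent a) (hXM : X ⊆ span K M)
    (hMX : ∀ a ∈ M, a ∈ Algebra.adjoin K X) : NoPer W X := by
  intro a b m1 hab Γ hΓ
  set R : Submodule K V := span K {z : V | ∃ m, m1 ≤ m ∧ ∃ p ∈ Γ m, z = p.2 - p.1} with hR
  set U : Submodule K V := span K {z : V | ∃ m, m1 ≤ m ∧ z ∈ W (m + a)} with hU
  have hRX : ∀ x ∈ X, ∀ v ∈ R, x v ∈ R := by
    intro x hx v hv
    induction hv using Submodule.span_induction with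
    | mem y hy =>
      obtain ⟨m, hm, p, hp, rfl⟩ := hy
      rw [map_sub]
      exact Submodule.subset_span ⟨m + 1, by omega, _, hΓ.act m hm x hx p hp, rfl⟩
    | zero => rw [map_zero]; exact Submodule.zero_mem _
    | add y z _ _ hy hz => rw [map_add]; exact Submodule.add_mem _ hy hz
    | smul c y _ hy => rw [map_smul]; exact Submodule.smul_mem _ _ hy
  have hUX : ∀ x ∈ X, ∀ v ∈ U, x v ∈ U := by
    intro x hx v hv
    induction hv using Submodule.span_induction with
    | mem y hy =>
      obtain ⟨m, hm, hy⟩ := hy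
      refine Submodule.subset_span ⟨m + 1, by omega, ?_⟩
      have := h.deg x hx _ y hy
      rwa [show m + a + 1 = m + 1 + a by ring] at this
    | zero => rw [map_zero]; exact Submodule.zero_mem _
    | add y z _ _ hy hz => rw [map_add]; exact Submodule.add_mem _ hy hz
    | smul c y _ hy => rw [map_smul]; exact Submodule.smul_mem _ _ hy
  have hRA := adjoin_stable hRX
  have hUA := adjoin_stable hUX
  have hWU : ∀ j, m1 + a ≤ j → W j ≤ U := by
    intro j hj v hv
    refine Submodule.subset_span ⟨j - a, by omega, ?_⟩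
    rwa [Nat.sub_add_cancel (by omega)]
  -- finite dimensionality of the image of `U` in `V ⧸ R`
  set F : Submodule K V := ⨆ i : Fin (m1 + b), W i with hF
  have hFfin : FiniteDimensional K F := by
    have : ∀ i : Fin (m1 + b), FiniteDimensional K (W i) := fun i => h.fin i
    exact Submodule.finiteDimensional_iSup _
  have hUF : ∀ j, m1 + a ≤ j → W j ≤ R ⊔ F := by
    intro j
    induction j using Nat.strong_induction_on with
    | _ j ih =>
      intro hj v hv
      rcases lt_or_ge j (m1 + b) with h1 | h1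
      · exact Submodule.mem_sup_right (Submodule.mem_iSup_of_mem (⟨j, h1⟩ : Fin (m1 + b)) hv)
      · have hv' : v ∈ W ((j - b) + b) := by rwa [Nat.sub_add_cancel (by omega)]
        obtain ⟨w, hw⟩ := hΓ.srj (j - b) (by omega) v hv'
        have hw1 := hΓ.le1 _ (by omega) _ hw
        have h2 : v - w ∈ R := Submodule.subset_span ⟨j - b, by omega, (w, v), hw, rfl⟩
        have h3 := ih (j - b + a) (by omega) (by omega) hw1
        have h4 : v = (v - w) + w := by abel
        rw [h4]
        exact Submodule.add_mem _ (Submodule.mem_sup_left h2) h3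
  set Q : Submodule K (V ⧸ R) := U.map R.mkQ with hQ
  have hQfin : FiniteDimensional K Q := by
    have h1 : Q ≤ F.map R.mkQ := by
      rw [hQ, Submodule.map_le_iff_le_comap, hU, Submodule.span_le]
      rintro z ⟨m, hm, hz⟩
      obtain ⟨r, hr, f, hf, rfl⟩ := Submodule.mem_sup.1 (hUF (m + a) (by omega) hz)
      refine ⟨f, hf, ?_⟩
      rw [map_add, Submodule.mkQ_apply, Submodule.mkQ_apply, (Submodule.Quotient.mk_eq_zero R).2 hr,
        zero_add]
    exact Submodule.finiteDimensional_of_le h1
  let Rel : Module.End K V → Module.End K Q → Prop := fun x q =>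
    ∀ (y : Q), ∀ v ∈ U, (y : V ⧸ R) = R.mkQ v → ((q y : Q) : V ⧸ R) = R.mkQ (x v)
  have hex : ∀ x ∈ Algebra.adjoin K X, ∃ q, Rel x q := by
    intro x hx
    have hRx : R ≤ R.comap x := fun v hv => hRA x hx v hv
    have hQx : ∀ y ∈ Q, (R.mapQ R x hRx) y ∈ Q := by
      rintro _ ⟨v, hv, rfl⟩
      exact ⟨x v, hUA x hx v hv, by simp⟩
    refine ⟨(R.mapQ R x hRx).restrict hQx, ?_⟩
    intro y v hv hy
    rw [LinearMap.coe_restrict_apply, hy]
    simp
  have hsurj : ∀ y : Q, ∃ v ∈ U, (y : V ⧸ R) = R.mkQ v := by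
    rintro ⟨_, ⟨v, hv, rfl⟩⟩
    exact ⟨v, hv, rfl⟩
  have hmul : ∀ x q x' q', (∀ v ∈ U, x' v ∈ U) → Rel x q → Rel x' q' → Rel (x * x') (q * q') := by
    intro x q x' q' hx' h1 h2 y v hv hy
    rw [Module.End.mul_apply, Module.End.mul_apply]
    exact h1 _ _ (hx' v hv) (h2 y v hv hy)
  have hsub : ∀ x q x' q', Rel x q → Rel x' q' → Rel (x - x') (q - q') := by
    intro x q x' q' h1 h2 y v hv hy
    rw [LinearMap.sub_apply, LinearMap.sub_apply, map_sub, Submodule.coe_sub, h1 y v hv hy,
      h2 y v hv hy]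
  have hadd : ∀ x q x' q', Rel x q → Rel x' q' → Rel (x + x') (q + q') := by
    intro x q x' q' h1 h2 y v hv hy
    rw [LinearMap.add_apply, LinearMap.add_apply, map_add, Submodule.coe_add, h1 y v hv hy,
      h2 y v hv hy]
  have hsmul : ∀ (c : K) x q, Rel x q → Rel (c • x) (c • q) := by
    intro c x q h1 y v hv hy
    rw [LinearMap.smul_apply, LinearMap.smul_apply, map_smul, Submodule.coe_smul, h1 y v hv hy]
  have hrel0 : Rel 0 0 := by
    intro y v hv hy
    simp
  have hrel1 : Rel 1 1 := by
    intro y v hv hy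
    simpa using hy
  set M' : Set (Module.End K Q) := {q | ∃ x ∈ M, Rel x q} with hM'
  obtain ⟨k, hk⟩ := jacobson M' (by
    rintro q ⟨x, hx, hxq⟩ r ⟨x', hx', hxr⟩
    exact ⟨_, hcl x hx x' hx', hsub _ _ _ _
      (hmul _ _ _ _ (hUA x' (hMX x' hx')) hxq hxr) (hmul _ _ _ _ (hUA x (hMX x hx)) hxr hxq)⟩) (by
    rintro q ⟨x, hx, hxq⟩
    obtain ⟨n, hn⟩ := hnil x hx
    refine ⟨n, ?_⟩
    have hpow : ∀ i, Rel (x ^ i) (q ^ i) := by
      intro i
      induction i with
      | zero => rw [pow_zero, pow_zero]; exact hrel1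
      | succ i ih =>
        rw [pow_succ, pow_succ]
        exact hmul _ _ _ _ (hUA x (hMX x hx)) ih hxq
    have h1 := hpow n
    rw [hn] at h1
    ext y
    obtain ⟨v, hv, hy⟩ := hsurj y
    have := h1 y v hv hy
    simpa using this)
  have hlift : ∀ x ∈ X, ∃ q ∈ span K M', Rel x q := by
    intro x hx
    have hx' := hXM hx
    clear hx
    simp only [SetLike.mem_coe] at hx'
    induction hx' using Submodule.span_induction with
    | mem y hy =>
      obtain ⟨q, hq⟩ := hex y (hMX y hy)
      exact ⟨q, Submodule.subset_span ⟨y, hy, hq⟩, hq⟩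
    | zero => exact ⟨0, Submodule.zero_mem _, hrel0⟩
    | add y z _ _ hy hz =>
      obtain ⟨q, hq, hq'⟩ := hy
      obtain ⟨r, hr, hr'⟩ := hz
      exact ⟨q + r, Submodule.add_mem _ hq hr, hadd _ _ _ _ hq' hr'⟩
    | smul c y _ hy =>
      obtain ⟨q, hq, hq'⟩ := hy
      exact ⟨c • q, Submodule.smul_mem _ _ hq, hsmul _ _ _ hq'⟩
  have hword : ∀ l : List (Module.End K V), (∀ x ∈ l, x ∈ X) →
      ∃ q ∈ (span K M') ^ l.length, Rel l.prod q := by
    intro l
    induction l with
    | nil => intro _; exact ⟨1, by simp [Submodule.one_le.mp le_rfl], hrel1⟩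
    | cons x l ih =>
      intro hl
      obtain ⟨q, hq, hq'⟩ := ih fun z hz => hl z (by simp [hz])
      obtain ⟨r, hr, hr'⟩ := hlift x (hl x (by simp))
      refine ⟨r * q, ?_, ?_⟩
      · rw [List.length_cons, pow_succ']; exact Submodule.mul_mem_mul hr hq
      · rw [List.prod_cons]
        refine hmul _ _ _ _ ?_ hr' hq'
        exact hUA _ (Subalgebra.list_prod_mem _ fun z hz => Algebra.subset_adjoin (hl z (by simp [hz])))
  set j0 := max 1 (m1 + a) with hj0
  have hWR : W (j0 + k) ≤ R := by
    refine (gen_words h (le_max_left _ _) k).trans ?_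
    rw [Submodule.span_le]
    rintro _ ⟨l, hl, hlX, v, hv, rfl⟩
    obtain ⟨q, hq, hq'⟩ := hword l hlX
    rw [hl, hk, Submodule.mem_bot] at hq
    subst hq
    have hvU : v ∈ U := hWU j0 (le_max_right _ _) hv
    have h1 := hq' ⟨R.mkQ v, v, hvU, rfl⟩ v hvU rfl
    rw [LinearMap.zero_apply, Submodule.coe_zero, Submodule.mkQ_apply] at h1
    exact (Submodule.Quotient.mk_eq_zero R).1 h1.symm
  obtain ⟨u, hu, hu0⟩ := Submodule.exists_mem_ne_zero_of_ne_bot (h.ne (j0 + k) (by omega))
  exact hu0 (R_hom h hab hΓ (hWR hu) hu)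

end

end Pool.Agent.ZLM.JM
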