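import Pool.Agent.ZLM.Defs

set_option autoImplicit false

namespace Pool.Agent.ZLM

open Submodule

universe u v

/-
PROOF. Suppose v ≠ 0. Let N i = span {v} if i = m and ⊥ otherwise. It is stable under V 1 because [x, v] = 0. hV.just gives i >= 1 with N i = V i; as V i ≠ ⊥ we get i = m; so V m = span {v} and V (m+1) is in the span of the [x, c • v] = 0 (hV.gen), so V (m+1) = ⊥, against hV.ne.
-/
theorem bas_inj {K : Type u} [Field K] {G : Type v} [LieRing G] [LieAlgebra K G]
    {V : ℕ → Submodule K G} (hV : JustInf V) (m : ℕ) (v : G) (hv : v ∈ V m)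
    (h : ∀ x ∈ V 1, ⁅x, v⁆ = 0) : v = 0 := by
  by_contra hv0
  set N : ℕ → Submodule K G := fun i => if i = m then span K {v} else ⊥ with hN
  have e1 : N m = span K {v} := if_pos rfl
  have e2 : ∀ i, i ≠ m → N i = ⊥ := fun i hi => if_neg hi
  have hspan : ∀ y ∈ span K {v}, ∀ x ∈ V 1, ⁅x, y⁆ = 0 := by
    intro y hy x hx
    obtain ⟨c, rfl⟩ := mem_span_singleton.mp hy
    rw [lie_smul, h x hx, smul_zero]
  have g1 : ∀ i, N i ≤ V i := by
    intro i
    by_cases him : i = m
    · subst him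
      rw [e1, span_le]
      rintro _ rfl
      exact hv
    · rw [e2 i him]; exact bot_le
  have g2 : ∀ i, ∀ x ∈ V 1, ∀ y ∈ N i, ⁅x, y⁆ ∈ N (i + 1) := by
    intro i x hx y hy
    by_cases him : i = m
    · subst him
      rw [e1] at hy
      rw [hspan y hy x hx]
      exact zero_mem _
    · rw [e2 i him, mem_bot] at hy
      rw [hy, lie_zero]
      exact zero_mem _
  have g3 : ∃ i, N i ≠ ⊥ := by
    refine ⟨m, ?_⟩
    rw [e1, Ne, span_singleton_eq_bot]
    exact hv0
  obtain ⟨i, hi1, hi⟩ := hV.just N g1 g2 g3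
  have him : i = m := by
    by_contra hne
    rw [e2 i hne] at hi
    exact hV.ne i hi1 hi.symm
  subst him
  rw [e1] at hi
  refine hV.ne (i + 1) (by omega) ?_
  rw [eq_bot_iff]
  intro z hz
  refine (span_le.mpr ?_) (hV.gen i hi1 z hz)
  rintro _ ⟨x, hx, y, hy, rfl⟩
  rw [← hi] at hy
  rw [SetLike.mem_coe, hspan y hy x hx]
  exact zero_mem _

end Pool.Agent.ZLM
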