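import Pool.Agent.ZLM.P3e

/-! # Base change: the identity and the graded algebra -/

set_option autoImplicit false

open Finset TensorProduct

namespace Pool.Agent.ZLM

universe u v

/-! ### The linearised identity as a property of Lie rings -/

/-- the linearised Engel identity in terms of brackets only -/
def SymR (G : Type v) [LieRing G] (n : ℕ) : Prop :=
  ∀ (x : Fin n → G) (z : G),
    ∑ σ : Equiv.Perm (Fin n), (List.ofFn fun i => x (σ i)).foldr (fun a b => ⁅a, b⁆) z = 0

theorem prod_ad_apply {K : Type u} [CommRing K] {G : Type v} [LieRing G] [LieAlgebra K G]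
    (l : List G) (z : G) :
    ((l.map fun a => LieAlgebra.ad K G a).prod) z = l.foldr (fun a b => ⁅a, b⁆) z := by
  induction l with
  | nil => simp
  | cons a l ih =>
    rw [List.map_cons, List.prod_cons, List.foldr_cons, Module.End.mul_apply, ih,
      LieAlgebra.ad_apply]

theorem ofFn_ad_apply {K : Type u} [CommRing K] {G : Type v} [LieRing G] [LieAlgebra K G]
    {n : ℕ} (x : Fin n → G) (z : G) :
    ((List.ofFn fun i => LieAlgebra.ad K G (x i)).prod) z =
      (List.ofFn x).foldr (fun a b => ⁅a, b⁆) z := by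
  rw [← prod_ad_apply (K := K), List.map_ofFn]
  rfl

theorem symId_iff {K : Type u} [Field K] {G : Type v} [LieRing G] [LieAlgebra K G] (n : ℕ) :
    SymId K G n ↔ SymR G n := by
  constructor
  · intro h x z
    have h1 := congrArg (fun f : Module.End K G => f z) (h x)
    simp only [LinearMap.sum_apply, LinearMap.zero_apply] at h1
    rw [← h1]
    apply Finset.sum_congr rfl
    intro σ _
    rw [ofFn_ad_apply (K := K) (fun i => x (σ i)) z]
  · intro h x
    ext z
    rw [LinearMap.sum_apply, LinearMap.zero_apply, ← h x z]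
    apply Finset.sum_congr rfl
    intro σ _
    rw [ofFn_ad_apply (K := K) (fun i => x (σ i)) z]

theorem map_foldr {G : Type u} {G' : Type v} [LieRing G] [LieRing G'] (f : G → G')
    (hf : ∀ a b, f ⁅a, b⁆ = ⁅f a, f b⁆) (l : List G) (z : G) :
    f (l.foldr (fun a b => ⁅a, b⁆) z) = (l.map f).foldr (fun a b => ⁅a, b⁆) (f z) := by
  induction l with
  | nil => rfl
  | cons a l ih => rw [List.foldr_cons, List.map_cons, List.foldr_cons, hf, ih]

theorem SymR.of_surj {G : Type u} {G' : Type v} [LieRing G] [LieRing G'] {n : ℕ}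
    (h : SymR G n) (f : G →+ G') (hf : ∀ a b, f ⁅a, b⁆ = ⁅f a, f b⁆) (hs : Function.Surjective f) :
    SymR G' n := by
  intro x z
  choose g hg using hs
  have h1 := congrArg f (h (fun i => g (x i)) (g z))
  rw [map_sum, map_zero] at h1
  rw [← h1]
  apply Finset.sum_congr rfl
  intro σ _
  rw [map_foldr f hf, hg, List.map_ofFn]
  congr 2
  funext i
  exact (hg _).symm

theorem SymR.of_inj {G : Type u} {G' : Type v} [LieRing G] [LieRing G'] {n : ℕ}
    (h : SymR G' n) (f : G →+ G') (hf : ∀ a b, f ⁅a, b⁆ = ⁅f a, f b⁆) (hs : Function.Injective f) :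
    SymR G n := by
  intro x z
  apply hs
  rw [map_sum, map_zero, ← h (fun i => f (x i)) (f z)]
  apply Finset.sum_congr rfl
  intro σ _
  rw [map_foldr f hf, List.map_ofFn]
  rfl

section BaseChange

variable {F : Type u} [Field F] {L : Type v} [LieRing L] [LieAlgebra F L]

theorem foldr_tmul {A : Type*} [CommRing A] [Algebra F A] (l : List L) (s : A) (y : L) :
    (l.map fun a => (1 : A) ⊗ₜ[F] a).foldr (fun a b => ⁅a, b⁆) (s ⊗ₜ[F] y) =
      s ⊗ₜ[F] (l.foldr (fun a b => ⁅a, b⁆) y) := by
  induction l with
  | nil => rfl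
  | cons a l ih =>
    rw [List.map_cons, List.foldr_cons, List.foldr_cons, ih,
      LieAlgebra.ExtendScalars.bracket_tmul, one_mul]

/-- the multilinear map of the identity -/
noncomputable def symMul (A : Type*) [CommRing A] (G : Type*) [LieRing G] [LieAlgebra A G] (n : ℕ) :
    MultilinearMap A (fun _ : Fin n => G) (Module.End A G) :=
  ∑ σ : Equiv.Perm (Fin n), ((MultilinearMap.mkPiAlgebraFin A n (Module.End A G)).compLinearMap
    (fun _ => (LieAlgebra.ad A G : G →ₗ[A] Module.End A G))).domDomCongr σ.symm

theorem symMul_apply (A : Type*) [CommRing A] (G : Type*) [LieRing G] [LieAlgebra A G] (n : ℕ)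
    (x : Fin n → G) (z : G) : symMul A G n x z =
      ∑ σ : Equiv.Perm (Fin n), (List.ofFn fun i => x (σ i)).foldr (fun a b => ⁅a, b⁆) z := by
  unfold symMul
  rw [MultilinearMap.sum_apply, LinearMap.sum_apply]
  refine Fintype.sum_equiv (Equiv.inv (Equiv.Perm (Fin n))) _ _ ?_
  intro σ
  rw [MultilinearMap.domDomCongr_apply, MultilinearMap.compLinearMap_apply,
    MultilinearMap.mkPiAlgebraFin_apply]
  exact ofFn_ad_apply (K := A) (fun i => x (σ.symm i)) z

/-- the identity is preserved under extension of scalars -/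
theorem SymR.baseChange {n : ℕ} (h : SymR L n) (A : Type*) [CommRing A] [Algebra F A] :
    SymR (A ⊗[F] L) n := by
  have h0 : symMul A (A ⊗[F] L) n = 0 := by
    refine Module.Basis.ext_multilinear
      (fun _ => (Module.Basis.ofVectorSpace F L).baseChange A) ?_
    intro v
    rw [MultilinearMap.zero_apply]
    refine LinearMap.ext fun z => ?_
    rw [LinearMap.zero_apply]
    induction z using TensorProduct.induction_on with
    | zero => rw [map_zero]
    | add a b ha hb => rw [map_add, ha, hb, add_zero]
    | tmul s y =>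
      rw [symMul_apply]
      have h1 : ∀ σ : Equiv.Perm (Fin n), (List.ofFn fun i =>
          ((Module.Basis.ofVectorSpace F L).baseChange A) (v (σ i))).foldr (fun a b => ⁅a, b⁆)
            (s ⊗ₜ[F] y) = s ⊗ₜ[F] ((List.ofFn fun i =>
          (Module.Basis.ofVectorSpace F L) (v (σ i))).foldr (fun a b => ⁅a, b⁆) y) := by
        intro σ
        rw [← foldr_tmul, List.map_ofFn]
        congr 2
        funext i
        exact Module.Basis.baseChange_apply _ _ _
      rw [Finset.sum_congr rfl fun σ _ => h1 σ, ← TensorProduct.tmul_sum,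
        h (fun i => (Module.Basis.ofVectorSpace F L) (v i)) y, TensorProduct.tmul_zero]
  intro x z
  rw [← symMul_apply A, h0]
  rfl

end BaseChange

end Pool.Agent.ZLM
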