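import Pool.Agent.ZLM.GB
import Pool.Agent.ZLM.P2

/-! # Just infinite quotients -/

set_option autoImplicit false

open Submodule

namespace Pool.Agent.ZLM

universe u v w

section General

variable {K : Type u} [Field K] {G : Type v} [LieRing G] [LieAlgebra K G]
  {Q : Type w} [LieRing Q] [LieAlgebra K Q]

theorem map_ad_pow (f : G →ₗ[K] Q) (hf : ∀ a b, f ⁅a, b⁆ = ⁅f a, f b⁆) (x y : G) (k : ℕ) :
    f (((LieAlgebra.ad K G x) ^ k) y) = ((LieAlgebra.ad K Q (f x)) ^ k) (f y) := by
  induction k with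
  | zero => rfl
  | succ k ih =>
    rw [pow_succ', Module.End.mul_apply, LieAlgebra.ad_apply, hf, ih, pow_succ',
      Module.End.mul_apply, LieAlgebra.ad_apply]

/-! ### Restriction to a subalgebra -/

/-- pull back along an injective homomorphism whose range contains all components -/
theorem Gr.restrict {V : ℕ → Submodule K Q} (hV : Gr V) (f : G →ₗ[K] Q)
    (hf : ∀ a b, f ⁅a, b⁆ = ⁅f a, f b⁆) (hi : Function.Injective f)
    (hr : ∀ i, V i ≤ LinearMap.range f) : Gr fun i => (V i).comap f where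
  zero := by
    rw [eq_bot_iff]
    intro x hx
    rw [Submodule.mem_comap, hV.zero, Submodule.mem_bot] at hx
    rw [Submodule.mem_bot]
    exact hi (hx.trans (map_zero f).symm)
  lie := by
    intro i j x y hx hy
    rw [Submodule.mem_comap, hf]
    exact hV.lie hx hy
  fin := by
    have := hV.fin
    let g : (V 1).comap f →ₗ[K] V 1 := (f.comp ((V 1).comap f).subtype).codRestrict (V 1)
      (fun x => x.2)
    refine Module.Finite.of_injective g ?_
    intro x y hxy
    apply Subtype.ext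
    apply hi
    exact congrArg Subtype.val hxy
  gen := by
    intro i hi1 z hz
    have h1 := hV.gen i hi1 (f z) hz
    have h2 : {w | ∃ x ∈ V 1, ∃ y ∈ V i, w = ⁅x, y⁆} ⊆
        f '' {w | ∃ x ∈ (V 1).comap f, ∃ y ∈ (V i).comap f, w = ⁅x, y⁆} := by
      rintro w ⟨x, hx, y, hy, rfl⟩
      obtain ⟨x', rfl⟩ := hr 1 hx
      obtain ⟨y', rfl⟩ := hr i hy
      exact ⟨⁅x', y'⁆, ⟨x', hx, y', hy, rfl⟩, hf _ _⟩
    have h3 := Submodule.span_mono h2 h1
    rw [Submodule.span_image] at h3
    obtain ⟨z', hz', he⟩ := h3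
    rw [← hi he]
    exact hz'
  ind := by
    rw [iSupIndep_def]
    intro i
    rw [Submodule.disjoint_def]
    intro z hz hz'
    have h := hV.ind
    rw [iSupIndep_def] at h
    have h1 := h i
    rw [Submodule.disjoint_def] at h1
    have h2 : f z ∈ ⨆ j, ⨆ (_ : j ≠ i), V j := by
      have h3 : (⨆ j, ⨆ (_ : j ≠ i), (V j).comap f) ≤ (⨆ j, ⨆ (_ : j ≠ i), V j).comap f := by
        refine iSup_le fun j => iSup_le fun hj => ?_
        exact Submodule.comap_mono (le_iSup_of_le j (le_iSup_of_le hj le_rfl))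
      exact h3 hz'
    have h4 := h1 (f z) hz h2
    exact hi (h4.trans (map_zero f).symm)

theorem NilSet.restrict {V : ℕ → Submodule K Q} {M : Set Q} {n : ℕ} (hM : NilSet V M n)
    (f : G →ₗ[K] Q)
    (hf : ∀ a b, f ⁅a, b⁆ = ⁅f a, f b⁆) (hi : Function.Injective f)
    (hr : ∀ i, V i ≤ LinearMap.range f) : NilSet (fun i => (V i).comap f) (f ⁻¹' M) n where
  hom := by
    intro m hm
    obtain ⟨i, h⟩ := hM.hom (f m) hm
    exact ⟨i, h⟩
  lie := by
    intro m hm m' hm'
    rw [Set.mem_preimage, hf]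
    exact hM.lie _ hm _ hm'
  spn := by
    intro i z hz
    have h1 := hM.spn i (show f z ∈ V i from hz)
    have h2 : M ∩ (V i : Set Q) ⊆ f '' (f ⁻¹' M ∩ ((V i).comap f : Submodule K G)) := by
      rintro m ⟨hm, hmi⟩
      obtain ⟨m', rfl⟩ := hr i hmi
      exact ⟨m', ⟨hm, hmi⟩, rfl⟩
    have h3 := Submodule.span_mono h2 h1
    rw [Submodule.span_image] at h3
    obtain ⟨z', hz', he⟩ := h3
    rw [← hi he]
    exact hz'
  nil := by
    intro m hm
    refine LinearMap.ext fun z => ?_
    apply hi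
    rw [map_ad_pow f hf, hM.nil (f m) hm, LinearMap.zero_apply, LinearMap.zero_apply, map_zero]

/-! ### Quotients -/

/-- the intersection of a component with a graded ideal -/
theorem inter_eq {V : ℕ → Submodule K G} (hV : iSupIndep V) {N : ℕ → Submodule K G}
    (hN : ∀ i, N i ≤ V i) {i : ℕ} {a b : G} (ha : a ∈ V i)
    (hb : b ∈ ⨆ j, ⨆ (_ : j ≠ i), V j) (hab : a - b ∈ ⨆ j, N j) : a ∈ N i := by
  have h1 : (⨆ j, N j) ≤ N i ⊔ ⨆ j, ⨆ (_ : j ≠ i), N j := by
    refine iSup_le fun j => ?_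
    by_cases hj : j = i
    · subst hj; exact le_sup_left
    · exact le_sup_of_le_right (le_iSup_of_le j (le_iSup_of_le hj le_rfl))
  obtain ⟨n, hn, n', hn', he⟩ := Submodule.mem_sup.1 (h1 hab)
  have h2 : (⨆ j, ⨆ (_ : j ≠ i), N j) ≤ ⨆ j, ⨆ (_ : j ≠ i), V j :=
    iSup_mono fun j => iSup_mono fun _ => hN j
  rw [iSupIndep_def] at hV
  have h3 := hV i
  rw [Submodule.disjoint_def] at h3
  have h4 := h3 (a - n) ((V i).sub_mem ha (hN i hn)) (by
    have e : a - n = b + n' := by
      have : a - b = n + n' := he.symm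
      have h5 : a = n + n' + b := by rw [← this]; abel
      rw [h5]; abel
    rw [e]
    exact Submodule.add_mem _ hb (h2 hn'))
  have e : a = n := sub_eq_zero.1 h4
  rw [e]; exact hn

theorem Gr.quot {V : ℕ → Submodule K G} (hV : Gr V) {N : ℕ → Submodule K G}
    (hN : ∀ i, N i ≤ V i) (f : G →ₗ[K] Q) (hf : ∀ a b, f ⁅a, b⁆ = ⁅f a, f b⁆)
    (hk : LinearMap.ker f = ⨆ i, N i) : Gr fun i => (V i).map f where
  zero := by rw [hV.zero, Submodule.map_bot]
  lie := by
    rintro i j _ _ ⟨x, hx, rfl⟩ ⟨y, hy, rfl⟩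
    exact ⟨⁅x, y⁆, hV.lie hx hy, hf x y⟩
  fin := by
    have := hV.fin
    exact Module.Finite.map (V 1) f
  gen := by
    rintro i hi1 _ ⟨z, hz, rfl⟩
    have h1 := hV.gen i hi1 z hz
    have h2 : f z ∈ (span K {w | ∃ x ∈ V 1, ∃ y ∈ V i, w = ⁅x, y⁆}).map f := ⟨z, h1, rfl⟩
    rw [Submodule.map_span] at h2
    refine Submodule.span_mono ?_ h2
    rintro _ ⟨_, ⟨x, hx, y, hy, rfl⟩, rfl⟩
    exact ⟨f x, ⟨x, hx, rfl⟩, f y, ⟨y, hy, rfl⟩, hf x y⟩
  ind := by
    rw [iSupIndep_def]
    intro i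
    rw [Submodule.disjoint_def]
    rintro _ ⟨a, ha, rfl⟩ hb
    have h1 : (⨆ j, ⨆ (_ : j ≠ i), (V j).map f) = (⨆ j, ⨆ (_ : j ≠ i), V j).map f := by
      simp only [Submodule.map_iSup]
    rw [h1] at hb
    obtain ⟨b, hb, he⟩ := hb
    have h2 : a - b ∈ ⨆ j, N j := by
      rw [← hk, LinearMap.mem_ker, map_sub, he, sub_self]
    have h3 := inter_eq hV.ind hN ha hb h2
    have h4 : a ∈ LinearMap.ker f := by
      rw [hk]
      exact Submodule.mem_iSup_of_mem i h3
    exact h4

theorem NilSet.quot {V : ℕ → Submodule K G} {M : Set G} {n : ℕ} (hM : NilSet V M n)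
    (f : G →ₗ[K] Q) (hf : ∀ a b, f ⁅a, b⁆ = ⁅f a, f b⁆) (hs : Function.Surjective f) :
    NilSet (fun i => (V i).map f) (f '' M) n where
  hom := by
    rintro _ ⟨m, hm, rfl⟩
    obtain ⟨i, h⟩ := hM.hom m hm
    exact ⟨i, m, h, rfl⟩
  lie := by
    rintro _ ⟨m, hm, rfl⟩ _ ⟨m', hm', rfl⟩
    exact ⟨⁅m, m'⁆, hM.lie _ hm _ hm', hf _ _⟩
  spn := by
    rintro i _ ⟨z, hz, rfl⟩
    have h1 := hM.spn i hz
    have h2 : f z ∈ (span K (M ∩ (V i : Set G))).map f := ⟨z, h1, rfl⟩
    rw [Submodule.map_span] at h2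
    refine Submodule.span_mono ?_ h2
    rintro _ ⟨m, ⟨hm, hmi⟩, rfl⟩
    exact ⟨⟨m, hm, rfl⟩, ⟨m, hmi, rfl⟩⟩
  nil := by
    rintro _ ⟨m, hm, rfl⟩
    refine LinearMap.ext fun z => ?_
    obtain ⟨z, rfl⟩ := hs z
    rw [← map_ad_pow f hf, hM.nil m hm, LinearMap.zero_apply, LinearMap.zero_apply, map_zero]

end General

section Zorn

variable {K : Type u} [Field K] {G : Type v} [LieRing G] [LieAlgebra K G]

/-- graded ideals which contain no component -/
def Good (V N : ℕ → Submodule K G) : Prop :=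
  (∀ i, N i ≤ V i) ∧ (∀ i, ∀ x ∈ V 1, ∀ y ∈ N i, ⁅x, y⁆ ∈ N (i + 1)) ∧ ∀ i, 1 ≤ i → N i ≠ V i

theorem exists_max {V : ℕ → Submodule K G} (hV : Gr V) (hne : ∀ i, 1 ≤ i → V i ≠ ⊥) :
    ∃ N, Good V N ∧ ∀ N', Good V N' → N ≤ N' → N' = N := by
  have hz := zorn_le₀ {N : ℕ → Submodule K G | Good V N} (by
    intro c hc hchain
    rcases c.eq_empty_or_nonempty with rfl | hcne
    · refine ⟨fun _ => ⊥, ⟨fun i => bot_le, ?_, fun i hi => (hne i hi).symm⟩, fun z hz => hz.elim⟩
      intro i x _ y hy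
      rw [Submodule.mem_bot] at hy
      rw [hy, lie_zero]
      exact Submodule.zero_mem _
    · have hdir : ∀ i, DirectedOn (· ≤ ·) ((fun N : ℕ → Submodule K G => N i) '' c) := by
        rintro i _ ⟨N, hN, rfl⟩ _ ⟨N', hN', rfl⟩
        rcases hchain.total hN hN' with h | h
        · exact ⟨N' i, ⟨N', hN', rfl⟩, h i, le_rfl⟩
        · exact ⟨N i, ⟨N, hN, rfl⟩, le_rfl, h i⟩
      have hcne' : ∀ i, ((fun N : ℕ → Submodule K G => N i) '' c).Nonempty := fun i =>
        hcne.image _
      refine ⟨fun i => sSup ((fun N : ℕ → Submodule K G => N i) '' c), ⟨?_, ?_, ?_⟩, ?_⟩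
      · intro i
        apply sSup_le
        rintro _ ⟨N, hN, rfl⟩
        exact (hc hN).1 i
      · intro i x hx y hy
        rw [Submodule.mem_sSup_of_directed (hcne' i) (hdir i)] at hy
        obtain ⟨_, ⟨N, hN, rfl⟩, hy⟩ := hy
        have hle : N (i + 1) ≤ sSup ((fun N : ℕ → Submodule K G => N (i + 1)) '' c) :=
          le_sSup ⟨N, hN, rfl⟩
        exact hle ((hc hN).2.1 i x hx y hy)
      · intro i hi he
        have hfin := hV.finV i
        have hfg : (V i).FG := Module.Finite.iff_fg.1 hfin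
        rw [Submodule.fg_iff_compact, CompleteLattice.isCompactElement_iff_le_of_directed_sSup_le]
          at hfg
        obtain ⟨_, ⟨N, hN, rfl⟩, h⟩ := hfg _ (hcne' i) (hdir i) he.ge
        exact (hc hN).2.2 i hi (le_antisymm ((hc hN).1 i) h)
      · intro N hN i
        exact le_sSup ⟨N, hN, rfl⟩)
  obtain ⟨N, hN⟩ := hz
  exact ⟨N, hN.prop, fun N' h1 h2 => le_antisymm (hN.le_of_ge h1 h2) h2⟩

/-- graded ideals are stable under all components -/
theorem good_lie {V N : ℕ → Submodule K G} (hV : Gr V) (hN : Good V N) :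
    ∀ (i j : ℕ), ∀ x ∈ V i, ∀ y ∈ N j, ⁅x, y⁆ ∈ N (i + j) := by
  intro i
  induction i with
  | zero =>
    intro j x hx y _
    rw [hV.zero, Submodule.mem_bot] at hx
    rw [hx, zero_lie]
    exact Submodule.zero_mem _
  | succ i ih =>
    intro j x hx y hy
    rcases Nat.eq_zero_or_pos i with rfl | hi
    · have h := hN.2.1 j x hx y hy
      rwa [show 0 + 1 + j = j + 1 by omega]
    · have h1 := hV.gen i hi x hx
      induction h1 using Submodule.span_induction with
      | mem w hw =>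
        obtain ⟨a, ha, b, hb, rfl⟩ := hw
        rw [lie_lie]
        apply Submodule.sub_mem
        · have h2 := hN.2.1 (i + j) a ha _ (ih j b hb y hy)
          rwa [show i + 1 + j = i + j + 1 by omega]
        · have h2 := ih (j + 1) b hb _ (hN.2.1 j a ha y hy)
          rwa [show i + 1 + j = i + (j + 1) by omega]
      | zero => rw [zero_lie]; exact Submodule.zero_mem _
      | add a b h1 h2 ha hb =>
        rw [add_lie]
        refine Submodule.add_mem _ (ha ?_) (hb ?_)
        · have h3 : (span K {w | ∃ x ∈ V 1, ∃ y ∈ V i, w = ⁅x, y⁆}) ≤ V (i + 1) := by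
            rw [Submodule.span_le]
            rintro w ⟨x, hx, y, hy, rfl⟩
            rw [add_comm i 1]
            exact hV.lie hx hy
          exact h3 h1
        · have h3 : (span K {w | ∃ x ∈ V 1, ∃ y ∈ V i, w = ⁅x, y⁆}) ≤ V (i + 1) := by
            rw [Submodule.span_le]
            rintro w ⟨x, hx, y, hy, rfl⟩
            rw [add_comm i 1]
            exact hV.lie hx hy
          exact h3 h2
      | smul c a h1 ha =>
        rw [smul_lie]
        refine Submodule.smul_mem _ _ (ha ?_)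
        have h3 : (span K {w | ∃ x ∈ V 1, ∃ y ∈ V i, w = ⁅x, y⁆}) ≤ V (i + 1) := by
          rw [Submodule.span_le]
          rintro w ⟨x, hx, y, hy, rfl⟩
          rw [add_comm i 1]
          exact hV.lie hx hy
        exact h3 h1

/-- the quotient by a maximal graded ideal, if the algebra is the sum of its components -/
theorem exists_quot {V : ℕ → Submodule K G} (hV : Gr V) (htop : ⨆ i, V i = ⊤)
    (hne : ∀ i, 1 ≤ i → V i ≠ ⊥) {M : Set G} {n : ℕ} (hM : NilSet V M n) (hS : SymId K G n) :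
    ∃ (Q : Type v) (_ : LieRing Q) (_ : LieAlgebra K Q) (V' : ℕ → Submodule K Q) (M' : Set Q),
      JustInf V' ∧ NilSet V' M' n ∧ SymId K Q n := by
  obtain ⟨N, hN, hmax⟩ := exists_max hV hne
  let I : LieIdeal K G :=
    { toSubmodule := ⨆ i, N i
      lie_mem := by
        intro x m hm
        have hx : x ∈ ⨆ i, V i := by rw [htop]; exact Submodule.mem_top
        change ⁅x, m⁆ ∈ ⨆ i, N i
        have hm' : m ∈ ⨆ i, N i := hm
        induction hx using Submodule.iSup_induction' with
        | mem i x hx =>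
          clear hm
          induction hm' using Submodule.iSup_induction' with
          | mem j m hm => exact Submodule.mem_iSup_of_mem (i + j) (good_lie hV hN i j x hx m hm)
          | zero => rw [lie_zero]; exact Submodule.zero_mem _
          | add a b _ _ ha hb => rw [lie_add]; exact Submodule.add_mem _ ha hb
        | zero => rw [zero_lie]; exact Submodule.zero_mem _
        | add a b _ _ ha hb => rw [add_lie]; exact Submodule.add_mem _ ha hb }
  let f : G →ₗ[K] (G ⧸ I) := (LieSubmodule.Quotient.mk' I : G →ₗ[K] G ⧸ I)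
  have hf : ∀ a b, f ⁅a, b⁆ = ⁅f a, f b⁆ := fun a b => LieSubmodule.Quotient.mk_bracket I a b
  have hs : Function.Surjective f := LieSubmodule.Quotient.surjective_mk' I
  have hk : LinearMap.ker f = ⨆ i, N i := by
    ext x
    rw [LinearMap.mem_ker]
    change LieSubmodule.Quotient.mk x = 0 ↔ _
    rw [LieSubmodule.Quotient.mk_eq_zero']
    exact Iff.rfl
  have hG := hV.quot hN.1 f hf hk
  have hkN : ∀ i, ∀ x ∈ V i, f x = 0 → x ∈ N i := by
    intro i x hx h
    refine inter_eq hV.ind hN.1 hx (b := 0) (Submodule.zero_mem _) ?_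
    rw [sub_zero, ← hk, LinearMap.mem_ker, h]
  have hNk : ∀ i, ∀ x ∈ N i, f x = 0 := by
    intro i x hx
    have : x ∈ LinearMap.ker f := by
      rw [hk]; exact Submodule.mem_iSup_of_mem i hx
    exact this
  refine ⟨G ⧸ I, inferInstance, inferInstance, fun i => (V i).map f, f '' M,
    ⟨hG, ?_, ?_⟩, hM.quot f hf hs, ?_⟩
  · intro i hi he
    apply hN.2.2 i hi
    refine le_antisymm (hN.1 i) fun x hx => hkN i x hx ?_
    have : f x ∈ (V i).map f := ⟨x, hx, rfl⟩
    rw [he] at this
    exact this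
  · intro N'' h1 h2 h3
    by_contra hcon
    push Not at hcon
    let N' : ℕ → Submodule K G := fun i => V i ⊓ (N'' i).comap f
    have hgood : Good V N' := by
      refine ⟨fun i => inf_le_left, ?_, ?_⟩
      · intro i x hx y hy
        refine ⟨?_, ?_⟩
        · rw [add_comm i 1]; exact hV.lie hx hy.1
        · change f ⁅x, y⁆ ∈ N'' (i + 1)
          rw [hf]
          exact h2 i (f x) ⟨x, hx, rfl⟩ (f y) hy.2
      · intro i hi he
        apply hcon i hi
        refine le_antisymm (h1 i) ?_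
        rintro _ ⟨x, hx, rfl⟩
        have hx' : x ∈ N' i := by rw [he]; exact hx
        exact hx'.2
    have hle : N ≤ N' := by
      intro i x hx
      refine ⟨hN.1 i hx, ?_⟩
      change f x ∈ N'' i
      rw [hNk i x hx]
      exact Submodule.zero_mem _
    have he := hmax N' hgood hle
    obtain ⟨i, hi⟩ := h3
    apply hi
    rw [eq_bot_iff]
    intro y hy
    obtain ⟨x, hx, rfl⟩ := h1 i hy
    have hx' : x ∈ N' i := ⟨hx, hy⟩
    rw [he] at hx'
    rw [Submodule.mem_bot]
    exact hNk i x hx'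
  · rw [symId_iff] at hS ⊢
    exact hS.of_surj f.toAddMonoidHom hf hs

/-- [P1] a just infinite example. -/
theorem exists_justInf {V : ℕ → Submodule K G} (hV : Gr V)
    (hne : ∀ i, 1 ≤ i → V i ≠ ⊥) {M : Set G} {n : ℕ} (hM : NilSet V M n) (hS : SymId K G n) :
    ∃ (Q : Type v) (_ : LieRing Q) (_ : LieAlgebra K Q) (V' : ℕ → Submodule K Q) (M' : Set Q),
      JustInf V' ∧ NilSet V' M' n ∧ SymId K Q n := by
  let H : LieSubalgebra K G :=
    { toSubmodule := ⨆ i, V i
      lie_mem' := by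
        intro x y hx hy
        change ⁅x, y⁆ ∈ ⨆ i, V i
        have hx' : x ∈ ⨆ i, V i := hx
        have hy' : y ∈ ⨆ i, V i := hy
        clear hx hy
        induction hx' using Submodule.iSup_induction' with
        | mem i x hx =>
          induction hy' using Submodule.iSup_induction' with
          | mem j y hy => exact Submodule.mem_iSup_of_mem (i + j) (hV.lie hx hy)
          | zero => rw [lie_zero]; exact Submodule.zero_mem _
          | add a b _ _ ha hb => rw [lie_add]; exact Submodule.add_mem _ ha hb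
        | zero => rw [zero_lie]; exact Submodule.zero_mem _
        | add a b _ _ ha hb => rw [add_lie]; exact Submodule.add_mem _ ha hb }
  let f : H →ₗ[K] G := H.toSubmodule.subtype
  have hf : ∀ a b, f ⁅a, b⁆ = ⁅f a, f b⁆ := fun a b => rfl
  have hi : Function.Injective f := Subtype.val_injective
  have hr : ∀ i, V i ≤ LinearMap.range f := by
    intro i x hx
    exact ⟨⟨x, Submodule.mem_iSup_of_mem i hx⟩, rfl⟩
  have hG := hV.restrict f hf hi hr
  have hM' := hM.restrict f hf hi hr
  have htop : ⨆ i, (V i).comap f = ⊤ := by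
    rw [eq_top_iff]
    rintro ⟨x, hx⟩ -
    have h1 : (⨆ i, (V i).comap f).map f = ⨆ i, V i := by
      rw [Submodule.map_iSup]
      apply iSup_congr
      intro i
      rw [Submodule.map_comap_eq, inf_eq_right]
      exact hr i
    have h2 : x ∈ (⨆ i, (V i).comap f).map f := by
      rw [h1]; exact hx
    obtain ⟨y, hy, he⟩ := h2
    have : y = ⟨x, hx⟩ := Subtype.ext he
    rw [← this]; exact hy
  refine exists_quot hG htop ?_ hM' ?_
  · intro i hi1 he
    apply hne i hi1
    rw [eq_bot_iff]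
    intro x hx
    obtain ⟨y, rfl⟩ := hr i hx
    have hy : y ∈ (V i).comap f := hx
    rw [he, Submodule.mem_bot] at hy
    rw [hy, map_zero]
    exact Submodule.zero_mem _
  · rw [symId_iff] at hS ⊢
    exact hS.of_inj f.toAddMonoidHom hf hi

end Zorn

end Pool.Agent.ZLM
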