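import Pool.Agent.ZLM.Defs

/-! # The linearised Engel identity -/

set_option autoImplicit false

open Finset

namespace Pool.Agent.ZLM

theorem polar33 {A : Type*} [Ring A] {n : ℕ} (X : Fin n → A) :
    ∑ S : Finset (Fin n), (-1 : ℤ) ^ (#S) • (∑ i ∈ S, X i) ^ n =
      (-1 : ℤ) ^ n • ∑ σ : Equiv.Perm (Fin n), (List.ofFn fun i => X (σ i)).prod := by
  classical
  have h1 : ∀ S : Finset (Fin n), (∑ i ∈ S, X i) ^ n =
      ∑ f : Fin n → Fin n, if (univ.image f ⊆ S) then (List.ofFn fun j => X (f j)).prod else 0 := by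
    intro S
    have h := (MultilinearMap.mkPiAlgebraFin ℤ n A).map_sum_finset
      (fun (_ : Fin n) (j : Fin n) => X j) (fun _ => S)
    rw [MultilinearMap.mkPiAlgebraFin_apply_const] at h
    rw [h, ← Finset.sum_filter]
    apply Finset.sum_congr
    · ext f
      simp only [Fintype.mem_piFinset, mem_filter, mem_univ, true_and]
      constructor
      · intro hf a ha
        obtain ⟨j, -, rfl⟩ := Finset.mem_image.1 ha
        exact hf j
      · intro hf j
        exact hf (Finset.mem_image_of_mem f (mem_univ j))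
    · intro f _
      rw [MultilinearMap.mkPiAlgebraFin_apply]
  have h2 : ∀ f : Fin n → Fin n, ∑ S : Finset (Fin n), (if univ.image f ⊆ S then (-1 : ℤ) ^ #S
      else 0) = if univ.image f = univ then (-1 : ℤ) ^ n else 0 := by
    intro f
    have h3 := Finset.sum_powerset_neg_one_pow_card (x := (univ.image f)ᶜ)
    have h4 : ((univ.image f)ᶜ = ∅) ↔ univ.image f = univ := by
      rw [Finset.compl_eq_empty_iff]
    rw [← Finset.sum_filter]
    have h5 : ∑ S ∈ (univ : Finset (Finset (Fin n))) with univ.image f ⊆ S, (-1 : ℤ) ^ #S =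
        ∑ T ∈ (univ.image f)ᶜ.powerset, (-1 : ℤ) ^ n * (-1 : ℤ) ^ #T := by
      refine Finset.sum_nbij' (fun S => Sᶜ) (fun T => Tᶜ) ?_ ?_ ?_ ?_ ?_
      · intro S hS
        rw [mem_filter] at hS
        rw [mem_powerset]
        exact Finset.compl_subset_compl.2 hS.2
      · intro T hT
        rw [mem_powerset] at hT
        rw [mem_filter]
        exact ⟨mem_univ _, Finset.subset_compl_comm.1 hT⟩
      · intro S _
        exact compl_compl S
      · intro T _
        exact compl_compl T
      · intro S _
        have hc : #S + #Sᶜ = n := by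
          rw [Finset.card_add_card_compl, Fintype.card_fin]
        have h6 : (-1 : ℤ) ^ #Sᶜ * (-1 : ℤ) ^ #Sᶜ = 1 := by
          rw [← mul_pow]; simp
        calc (-1 : ℤ) ^ #S = (-1 : ℤ) ^ #S * ((-1 : ℤ) ^ #Sᶜ * (-1 : ℤ) ^ #Sᶜ) := by rw [h6, mul_one]
          _ = (-1 : ℤ) ^ (#S + #Sᶜ) * (-1 : ℤ) ^ #Sᶜ := by rw [pow_add]; ring
          _ = _ := by rw [hc]
    rw [h5, ← Finset.mul_sum, h3]
    by_cases hf : univ.image f = univ
    · rw [if_pos hf, if_pos (h4.2 hf), mul_one]
    · rw [if_neg hf, if_neg (fun h => hf (h4.1 h)), mul_zero]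
  calc ∑ S : Finset (Fin n), (-1 : ℤ) ^ (#S) • (∑ i ∈ S, X i) ^ n
      = ∑ S : Finset (Fin n), ∑ f : Fin n → Fin n,
          (if univ.image f ⊆ S then (-1 : ℤ) ^ #S else 0) • (List.ofFn fun j => X (f j)).prod := by
        apply Finset.sum_congr rfl
        intro S _
        rw [h1, Finset.smul_sum]
        apply Finset.sum_congr rfl
        intro f _
        split_ifs
        · rfl
        · rw [smul_zero, zero_smul]
    _ = ∑ f : Fin n → Fin n, (if univ.image f = univ then (-1 : ℤ) ^ n else 0) •
          (List.ofFn fun j => X (f j)).prod := by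
        rw [Finset.sum_comm]
        apply Finset.sum_congr rfl
        intro f _
        rw [← Finset.sum_smul, h2]
    _ = ∑ f ∈ (univ : Finset (Fin n → Fin n)) with univ.image f = univ,
          (-1 : ℤ) ^ n • (List.ofFn fun j => X (f j)).prod := by
        rw [Finset.sum_filter]
        apply Finset.sum_congr rfl
        intro f _
        split_ifs
        · rfl
        · rw [zero_smul]
    _ = ∑ σ : Equiv.Perm (Fin n), (-1 : ℤ) ^ n • (List.ofFn fun i => X (σ i)).prod := by
        symm
        refine Finset.sum_nbij (fun σ => (σ : Fin n → Fin n)) ?_ ?_ ?_ ?_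
        · intro σ _
          rw [mem_filter]
          refine ⟨mem_univ _, ?_⟩
          exact Finset.image_univ_of_surjective σ.surjective
        · intro σ _ τ _ h
          exact DFunLike.coe_injective h
        · intro f hf
          have hf' := (mem_filter.1 hf).2
          have hs : Function.Surjective f := by
            intro j
            have : j ∈ univ.image f := by rw [hf']; exact mem_univ j
            obtain ⟨i, -, hi⟩ := Finset.mem_image.1 this
            exact ⟨i, hi⟩
          exact ⟨Equiv.ofBijective f (Finite.injective_iff_surjective.2 hs |> fun h => ⟨h, hs⟩),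
            Finset.mem_coe.2 (mem_univ _), rfl⟩
        · intro σ _
          rfl
    _ = _ := by rw [Finset.smul_sum]

/-- [P3] the linearised identity. -/
theorem symId_of_engel {K : Type*} [Field K] {G : Type*} [LieRing G] [LieAlgebra K G] (n : ℕ)
    (h : ∀ x : G, (LieAlgebra.ad K G x) ^ n = 0) : SymId K G n := by
  intro x
  have h1 := polar33 (fun i => LieAlgebra.ad K G (x i))
  have h2 : ∀ S : Finset (Fin n), (∑ i ∈ S, LieAlgebra.ad K G (x i)) ^ n = 0 := by
    intro S
    rw [← map_sum]
    exact h _
  simp only [h2, smul_zero, Finset.sum_const_zero] at h1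
  have h3 : (-1 : ℤ) ^ n • ((-1 : ℤ) ^ n • ∑ σ : Equiv.Perm (Fin n),
      (List.ofFn fun i => LieAlgebra.ad K G (x (σ i))).prod) = 0 := by
    rw [← h1, smul_zero]
  rw [smul_smul, ← mul_pow] at h3
  simpa using h3

end Pool.Agent.ZLM
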